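import Pool.Agent.GH.LM.Stm

/-!
# GH-LM-13: the columns of the scaled matrix tend to zero
-/

set_option autoImplicit false

open PowerSeries

noncomputable section

namespace GH.LM

variable {p : ℕ} [Fact p.Prime]

/-- Growth of the coefficients. -/
private def GR (w : ℕ → ℕ) (F : PowerSeries (Zy p)) : Prop :=
  ∀ n, Polynomial.C ((p : ℤ_[p]) ^ w n) ∣ coeff n F

private theorem cl_le {k l : ℕ} {Q : Zy p} (hkl : k ≤ l)
    (h : Polynomial.C ((p : ℤ_[p]) ^ l) ∣ Q) : Polynomial.C ((p : ℤ_[p]) ^ k) ∣ Q :=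
  (map_dvd Polynomial.C (pow_dvd_pow _ hkl)).trans h

private theorem GR_mul {w w1 w2 : ℕ → ℕ} {F G : PowerSeries (Zy p)} (hF : GR w1 F)
    (hG : GR w2 G) (hw : ∀ a b, w (a + b) ≤ w1 a + w2 b) : GR w (F * G) := by
  intro n
  rw [coeff_mul]
  refine Finset.dvd_sum fun x hx => ?_
  rw [Finset.HasAntidiagonal.mem_antidiagonal] at hx
  subst hx
  refine cl_le (hw _ _) ?_
  rw [pow_add, map_mul]
  exact mul_dvd_mul (hF _) (hG _)

private theorem GR_one {w : ℕ → ℕ} (h0 : w 0 = 0) : GR w (1 : PowerSeries (Zy p)) := by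
  intro n
  rw [coeff_one]
  split_ifs with h
  · subst h
    rw [h0, pow_zero, map_one]
  · exact dvd_zero _

private theorem GR_pow {w : ℕ → ℕ} {F : PowerSeries (Zy p)} (hF : GR w F) (h0 : w 0 = 0)
    (hw : ∀ a b, w (a + b) ≤ w a + w b) (k : ℕ) : GR w (F ^ k) := by
  induction k with
  | zero =>
    rw [pow_zero]
    exact GR_one h0
  | succ k ih =>
    rw [pow_succ]
    exact GR_mul ih hF hw

private theorem GR_map {w : ℕ → ℕ} {F : PowerSeries ℤ_[p]}
    (hF : ∀ n, (p : ℤ_[p]) ^ w n ∣ coeff n F) : GR w (PowerSeries.map Polynomial.C F) := by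
  intro n
  rw [coeff_map]
  exact map_dvd Polynomial.C (hF n)

private theorem cl_psD_mono {d : ℕ} (hd : 0 < d) {m n : ℕ} (h : m ≤ n) :
    MatU.psD p d m ≤ MatU.psD p d n := by
  unfold MatU.psD
  refine Nat.div_le_div_right (Nat.mul_le_mul_left _ ?_)
  have := MatU.phD_mono hd h
  omega

variable (P : Par p)

private theorem GR_Apow (hn : P.Num) (hg : P.Gr) : GR (MatU.psD p P.d) (MatU.Apow p P.Tv) := by
  have h1 := MatU.Apow_rt (p := p) (d := P.d) hn.d0 hn.Tv0 hg.Tv
  intro n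
  have h2 := MatU.mem_Ipw.1 (h1 n)
  rw [map_pow]
  exact_mod_cast h2

/-- The key divisibility. -/
private theorem cl_key (hn : P.Num) (hg : P.Gr) (i j : ℕ) (hj : j + 1 ≤ p * (i + 1)) :
    Polynomial.C ((p : ℤ_[p]) ^ MatU.psD p P.d (p * (i + 1) - (j + 1) - P.D)) ∣ P.PM i j := by
  unfold Par.PM MatU.MQ MatU.ent
  rw [if_pos hj]
  have hd : 0 < P.d := hn.d0
  have hp : 2 ≤ p := (Fact.out : p.Prime).two_le
  have hle : ∀ n, MatU.psD p P.d n ≤ MatU.phD P.d n := MatU.psD_le_phD (p := p) hd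
  have hadd : ∀ m n, MatU.psD p P.d (m + n) ≤ MatU.psD p P.d m + MatU.psD p P.d n :=
    MatU.psD_add hp hd
  have hS : GR (MatU.phD P.d) (PowerSeries.map Polynomial.C P.S ^ (i + 1)) :=
    GR_pow (GR_map hg.S) (MatU.phD_zero hd) (MatU.phD_add hd) (i + 1)
  have hF : GR (fun n => MatU.phD P.d (n - P.D)) (PowerSeries.map Polynomial.C P.F) :=
    GR_map hg.F
  have h1 : GR (fun n => MatU.psD p P.d (n - P.D))
      (MatU.Apow p P.Tv * PowerSeries.map Polynomial.C P.F) := by
    refine GR_mul (GR_Apow P hn hg) hF fun a b => ?_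
    have e1 : MatU.psD p P.d (a + b - P.D) ≤ MatU.psD p P.d (a + (b - P.D)) :=
      cl_psD_mono hd (by omega)
    have e2 := hadd a (b - P.D)
    have e3 := hle (b - P.D)
    show MatU.psD p P.d (a + b - P.D) ≤ MatU.psD p P.d a + MatU.phD P.d (b - P.D)
    omega
  have h2 : GR (fun n => MatU.psD p P.d (n - P.D))
      (MatU.Apow p P.Tv * PowerSeries.map Polynomial.C P.F *
        PowerSeries.map Polynomial.C P.S ^ (i + 1)) := by
    refine GR_mul h1 hS fun a b => ?_
    have e1 : MatU.psD p P.d (a + b - P.D) ≤ MatU.psD p P.d ((a - P.D) + b) :=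
      cl_psD_mono hd (by omega)
    have e2 := hadd (a - P.D) b
    have e3 := hle b
    show MatU.psD p P.d (a + b - P.D) ≤ MatU.psD p P.d (a - P.D) + MatU.phD P.d b
    omega
  exact h2 _

private theorem cl_psD_half (hp : 3 ≤ p) {d : ℕ} (hd : 0 < d) (x : ℕ) :
    x ≤ 2 * (d * MatU.psD p d x) := by
  have h1 : x ≤ d * MatU.phD d x := (MatU.phD_le_iff hd).1 le_rfl
  have h2 : MatU.phD d x ≤ 2 * MatU.psD p d x := by
    unfold MatU.psD
    obtain ⟨q, rfl⟩ : ∃ q, p = q + 3 := ⟨p - 3, by omega⟩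
    rw [show q + 3 - 2 = q + 1 by omega, show q + 3 - 1 = q + 2 by omega]
    set c := MatU.phD d x
    by_contra hc
    push Not at hc
    have h3 : (q + 1) * (c + 1) < (q + 2) * ((q + 1) * (c + 1) / (q + 2) + 1) :=
      Nat.lt_mul_div_succ _ (by omega)
    set Q := (q + 1) * (c + 1) / (q + 2)
    have h4 : (q + 1) * (2 * (Q + 1)) ≤ (q + 1) * (c + 1) := Nat.mul_le_mul_left _ (by omega)
    nlinarith
  calc x ≤ d * MatU.phD d x := h1
    _ ≤ d * (2 * MatU.psD p d x) := Nat.mul_le_mul_left _ h2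
    _ = 2 * (d * MatU.psD p d x) := by ring

/-- R18. -/
theorem spCol (hn : P.Num) (hg : P.Gr) : P.SpCol := by
  refine ⟨P.D + 4, fun i j => ?_⟩
  have hd : 0 < P.d := hn.d0
  have hp : 3 ≤ p := hn.p2
  by_cases hj : j + 1 ≤ p * (i + 1)
  · have h1 := cl_key P hn hg i j hj
    set x := p * (i + 1) - (j + 1) - P.D with hx
    have h2 := cl_psD_half hp hd x
    have h3 : 3 * (i + 1) ≤ p * (i + 1) := Nat.mul_le_mul_right _ hp
    have h4 : P.d * (i / P.d) ≤ i := Nat.mul_div_le i P.d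
    have h5 : 2 * P.d * (j / (2 * P.d)) ≤ j := Nat.mul_div_le j (2 * P.d)
    have h6 : j < P.d * (j / P.d + 1) := Nat.lt_mul_div_succ j hd
    have h7 : P.D ≤ P.d * P.D := Nat.le_mul_of_pos_left P.D hd
    have h8 : i / P.d + j / (2 * P.d) ≤ P.D + 4 + j / P.d + MatU.psD p P.d x := by
      refine Nat.le_of_mul_le_mul_left (c := 2 * P.d) ?_ (by omega)
      have e1 : 2 * P.d * (i / P.d + j / (2 * P.d)) =
          2 * (P.d * (i / P.d)) + 2 * P.d * (j / (2 * P.d)) := by ring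
      have e2 : 2 * P.d * (P.D + 4 + j / P.d + MatU.psD p P.d x) =
          2 * (P.d * P.D) + 6 * P.d + 2 * (P.d * (j / P.d + 1)) +
            2 * (P.d * MatU.psD p P.d x) := by ring
      rw [e1, e2]
      generalize P.d * (i / P.d) = A at *
      generalize 2 * P.d * (j / (2 * P.d)) = A2 at *
      generalize P.d * (j / P.d + 1) = A3 at *
      generalize P.d * P.D = A4 at *
      generalize P.d * MatU.psD p P.d x = A5 at *
      generalize p * (i + 1) = A6 at *
      omega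
    refine (map_dvd Polynomial.C (pow_dvd_pow _ h8)).trans ?_
    rw [pow_add, map_mul]
    exact mul_dvd_mul_left _ h1
  · have h0 : P.PM i j = 0 := MatU.MQ_of_lt (by omega)
    rw [h0, mul_zero]
    exact dvd_zero _

end GH.LM
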