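import Pool.Agent.GH.LM.Stm

/-!
# GH-LM, row 7: corank and flat rows of the scaled matrices `N_a` (helper30)

`NS(m) = V PS(m)`, `PS(m) = W NS(m)` with `V`, `W` unipotent lower triangular over `ℤ_p`, the
entries below the diagonal divisible by `p`.
-/

open PowerSeries

noncomputable section

namespace GH.LM

variable {p : ℕ} [Fact p.Prime] (P : Par p)

private theorem cr_ne : ((p : ℕ) : ℚ_[p]) ≠ 0 :=
  Nat.cast_ne_zero.2 (Fact.out : p.Prime).ne_zero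

private theorem cr_gm (ε i l : ℕ) (h : l ≤ i) :
    P.gm ε i ≤ (P.e * (i - l) + 1) / 2 + P.gm ε l := by
  obtain ⟨d, rfl⟩ := Nat.exists_eq_add_of_le h
  unfold Par.gm
  have h1 : P.e * (l + d + 1) = P.e * (l + 1) + P.e * d := by ring
  rw [h1, Nat.add_sub_cancel_left]
  omega

/-- the scaled coefficients of a unipotent Toeplitz matrix -/
private theorem cr_coef (ε c : ℕ) (Q : ℕ → Zy p) (h0 : Q 0 = 1)
    (hQ : ∀ l, 1 ≤ l →
      Polynomial.C ((p : ℤ_[p]) ^ ((P.e * l + 1) / 2 + 1)) ∣ Pot.sh p c 1 (Q l)) :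
    ∃ v : ℕ → ℕ → ℤ_[p], ∀ i l, l ≤ i →
      (v i l : ℚ_[p]) = (p : ℚ_[p]) ^ ((P.gm ε l : ℤ) - P.gm ε i) *
        (((Q (i - l)).eval (c : ℤ_[p]) : ℤ_[p]) : ℚ_[p]) ∧ (l < i → (p : ℤ_[p]) ∣ v i l) := by
  have h : ∀ i l : ℕ, ∃ v : ℤ_[p], l ≤ i →
      (v : ℚ_[p]) = (p : ℚ_[p]) ^ ((P.gm ε l : ℤ) - P.gm ε i) *
        (((Q (i - l)).eval (c : ℤ_[p]) : ℤ_[p]) : ℚ_[p]) ∧ (l < i → (p : ℤ_[p]) ∣ v) := by
    intro i l
    rcases lt_trichotomy l i with h | h | h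
    · obtain ⟨R, hR⟩ := hQ (i - l) (by omega)
      have h1 := congrArg (Polynomial.eval (0 : ℤ_[p])) hR
      have h2 : (Pot.sh p c 1 (Q (i - l))).eval (0 : ℤ_[p]) = (Q (i - l)).eval (c : ℤ_[p]) := by
        unfold Pot.sh
        rw [Polynomial.eval_comp]
        congr 1
        simp
      rw [h2, Polynomial.eval_mul, Polynomial.eval_C] at h1
      have hg := cr_gm P ε i l h.le
      obtain ⟨b, hb⟩ : ∃ b, (P.e * (i - l) + 1) / 2 + 1 + P.gm ε l = P.gm ε i + (b + 1) :=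
        ⟨(P.e * (i - l) + 1) / 2 + P.gm ε l - P.gm ε i, by omega⟩
      refine ⟨(p : ℤ_[p]) ^ (b + 1) * R.eval 0, fun _ => ⟨?_, fun _ => ?_⟩⟩
      · rw [h1]
        push_cast
        rw [← mul_assoc, ← zpow_natCast (p : ℚ_[p]) (b + 1),
          ← zpow_natCast (p : ℚ_[p]) ((P.e * (i - l) + 1) / 2 + 1), ← zpow_add₀ cr_ne]
        congr 2
        push_cast
        omega
      · exact Dvd.dvd.mul_right (dvd_pow_self _ (Nat.succ_ne_zero b)) _
    · subst h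
      refine ⟨1, fun _ => ⟨?_, fun h' => absurd h' (lt_irrefl _)⟩⟩
      rw [Nat.sub_self, h0, sub_self, zpow_zero, Polynomial.eval_one, one_mul]
    · exact ⟨0, fun h' => absurd h' (not_le.2 h)⟩
  choose v hv using h
  exact ⟨v, hv⟩

/-- the value of the scaled `N_a` -/
private def crN (ε a m i j : ℕ) : ℚ_[p] :=
  (((P.NS ε a i j).eval (m : ℤ_[p]) : ℤ_[p]) : ℚ_[p])

variable {P}

private theorem cr_ns (hs : P.SpNS) {ε : ℕ} (hε : ε ≤ 1) (a m i j : ℕ) :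
    crN P ε a m i j = (p : ℚ_[p]) ^ ((P.gm ε j : ℤ) - P.gm ε i) *
      (((P.NA a i j).eval (m : ℤ_[p]) : ℤ_[p]) : ℚ_[p]) := by
  have h1 := congrArg (Polynomial.eval (m : ℤ_[p])) (hs ε hε a i j)
  rw [Polynomial.eval_mul, Polynomial.eval_mul, Polynomial.eval_C, Polynomial.eval_C] at h1
  have h2 := congrArg (fun t : ℤ_[p] => (t : ℚ_[p])) h1
  push_cast at h2
  unfold crN
  rw [zpow_sub₀ cr_ne, zpow_natCast, zpow_natCast, div_mul_eq_mul_div, ← h2,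
    mul_div_cancel_left₀ _ (pow_ne_zero _ cr_ne)]

private theorem cr_sum (s : Finset ℕ) (f : ℕ → ℤ_[p]) :
    ((∑ k ∈ s, f k : ℤ_[p]) : ℚ_[p]) = ∑ k ∈ s, (f k : ℚ_[p]) :=
  map_sum PadicInt.Coe.ringHom f s

private theorem cr_A (hw : P.SpWN) (hs : P.SpNS) {ε : ℕ} (hε : ε ≤ 1) (a m : ℕ)
    (v : ℕ → ℕ → ℤ_[p]) (hv : ∀ i l, l ≤ i →
      (v i l : ℚ_[p]) = (p : ℚ_[p]) ^ ((P.gm ε l : ℤ) - P.gm ε i) *
        (((P.VA a (i - l)).eval (m : ℤ_[p]) : ℤ_[p]) : ℚ_[p])) (i j : ℕ) :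
    crN P ε a m i j = ∑ l ∈ Finset.range (i + 1), (v i l : ℚ_[p]) * P.PSq ε m l j := by
  rw [cr_ns hs hε, (hw a).2.2.2 i j, Polynomial.eval_finset_sum, cr_sum, Finset.mul_sum]
  refine Finset.sum_congr rfl fun l hl => ?_
  have hl' : l ≤ i := Nat.lt_succ_iff.1 (Finset.mem_range.1 hl)
  rw [hv i l hl']
  unfold Par.PSq
  rw [Polynomial.eval_mul, PadicInt.coe_mul]
  have h1 : (p : ℚ_[p]) ^ ((P.gm ε j : ℤ) - P.gm ε i) =
      (p : ℚ_[p]) ^ ((P.gm ε l : ℤ) - P.gm ε i) * (p : ℚ_[p]) ^ ((P.gm ε j : ℤ) - P.gm ε l) := by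
    rw [← zpow_add₀ cr_ne]
    congr 1
    ring
  rw [h1]
  ring

private theorem cr_B (hw : P.SpWN) (hs : P.SpNS) {ε : ℕ} (hε : ε ≤ 1) (a m : ℕ)
    (w : ℕ → ℕ → ℤ_[p]) (hv : ∀ i l, l ≤ i →
      (w i l : ℚ_[p]) = (p : ℚ_[p]) ^ ((P.gm ε l : ℤ) - P.gm ε i) *
        (((P.WA a (i - l)).eval (m : ℤ_[p]) : ℤ_[p]) : ℚ_[p])) (i j : ℕ) :
    P.PSq ε m i j = ∑ l ∈ Finset.range (i + 1), (w i l : ℚ_[p]) * crN P ε a m l j := by
  unfold Par.PSq
  rw [(hw a).2.2.1 i j, Polynomial.eval_finset_sum, cr_sum, Finset.mul_sum]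
  refine Finset.sum_congr rfl fun l hl => ?_
  have hl' : l ≤ i := Nat.lt_succ_iff.1 (Finset.mem_range.1 hl)
  rw [hv i l hl', cr_ns hs hε, Polynomial.eval_mul, PadicInt.coe_mul]
  have h1 : (p : ℚ_[p]) ^ ((P.gm ε j : ℤ) - P.gm ε i) =
      (p : ℚ_[p]) ^ ((P.gm ε l : ℤ) - P.gm ε i) * (p : ℚ_[p]) ^ ((P.gm ε j : ℤ) - P.gm ε l) := by
    rw [← zpow_add₀ cr_ne]
    congr 1
    ring
  rw [h1]
  ring

variable (P)

/-- R11: corank of the scaled `N_a`. -/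
theorem spCor (hw : P.SpWN) (hp : P.SpPt) (hs : P.SpNS) (hc : P.SpCorP) : P.SpCor := by
  classical
  intro ε hε a m hm
  obtain ⟨x, y, hxy⟩ := hc ε hε m
  choose z hz using hxy
  obtain ⟨v, hv⟩ := cr_coef P ε m (P.VA a) (hw a).2.1
    fun l hl => (hp a m 1 l hm le_rfl hl).2
  refine ⟨fun i l => ∑ k ∈ Finset.range (i + 1), (v i k : ℚ_[p]) * x k l, y, fun i j =>
    ⟨∑ k ∈ Finset.range (i + 1), v i k * z k j, ?_⟩⟩
  have h1 := cr_A hw hs hε a m v (fun i l h => (hv i l h).1) i j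
  unfold crN at h1
  rw [h1, cr_sum]
  have h2 : ∀ k, (v i k : ℚ_[p]) * P.PSq ε m k j =
      ∑ l, (v i k : ℚ_[p]) * x k l * y l j + (p : ℚ_[p]) ^ P.s m * ((v i k * z k j : ℤ_[p]) :
        ℚ_[p]) := by
    intro k
    rw [hz k j, mul_add, Finset.mul_sum, PadicInt.coe_mul]
    congr 1
    · exact Finset.sum_congr rfl fun l _ => by ring
    · ring
  simp only [h2]
  rw [Finset.sum_add_distrib, Finset.sum_comm, ← Finset.mul_sum]
  congr 1
  exact Finset.sum_congr rfl fun l _ => by rw [Finset.sum_mul]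

/-- R12: flat rows of the scaled `N_a`. -/
theorem spFlat (hn : P.Num) (hw : P.SpWN) (hp : P.SpPt) (hs : P.SpNS) (hf : P.SpFlatP) :
    P.SpFlat := by
  classical
  have _ := hn
  intro a m n hm hn1 ht i hi
  have hε : n % 2 ≤ 1 := by omega
  obtain ⟨v, hv⟩ := cr_coef P (n % 2) m (P.VA a) (hw a).2.1
    fun l hl => (hp a m 1 l hm le_rfl hl).2
  obtain ⟨w, hw'⟩ := cr_coef P (n % 2) m (P.WA a) (hw a).1
    fun l hl => (hp a m 1 l hm le_rfl hl).1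
  -- the flat rows of `PS`
  have h1 : ∀ l, ∃ (X : ℕ → ℤ_[p]) (z : ℕ → ℤ_[p]), n ≤ l → ∀ j,
      P.PSq (n % 2) m l j = ∑ k ∈ Finset.range n, (p : ℚ_[p]) * X k * P.PSq (n % 2) m k j +
        (p : ℚ_[p]) ^ P.s m * z j := by
    intro l
    by_cases hl : n ≤ l
    · obtain ⟨X, hX⟩ := hf m n hn1 ht l hl
      choose z hz using hX
      exact ⟨X, z, fun _ => hz⟩
    · exact ⟨0, 0, fun h => absurd h hl⟩
  choose X z hXz using h1
  have h2 : ∀ l, ∃ r : ℤ_[p], l < i → v i l = p * r := by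
    intro l
    by_cases hl : l < i
    · obtain ⟨r, hr⟩ := (hv i l hl.le).2 hl
      exact ⟨r, fun _ => hr⟩
    · exact ⟨0, fun h => absurd h hl⟩
  choose r hr using h2
  set c : ℕ → ℤ_[p] := fun k => r k + ∑ l ∈ Finset.Ico n (i + 1), v i l * X l k with hc
  set w0 : ℕ → ℕ → ℤ_[p] := fun k l => if l ≤ k then w k l else 0 with hw0
  refine ⟨fun l => ∑ k ∈ Finset.range n, c k * w0 k l, fun j =>
    ⟨∑ l ∈ Finset.Ico n (i + 1), v i l * z l j, ?_⟩⟩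
  have hA := cr_A hw hs hε a m v (fun i l h => (hv i l h).1) i j
  have hB : ∀ k, k < n → P.PSq (n % 2) m k j =
      ∑ l ∈ Finset.range n, (w0 k l : ℚ_[p]) * crN P (n % 2) a m l j := by
    intro k hk
    rw [cr_B hw hs hε a m w (fun i l h => (hw' i l h).1) k j]
    have h3 : Finset.range (k + 1) ⊆ Finset.range n := Finset.range_subset_range.2 hk
    rw [← Finset.sum_subset h3]
    · refine Finset.sum_congr rfl fun l hl => ?_
      rw [hw0]
      simp only [if_pos (Nat.lt_succ_iff.1 (Finset.mem_range.1 hl))]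
    · intro l _ hl
      have h4 : ¬ l ≤ k := fun h => hl (Finset.mem_range.2 (Nat.lt_succ_iff.2 h))
      rw [hw0]
      simp only [if_neg h4, PadicInt.coe_zero, zero_mul]
  -- the first form
  have h3 : crN P (n % 2) a m i j = ∑ k ∈ Finset.range n,
      (p : ℚ_[p]) * (c k : ℚ_[p]) * P.PSq (n % 2) m k j + (p : ℚ_[p]) ^ P.s m *
        ((∑ l ∈ Finset.Ico n (i + 1), v i l * z l j : ℤ_[p]) : ℚ_[p]) := by
    rw [hA, ← Finset.sum_range_add_sum_Ico _ (show n ≤ i + 1 by omega)]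
    have e1 : ∑ l ∈ Finset.range n, (v i l : ℚ_[p]) * P.PSq (n % 2) m l j =
        ∑ l ∈ Finset.range n, (p : ℚ_[p]) * (r l : ℚ_[p]) * P.PSq (n % 2) m l j := by
      refine Finset.sum_congr rfl fun l hl => ?_
      rw [hr l (lt_of_lt_of_le (Finset.mem_range.1 hl) hi), PadicInt.coe_mul,
        PadicInt.coe_natCast]
    have e2 : ∑ l ∈ Finset.Ico n (i + 1), (v i l : ℚ_[p]) * P.PSq (n % 2) m l j =
        ∑ k ∈ Finset.range n, (p : ℚ_[p]) *
          ((∑ l ∈ Finset.Ico n (i + 1), v i l * X l k : ℤ_[p]) : ℚ_[p]) *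
            P.PSq (n % 2) m k j + (p : ℚ_[p]) ^ P.s m *
        ((∑ l ∈ Finset.Ico n (i + 1), v i l * z l j : ℤ_[p]) : ℚ_[p]) := by
      have e3 : ∀ l ∈ Finset.Ico n (i + 1), (v i l : ℚ_[p]) * P.PSq (n % 2) m l j =
          ∑ k ∈ Finset.range n, (p : ℚ_[p]) * ((v i l : ℚ_[p]) * (X l k : ℚ_[p])) *
            P.PSq (n % 2) m k j + (p : ℚ_[p]) ^ P.s m * ((v i l : ℚ_[p]) * (z l j : ℚ_[p])) := by
        intro l hl
        rw [hXz l (Finset.mem_Ico.1 hl).1 j, mul_add, Finset.mul_sum]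
        congr 1
        · exact Finset.sum_congr rfl fun k _ => by ring
        · ring
      rw [Finset.sum_congr rfl e3, Finset.sum_add_distrib, Finset.sum_comm, cr_sum,
        Finset.mul_sum]
      congr 1
      refine Finset.sum_congr rfl fun k _ => ?_
      rw [cr_sum, Finset.mul_sum, Finset.sum_mul]
      exact Finset.sum_congr rfl fun l _ => by rw [PadicInt.coe_mul]
    rw [e1, e2, ← add_assoc, ← Finset.sum_add_distrib]
    congr 1
    refine Finset.sum_congr rfl fun k _ => ?_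
    show (p : ℚ_[p]) * (r k : ℚ_[p]) * P.PSq (n % 2) m k j + _ =
      (p : ℚ_[p]) * ((r k + ∑ l ∈ Finset.Ico n (i + 1), v i l * X l k : ℤ_[p]) : ℚ_[p]) *
        P.PSq (n % 2) m k j
    rw [PadicInt.coe_add]
    ring
  apply PadicInt.ext
  show crN P (n % 2) a m i j = _
  rw [h3, PadicInt.coe_add, PadicInt.coe_mul, PadicInt.coe_pow, PadicInt.coe_natCast]
  congr 1
  have h5 : ∀ k ∈ Finset.range n, (p : ℚ_[p]) * (c k : ℚ_[p]) * P.PSq (n % 2) m k j =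
      ∑ l ∈ Finset.range n, (p : ℚ_[p]) * ((c k : ℚ_[p]) * (w0 k l : ℚ_[p])) *
        crN P (n % 2) a m l j := by
    intro k hk
    rw [hB k (Finset.mem_range.1 hk), Finset.mul_sum]
    exact Finset.sum_congr rfl fun l _ => by ring
  rw [Finset.sum_congr rfl h5, Finset.sum_comm, cr_sum]
  refine Finset.sum_congr rfl fun l _ => ?_
  rw [PadicInt.coe_mul, PadicInt.coe_mul, PadicInt.coe_natCast, cr_sum, Finset.mul_sum,
    Finset.sum_mul]
  refine Finset.sum_congr rfl fun k _ => ?_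
  rw [PadicInt.coe_mul]
  rfl

end GH.LM
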