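import Pool.Agent.GH.LM.Stm

/-!
# GH-LM, row 5: the scaled matrix `PM(m)` up to `p^s`

From the decomposition (J) at the centre.
-/

open PowerSeries

noncomputable section

namespace GH.LM

variable {p : ℕ} [Fact p.Prime] (P : Par p)

theorem cp_ne : ((p : ℕ) : ℚ_[p]) ≠ 0 := Nat.cast_ne_zero.2 (Fact.out : p.Prime).ne_zero

/-- R9: the scaled matrix `PM(m)` up to `p^s`, as a sum of `t` products. -/
theorem spCorP (hn : P.Num) (hJ : P.SpJ) (hH : P.Hc) (hK : P.Kap) : P.SpCorP := by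
  classical
  have _ := hn
  intro ε hε m
  obtain ⟨y, hy⟩ := hJ m
  have hp : ((p : ℕ) : ℚ_[p]) ≠ 0 := cp_ne
  have hpR : (p : ℝ) ≠ 0 := Nat.cast_ne_zero.2 (Fact.out : p.Prime).ne_zero
  refine ⟨fun i l => (p : ℚ_[p]) ^ (-(P.gm ε i : ℤ)) *
      ((((P.dat m).xl (P.t m) (l + 1)).coeff (i + 1) : ℚ) : ℚ_[p]),
    fun l j => if j + 1 < P.cen m then (p : ℚ_[p]) ^ (P.gm ε j : ℤ) * y (l + 1) j else 0,
    fun i j => ?_⟩
  have hz : (p : ℚ_[p]) ^ ((P.gm ε j : ℤ) - P.gm ε i) =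
      (p : ℚ_[p]) ^ (-(P.gm ε i : ℤ)) * (p : ℚ_[p]) ^ (P.gm ε j : ℤ) := by
    rw [← zpow_add₀ hp]
    congr 1
    ring
  by_cases hj : j + 1 < P.cen m
  · have h1 := hy i j hj
    simp only [if_pos hj]
    have hsum : ∑ l ∈ Finset.Icc 1 (P.t m),
        ((((P.dat m).xl (P.t m) l).coeff (i + 1) : ℚ) : ℚ_[p]) * y l j =
        ∑ l : Fin (P.t m), ((((P.dat m).xl (P.t m) ((l : ℕ) + 1)).coeff (i + 1) : ℚ) : ℚ_[p]) *
          y ((l : ℕ) + 1) j := by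
      rw [Fin.sum_univ_eq_sum_range (fun l =>
        ((((P.dat m).xl (P.t m) (l + 1)).coeff (i + 1) : ℚ) : ℚ_[p]) * y (l + 1) j) (P.t m)]
      rw [Finset.sum_bij (fun l _ => l - 1)]
      · intro l hl
        have := Finset.mem_Icc.1 hl
        exact Finset.mem_range.2 (by omega)
      · intro a ha b hb hab
        have := Finset.mem_Icc.1 ha
        have := Finset.mem_Icc.1 hb
        omega
      · intro b hb
        exact ⟨b + 1, Finset.mem_Icc.2 ⟨by omega, by have := Finset.mem_range.1 hb; omega⟩, rfl⟩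
      · intro l hl
        have := Finset.mem_Icc.1 hl
        have h4 : l - 1 + 1 = l := by omega
        rw [h4]
    have hmain : (p : ℚ_[p]) ^ ((P.gm ε j : ℤ) - P.gm ε i) *
        ∑ l : Fin (P.t m), ((((P.dat m).xl (P.t m) ((l : ℕ) + 1)).coeff (i + 1) : ℚ) : ℚ_[p]) *
          y ((l : ℕ) + 1) j = ∑ l : Fin (P.t m), (p : ℚ_[p]) ^ (-(P.gm ε i : ℤ)) *
      ((((P.dat m).xl (P.t m) ((l : ℕ) + 1)).coeff (i + 1) : ℚ) : ℚ_[p]) *
        ((p : ℚ_[p]) ^ (P.gm ε j : ℤ) * y ((l : ℕ) + 1) j) := by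
      rw [Finset.mul_sum, hz]
      exact Finset.sum_congr rfl fun l _ => by ring
    by_cases hij : i + j + 2 = P.cen m
    · have h4 := hK ε hε m i j hij
      have h5 : ‖-((p : ℚ_[p]) ^ ((P.gm ε j : ℤ) - P.gm ε i - P.s m) *
          ((P.kap m j : ℚ) : ℚ_[p]))‖ ≤ 1 := by
        have h6 : ‖((P.kap m j : ℚ) : ℚ_[p])‖ =
            (p : ℝ) ^ ((P.gm ε j : ℤ) - P.s m) * (p : ℝ) ^ (-(P.gm ε i : ℤ)) := by
          rw [← h4, mul_assoc, ← zpow_add₀ hpR, add_neg_cancel, zpow_zero, mul_one]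
        rw [norm_neg, norm_mul, Padic.norm_p_zpow, h6, ← zpow_add₀ hpR, ← zpow_add₀ hpR]
        refine le_of_eq ?_
        rw [show -((P.gm ε j : ℤ) - P.gm ε i - P.s m) + ((P.gm ε j : ℤ) - P.s m + -(P.gm ε i : ℤ))
          = 0 by ring, zpow_zero]
      refine ⟨⟨_, h5⟩, ?_⟩
      show (p : ℚ_[p]) ^ ((P.gm ε j : ℤ) - P.gm ε i) *
        (((P.PM i j).eval (m : ℤ_[p]) : ℤ_[p]) : ℚ_[p]) = _
      rw [h1, if_pos hij, hsum, mul_sub, hmain, sub_eq_add_neg]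
      congr 1
      show -((p : ℚ_[p]) ^ ((P.gm ε j : ℤ) - P.gm ε i) * ((P.kap m j : ℚ) : ℚ_[p])) =
        (p : ℚ_[p]) ^ P.s m * (-((p : ℚ_[p]) ^ ((P.gm ε j : ℤ) - P.gm ε i - P.s m) *
          ((P.kap m j : ℚ) : ℚ_[p])))
      rw [← zpow_natCast (p : ℚ_[p]) (P.s m), mul_neg, ← mul_assoc, ← zpow_add₀ hp]
      congr 3
      ring
    · refine ⟨0, ?_⟩
      show (p : ℚ_[p]) ^ ((P.gm ε j : ℤ) - P.gm ε i) *
        (((P.PM i j).eval (m : ℤ_[p]) : ℤ_[p]) : ℚ_[p]) = _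
      rw [h1, if_neg hij, hsum, sub_zero, hmain, PadicInt.coe_zero, mul_zero, add_zero]
  · obtain ⟨w, hw⟩ := hH ε hε m i j (not_lt.1 hj)
    refine ⟨w, ?_⟩
    simp only [if_neg hj, mul_zero, Finset.sum_const_zero, zero_add]
    have h4 := congrArg (fun t : ℤ_[p] => (t : ℚ_[p])) hw
    push_cast at h4
    show (p : ℚ_[p]) ^ ((P.gm ε j : ℤ) - P.gm ε i) *
        (((P.PM i j).eval (m : ℤ_[p]) : ℤ_[p]) : ℚ_[p]) = _
    rw [hz, mul_assoc, zpow_natCast (p : ℚ_[p]) (P.gm ε j), h4, pow_add,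
      ← zpow_natCast (p : ℚ_[p]) (P.gm ε i)]
    have h5 : (p : ℚ_[p]) ^ (-(P.gm ε i : ℤ)) * (p : ℚ_[p]) ^ (P.gm ε i : ℤ) = 1 := by
      rw [← zpow_add₀ hp, neg_add_cancel, zpow_zero]
    linear_combination ((p : ℚ_[p]) ^ P.s m * (w : ℚ_[p])) * h5

end GH.LM
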