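import Pool.Agent.GH.LM.Stm

/-!
# GH-LM, row 6: the flat rows of `PM(m)`

The matrix of the `x_l` is unipotent lower triangular and integral after scaling; the rows below
the row `n` are divisible by `p` (scaling `ε = n mod 2`).
-/

open PowerSeries

noncomputable section

namespace GH.LM

variable {p : ℕ} [Fact p.Prime] (P : Par p)

theorem fp_ne : ((p : ℕ) : ℚ_[p]) ≠ 0 := Nat.cast_ne_zero.2 (Fact.out : p.Prime).ne_zero

/-- the valuation of the off-diagonal coefficients after scaling -/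
theorem fp_ww (hn : P.Num) (ε i l : ℕ) (hε : ε ≤ 1) (h : l ≤ i) :
    P.gm ε i ≤ P.ww (i - l) + P.gm ε l := by
  have h1 := hn.e0
  have h2 := hn.e2
  have h3 := hn.p2
  have h4 : P.e * (i - l) / (p + 1) ≤ P.e * (i - l) / 4 :=
    Nat.div_le_div_left (by omega) (by norm_num)
  unfold Par.gm Par.ww
  obtain he | he : P.e = 1 ∨ P.e = 2 := by omega
  · rw [he] at h4 ⊢
    omega
  · rw [he] at h4 ⊢
    omega

/-- one more power of `p` below the row `n` -/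
theorem fp_ww1 (hn : P.Num) (n i l : ℕ) (hl : l < n) (hi : n ≤ i) :
    P.gm (n % 2) i + 1 ≤ P.ww (i - l) + P.gm (n % 2) l := by
  have h1 := hn.e0
  have h2 := hn.e2
  have h3 := hn.p2
  have h4 : P.e * (i - l) / (p + 1) ≤ P.e * (i - l) / 4 :=
    Nat.div_le_div_left (by omega) (by norm_num)
  unfold Par.gm Par.ww
  obtain he | he : P.e = 1 ∨ P.e = 2 := by omega
  · rw [he] at h4 ⊢
    omega
  · rw [he] at h4 ⊢
    omega

/-- back substitution in a unipotent triangular system -/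
theorem fp_tri {R : Type} [CommRing R] (n : ℕ) (X : ℕ → ℕ → R) (h1 : ∀ l, l < n → X l l = 1)
    (h0 : ∀ i l, i < l → l < n → X i l = 0) (u : ℕ → R) :
    ∃ x : ℕ → R, ∀ l, l < n → ∑ k ∈ Finset.range n, x k * X k l = u l := by
  classical
  set A : Matrix (Fin n) (Fin n) R := fun k l => X k l with hA
  have hdet : A.det = 1 := by
    rw [Matrix.det_of_isLowerTriangular A]
    · exact Finset.prod_eq_one fun i _ => h1 i i.2
    · intro i j hij
      exact h0 i j hij j.2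
  have hu : IsUnit A.det := by
    rw [hdet]
    exact isUnit_one
  set v : Fin n → R := Matrix.vecMul (fun l : Fin n => u l) A⁻¹ with hv
  refine ⟨fun k => if h : k < n then v ⟨k, h⟩ else 0, fun l hl => ?_⟩
  have h2 : Matrix.vecMul v A = fun l : Fin n => u l := by
    rw [hv, Matrix.vecMul_vecMul, Matrix.nonsing_inv_mul _ hu, Matrix.vecMul_one]
  have h3 := congrFun h2 ⟨l, hl⟩
  rw [← h3, Matrix.vecMul, dotProduct, ← Fin.sum_univ_eq_sum_range
    (fun k => (if h : k < n then v ⟨k, h⟩ else 0) * X k l) n]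
  refine Finset.sum_congr rfl fun k _ => ?_
  rw [dif_pos k.2]

theorem fp_xl0 (D : TrJ.Data) (z i l : ℕ) (h : i < l) : (D.xl z l).coeff i = 0 := by
  unfold TrJ.Data.xl
  rw [Polynomial.coeff_mul_X_pow', if_neg (by omega)]

theorem fp_xl1 (D : TrJ.Data) (z l : ℕ) : (D.xl z l).coeff l = 1 := by
  unfold TrJ.Data.xl
  rw [Polynomial.coeff_mul_X_pow', if_pos le_rfl, Nat.sub_self, Polynomial.mul_coeff_zero,
    D.ψ0, one_mul, Polynomial.coeff_zero_eq_eval_zero, Polynomial.eval_pow,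
    ← Polynomial.coeff_zero_eq_eval_zero, D.PG0, one_pow]

/-- the decomposition of the scaled matrix modulo `p^s` -/
theorem fp_dec (hJ : P.SpJ) (hH : P.Hc) (hK : P.Kap) {ε : ℕ} (hε : ε ≤ 1) (m : ℕ) :
    ∃ y : ℕ → ℕ → ℚ_[p], ∀ i j, ∃ w : ℤ_[p], P.PSq ε m i j =
      ∑ l ∈ Finset.range (P.t m), (p : ℚ_[p]) ^ (-(P.gm ε i : ℤ)) *
        ((((P.dat m).xl (P.t m) (l + 1)).coeff (i + 1) : ℚ) : ℚ_[p]) * y l j +
          (p : ℚ_[p]) ^ P.s m * w := by
  classical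
  obtain ⟨y, hy⟩ := hJ m
  have hp : ((p : ℕ) : ℚ_[p]) ≠ 0 := fp_ne
  have hpR : (p : ℝ) ≠ 0 := Nat.cast_ne_zero.2 (Fact.out : p.Prime).ne_zero
  refine ⟨fun l j => if j + 1 < P.cen m then (p : ℚ_[p]) ^ (P.gm ε j : ℤ) * y (l + 1) j else 0,
    fun i j => ?_⟩
  have hz : (p : ℚ_[p]) ^ ((P.gm ε j : ℤ) - P.gm ε i) =
      (p : ℚ_[p]) ^ (-(P.gm ε i : ℤ)) * (p : ℚ_[p]) ^ (P.gm ε j : ℤ) := by
    rw [← zpow_add₀ hp]
    congr 1
    ring
  by_cases hj : j + 1 < P.cen m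
  · have h1 := hy i j hj
    simp only [if_pos hj]
    have hsum : ∑ l ∈ Finset.Icc 1 (P.t m),
        ((((P.dat m).xl (P.t m) l).coeff (i + 1) : ℚ) : ℚ_[p]) * y l j =
        ∑ l ∈ Finset.range (P.t m),
          ((((P.dat m).xl (P.t m) (l + 1)).coeff (i + 1) : ℚ) : ℚ_[p]) * y (l + 1) j := by
      rw [Finset.sum_bij (fun l _ => l - 1)]
      · intro l hl
        have := Finset.mem_Icc.1 hl
        exact Finset.mem_range.2 (by omega)
      · intro a ha b hb hab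
        have := Finset.mem_Icc.1 ha
        have := Finset.mem_Icc.1 hb
        omega
      · intro b hb
        exact ⟨b + 1, Finset.mem_Icc.2 ⟨by omega, by have := Finset.mem_range.1 hb; omega⟩, rfl⟩
      · intro l hl
        have := Finset.mem_Icc.1 hl
        have h4 : l - 1 + 1 = l := by omega
        rw [h4]
    have hmain : (p : ℚ_[p]) ^ ((P.gm ε j : ℤ) - P.gm ε i) *
        ∑ l ∈ Finset.range (P.t m),
          ((((P.dat m).xl (P.t m) (l + 1)).coeff (i + 1) : ℚ) : ℚ_[p]) * y (l + 1) j =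
        ∑ l ∈ Finset.range (P.t m), (p : ℚ_[p]) ^ (-(P.gm ε i : ℤ)) *
          ((((P.dat m).xl (P.t m) (l + 1)).coeff (i + 1) : ℚ) : ℚ_[p]) *
            ((p : ℚ_[p]) ^ (P.gm ε j : ℤ) * y (l + 1) j) := by
      rw [Finset.mul_sum, hz]
      exact Finset.sum_congr rfl fun l _ => by ring
    by_cases hij : i + j + 2 = P.cen m
    · have h4 := hK ε hε m i j hij
      have h5 : ‖-((p : ℚ_[p]) ^ ((P.gm ε j : ℤ) - P.gm ε i - P.s m) *
          ((P.kap m j : ℚ) : ℚ_[p]))‖ ≤ 1 := by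
        have h6 : ‖((P.kap m j : ℚ) : ℚ_[p])‖ =
            (p : ℝ) ^ ((P.gm ε j : ℤ) - P.s m) * (p : ℝ) ^ (-(P.gm ε i : ℤ)) := by
          rw [← h4, mul_assoc, ← zpow_add₀ hpR, add_neg_cancel, zpow_zero, mul_one]
        rw [norm_neg, norm_mul, Padic.norm_p_zpow, h6, ← zpow_add₀ hpR, ← zpow_add₀ hpR]
        refine le_of_eq ?_
        rw [show -((P.gm ε j : ℤ) - P.gm ε i - P.s m) + ((P.gm ε j : ℤ) - P.s m + -(P.gm ε i : ℤ))
          = 0 by ring, zpow_zero]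
      refine ⟨⟨_, h5⟩, ?_⟩
      show (p : ℚ_[p]) ^ ((P.gm ε j : ℤ) - P.gm ε i) *
        (((P.PM i j).eval (m : ℤ_[p]) : ℤ_[p]) : ℚ_[p]) = _
      rw [h1, if_pos hij, hsum, mul_sub, hmain, sub_eq_add_neg]
      congr 1
      show -((p : ℚ_[p]) ^ ((P.gm ε j : ℤ) - P.gm ε i) * ((P.kap m j : ℚ) : ℚ_[p])) =
        (p : ℚ_[p]) ^ P.s m * (-((p : ℚ_[p]) ^ ((P.gm ε j : ℤ) - P.gm ε i - P.s m) *
          ((P.kap m j : ℚ) : ℚ_[p])))
      rw [← zpow_natCast (p : ℚ_[p]) (P.s m), mul_neg, ← mul_assoc, ← zpow_add₀ hp]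
      congr 3
      ring
    · refine ⟨0, ?_⟩
      show (p : ℚ_[p]) ^ ((P.gm ε j : ℤ) - P.gm ε i) *
        (((P.PM i j).eval (m : ℤ_[p]) : ℤ_[p]) : ℚ_[p]) = _
      rw [h1, if_neg hij, hsum, sub_zero, hmain, PadicInt.coe_zero, mul_zero, add_zero]
  · obtain ⟨w, hw⟩ := hH ε hε m i j (not_lt.1 hj)
    refine ⟨w, ?_⟩
    simp only [if_neg hj, mul_zero, Finset.sum_const_zero, zero_add]
    have h4 := congrArg (fun t : ℤ_[p] => (t : ℚ_[p])) hw
    push_cast at h4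
    show (p : ℚ_[p]) ^ ((P.gm ε j : ℤ) - P.gm ε i) *
        (((P.PM i j).eval (m : ℤ_[p]) : ℤ_[p]) : ℚ_[p]) = _
    rw [hz, mul_assoc, zpow_natCast (p : ℚ_[p]) (P.gm ε j), h4, pow_add,
      ← zpow_natCast (p : ℚ_[p]) (P.gm ε i)]
    have h5 : (p : ℚ_[p]) ^ (-(P.gm ε i : ℤ)) * (p : ℚ_[p]) ^ (P.gm ε i : ℤ) = 1 := by
      rw [← zpow_add₀ hp, neg_add_cancel, zpow_zero]
    linear_combination ((p : ℚ_[p]) ^ P.s m * (w : ℚ_[p])) * h5

/-- R10: the flat rows of `PM(m)`. -/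
theorem spFlatP (hn : P.Num) (hJ : P.SpJ) (hX : P.Xl) (hH : P.Hc) (hK : P.Kap) : P.SpFlatP := by
  classical
  intro m n _ hnt i hi
  have hε : n % 2 ≤ 1 := by omega
  have hp : ((p : ℕ) : ℚ_[p]) ≠ 0 := fp_ne
  obtain ⟨y, hy⟩ := fp_dec P hJ hH hK hε m
  rw [← hnt] at hy
  choose w hw using hy
  -- the integral scaled coefficients
  have hXi : ∀ i l : ℕ, ∃ X : ℤ_[p], (i < l → X = 0) ∧ (i = l → X = 1) ∧
      (l < n → n ≤ i → ((p : ℕ) : ℤ_[p]) ∣ X) ∧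
      (p : ℚ_[p]) ^ (-(P.gm (n % 2) i : ℤ)) *
          ((((P.dat m).xl n (l + 1)).coeff (i + 1) : ℚ) : ℚ_[p]) =
        (X : ℚ_[p]) * (p : ℚ_[p]) ^ (-(P.gm (n % 2) l : ℤ)) := by
    intro i l
    rcases lt_trichotomy i l with h | h | h
    · refine ⟨0, fun _ => rfl, fun h' => absurd h' h.ne, fun h3 h4 => absurd h (by omega), ?_⟩
      rw [fp_xl0 (P.dat m) n (i + 1) (l + 1) (by omega)]
      simp
    · subst h
      refine ⟨1, fun h' => absurd h' (lt_irrefl _), fun _ => rfl, fun h3 h4 => absurd h3 (by omega),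
        ?_⟩
      rw [fp_xl1 (P.dat m) n (i + 1)]
      simp
    · obtain ⟨r, hr⟩ := hX m (l + 1) (i + 1)
      rw [← hnt] at hr
      have h4 : i + 1 - (l + 1) = i - l := by omega
      rw [h4] at hr
      have h3 := fp_ww P hn (n % 2) i l hε h.le
      refine ⟨((p : ℕ) : ℤ_[p]) ^ (P.ww (i - l) + P.gm (n % 2) l - P.gm (n % 2) i) * (r : ℤ_[p]),
        fun h' => absurd h' (by omega), fun h' => absurd h' (by omega), fun h5 h6 => ?_, ?_⟩
      · have h7 := fp_ww1 P hn n i l h5 h6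
        exact Dvd.dvd.mul_right (dvd_pow_self _ (by omega)) _
      · rw [hr]
        push_cast
        have h8 : (p : ℚ_[p]) ^ (-(P.gm (n % 2) i : ℤ)) * (p : ℚ_[p]) ^ P.ww (i - l) =
            (p : ℚ_[p]) ^ (P.ww (i - l) + P.gm (n % 2) l - P.gm (n % 2) i) *
              (p : ℚ_[p]) ^ (-(P.gm (n % 2) l : ℤ)) := by
          rw [← zpow_natCast (p : ℚ_[p]) (P.ww (i - l)),
            ← zpow_natCast (p : ℚ_[p]) (P.ww (i - l) + P.gm (n % 2) l - P.gm (n % 2) i),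
            ← zpow_add₀ hp, ← zpow_add₀ hp]
          congr 1
          omega
        linear_combination (r : ℚ_[p]) * h8
  choose X hX0 hX1 hXd hXe using hXi
  -- the row `i`
  have hd : ∀ l, ∃ u : ℤ_[p], l < n → X i l = ((p : ℕ) : ℤ_[p]) * u := fun l => by
    by_cases hl : l < n
    · obtain ⟨u, hu⟩ := hXd i l hl hi
      exact ⟨u, fun _ => hu⟩
    · exact ⟨0, fun h => absurd h hl⟩
  choose u hu using hd
  obtain ⟨x, hx⟩ := fp_tri n X (fun l _ => hX1 l l rfl) (fun i l h _ => hX0 i l h) u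
  refine ⟨x, fun j => ⟨w i j - ∑ k ∈ Finset.range n, ((p : ℕ) : ℤ_[p]) * x k * w k j, ?_⟩⟩
  have hsum : ∀ (s : Finset ℕ) (f : ℕ → ℤ_[p]), ((∑ k ∈ s, f k : ℤ_[p]) : ℚ_[p]) =
      ∑ k ∈ s, (f k : ℚ_[p]) := fun s f => map_sum PadicInt.Coe.ringHom f s
  have hcp : (((p : ℕ) : ℤ_[p]) : ℚ_[p]) = (p : ℚ_[p]) := PadicInt.coe_natCast p
  have hrow : ∀ k, P.PSq (n % 2) m k j =
      ∑ l ∈ Finset.range n, (X k l : ℚ_[p]) *
        ((p : ℚ_[p]) ^ (-(P.gm (n % 2) l : ℤ)) * y l j) + (p : ℚ_[p]) ^ P.s m * (w k j : ℚ_[p]) := by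
    intro k
    rw [hw k j]
    congr 1
    refine Finset.sum_congr rfl fun l _ => ?_
    rw [hXe k l, mul_assoc]
  rw [PadicInt.coe_sub, hsum]
  simp only [PadicInt.coe_mul, hcp]
  rw [hrow i]
  have h1 : ∑ k ∈ Finset.range n, (p : ℚ_[p]) * (x k : ℚ_[p]) * P.PSq (n % 2) m k j =
      ∑ l ∈ Finset.range n, (X i l : ℚ_[p]) *
        ((p : ℚ_[p]) ^ (-(P.gm (n % 2) l : ℤ)) * y l j) +
        (p : ℚ_[p]) ^ P.s m * ∑ k ∈ Finset.range n, (p : ℚ_[p]) * (x k : ℚ_[p]) *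
          (w k j : ℚ_[p]) := by
    have h2 : ∀ k ∈ Finset.range n, (p : ℚ_[p]) * (x k : ℚ_[p]) * P.PSq (n % 2) m k j =
        ∑ l ∈ Finset.range n, (p : ℚ_[p]) * ((x k : ℚ_[p]) * (X k l : ℚ_[p])) *
          ((p : ℚ_[p]) ^ (-(P.gm (n % 2) l : ℤ)) * y l j) +
          (p : ℚ_[p]) ^ P.s m * ((p : ℚ_[p]) * (x k : ℚ_[p]) * (w k j : ℚ_[p])) := by
      intro k _
      rw [hrow k, mul_add, Finset.mul_sum]
      congr 1
      · exact Finset.sum_congr rfl fun l _ => by ring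
      · ring
    rw [Finset.sum_congr rfl h2, Finset.sum_add_distrib, Finset.sum_comm, Finset.mul_sum]
    congr 1
    refine Finset.sum_congr rfl fun l hl => ?_
    have h3 : ((∑ k ∈ Finset.range n, x k * X k l : ℤ_[p]) : ℚ_[p]) = (u l : ℚ_[p]) :=
      congrArg _ (hx l (Finset.mem_range.1 hl))
    rw [hsum] at h3
    simp only [PadicInt.coe_mul] at h3
    have h4 : (X i l : ℚ_[p]) = (p : ℚ_[p]) * (u l : ℚ_[p]) := by
      rw [hu l (Finset.mem_range.1 hl), PadicInt.coe_mul, hcp]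
    rw [← Finset.sum_mul, ← Finset.mul_sum, h3, h4]
  rw [h1]
  ring

end GH.LM
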