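import Pool.Agent.GH.LM.Stm

/-!
# Row J of `GH.LM`: the decomposition at the centres (R8)
-/

open PowerSeries

noncomputable section

namespace GH.LM

variable {p : ℕ} [Fact p.Prime] (P : Par p)

/-- R8: the decomposition at the centre. -/
theorem spJ (hn : P.Num) (hv : P.Val) : P.SpJ := by
  intro m
  obtain ⟨y0, hy0, -⟩ := (P.dat m).rank (P.t m)
  have hcm : (P.dat m).m (P.t m) = P.cen m := hn.dm m
  rw [← hcm]
  refine ⟨fun l j => ((y0 l ((P.dat m).m (P.t m) - (j + 1)) * P.kap m j : ℚ) : ℚ_[p]), ?_⟩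
  intro i j hj
  rw [hv m i j]
  have h1 := hy0 (i + 1) ((P.dat m).m (P.t m) - (j + 1)) (by omega) (by omega)
  have h2 : (P.dat m).m (P.t m) - ((P.dat m).m (P.t m) - (j + 1)) = j + 1 := by omega
  unfold TrJ.Data.T at h1
  rw [h2] at h1
  have hK : (P.dat m).σ * (P.dat m).c ^ ((P.t m : ℤ) - ((P.dat m).m (P.t m) - (j + 1) : ℕ)) ≠ 0 :=
    mul_ne_zero (P.dat m).σ_ne (zpow_ne_zero _ (P.dat m).hc)
  have hkap : P.kap m j *
      ((P.dat m).σ * (P.dat m).c ^ ((P.t m : ℤ) - ((P.dat m).m (P.t m) - (j + 1) : ℕ))) = 1 := by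
    unfold Par.kap
    rw [← hcm]
    exact inv_mul_cancel₀ hK
  have key : (P.dat m).M (P.t m) (i + 1) (j + 1) =
      ∑ l ∈ Finset.Icc 1 (P.t m), ((P.dat m).xl (P.t m) l).coeff (i + 1) *
        (y0 l ((P.dat m).m (P.t m) - (j + 1)) * P.kap m j) -
      if i + j + 2 = (P.dat m).m (P.t m) then P.kap m j else 0 := by
    have h4 : ∑ l ∈ Finset.Icc 1 (P.t m), ((P.dat m).xl (P.t m) l).coeff (i + 1) *
        (y0 l ((P.dat m).m (P.t m) - (j + 1)) * P.kap m j) = P.kap m j *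
        ∑ l ∈ Finset.Icc 1 (P.t m), ((P.dat m).xl (P.t m) l).coeff (i + 1) *
          y0 l ((P.dat m).m (P.t m) - (j + 1)) := by
      rw [Finset.mul_sum]
      exact Finset.sum_congr rfl fun l _ => by ring
    rw [h4, ← h1]
    by_cases h5 : i + j + 2 = (P.dat m).m (P.t m)
    · rw [if_pos h5, if_pos (by omega)]
      linear_combination -(P.dat m).M (P.t m) (i + 1) (j + 1) * hkap
    · rw [if_neg h5, if_neg (by omega)]
      linear_combination -(P.dat m).M (P.t m) (i + 1) (j + 1) * hkap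
  rw [key]
  push_cast
  congr 1
  split_ifs
  · rfl
  · exact Rat.cast_zero

end GH.LM
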