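import Pool.Agent.GH.LM.Stm
import Pool.Agent.GH.MatU.GaussDiv
import Pool.Agent.GH.M7.LC

/-!
# GH-LM, row GH-LM-10: the leading minors
-/

open Polynomial

noncomputable section

namespace GH.LM

namespace Par

variable {p : ℕ} [Fact p.Prime] (P : Par p)

theorem ld_sum_Icc {K : Type*} [AddCommMonoid K] (t : ℕ) (f : ℕ → K) :
    ∑ l ∈ Finset.Icc 1 t, f l = ∑ l : Fin t, f (l + 1) := by
  rw [← Finset.sum_range (fun l => f (l + 1))]
  rw [show Finset.Icc 1 t = Finset.Ico 1 (t + 1) from rfl, Finset.sum_Ico_eq_sum_range]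
  refine Finset.sum_congr (by simp) fun l _ => ?_
  rw [add_comm]

theorem ld_p0 : (p : ℝ) ≠ 0 := by
  exact_mod_cast (Fact.out : p.Prime).ne_zero

/-- The norm of a difference. -/
theorem ld_norm {m0 : ℤ} {m : ℕ} (h : (m : ℤ) ≠ m0) : ‖(m0 : ℤ_[p]) - (m : ℤ_[p])‖ =
    (p : ℝ) ^ (-(padicValInt p (m0 - m) : ℤ)) := by
  have h1 : (m0 : ℤ_[p]) - (m : ℤ_[p]) = ((m0 - m : ℤ) : ℤ_[p]) := by push_cast; ring
  have h0 : m0 - m ≠ 0 := by omega
  rw [h1, PadicInt.norm_def, PadicInt.coe_intCast]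
  have h2 : (((m0 - m : ℤ)) : ℚ_[p]) = ((((m0 - m : ℤ)) : ℚ) : ℚ_[p]) := by
    push_cast; ring
  rw [h2, Padic.eq_padicNorm, padicNorm.eq_zpow_of_nonzero (by exact_mod_cast h0),
    padicValRat.of_int]
  push_cast
  rfl

/-- The product without the point `m0`. -/
def ldZ (n : ℕ) (m0 : ℤ) : Zy p :=
  ∏ m ∈ (Finset.range (P.Z n)).filter (fun m : ℕ => (m : ℤ) ≠ m0),
    (X - C (m : ℤ_[p])) ^ P.T n m

theorem ld_supp (hn : P.Num) {n m : ℕ} (h : P.Z n ≤ m) : P.T n m = 0 := by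
  unfold Z at h
  have := hn.tm n m h
  unfold T
  omega

theorem ld_split (hn : P.Num) (n m0 : ℕ) :
    ∏ m ∈ Finset.range (P.Z n), (X - C (m : ℤ_[p])) ^ P.T n m =
      (X - C (m0 : ℤ_[p])) ^ P.T n m0 * P.ldZ n (m0 : ℤ) := by
  unfold ldZ
  have h1 : (Finset.range (P.Z n)).filter (fun m : ℕ => (m : ℤ) ≠ (m0 : ℤ)) =
      (Finset.range (P.Z n)).erase m0 := by
    ext m
    rw [Finset.mem_filter, Finset.mem_erase]
    constructor
    · rintro ⟨h, h'⟩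
      exact ⟨fun e => h' (by rw [e]), h⟩
    · rintro ⟨h, h'⟩
      exact ⟨h', fun e => h (by exact_mod_cast e)⟩
  rw [h1]
  by_cases h : m0 ∈ Finset.range (P.Z n)
  · exact (Finset.mul_prod_erase _ _ h).symm
  · rw [Finset.mem_range, not_lt] at h
    rw [P.ld_supp hn h, pow_zero, one_mul, Finset.erase_eq_of_notMem]
    rw [Finset.mem_range]
    omega

theorem ld_filt {n : ℕ} {m0 : ℤ} (h : ∀ m : ℕ, m0 = (m : ℤ) → P.T n m = 0) :
    ∏ m ∈ Finset.range (P.Z n), (X - C (m : ℤ_[p])) ^ P.T n m = P.ldZ n m0 := by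
  unfold ldZ
  symm
  refine Finset.prod_subset (Finset.filter_subset _ _) fun m hm hm2 => ?_
  have h1 : (m : ℤ) = m0 := by
    by_contra h5
    exact hm2 (Finset.mem_filter.2 ⟨hm, h5⟩)
  rw [h m h1.symm, pow_zero]

theorem ld_p : ‖((p : ℕ) : ℤ_[p])‖ = (p : ℝ) ^ (-1 : ℤ) := by
  rw [PadicInt.norm_p (p := p), zpow_neg_one]

/-- The value of the product at a point. -/
theorem ld_val (n : ℕ) (m0 : ℤ) (u : Zy p) :
    ‖(C (((p : ℕ) : ℤ_[p]) ^ P.B n) * u * P.ldZ n m0).eval (m0 : ℤ_[p])‖ =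
      (p : ℝ) ^ (-(P.FF n m0 : ℤ)) * ‖u.eval (m0 : ℤ_[p])‖ := by
  have h0 : (p : ℝ) ≠ 0 := ld_p0
  have h1 : ∀ m ∈ (Finset.range (P.Z n)).filter (fun m : ℕ => (m : ℤ) ≠ m0),
      ‖((m0 : ℤ_[p]) - (m : ℤ_[p])) ^ P.T n m‖ =
      (p : ℝ) ^ (-((P.T n m * padicValInt p (m0 - m) : ℕ) : ℤ)) := by
    intro m hm
    have h := (Finset.mem_filter.1 hm).2
    rw [norm_pow, ld_norm h, ← zpow_natCast, ← zpow_mul]
    congr 1
    push_cast
    ring
  have hp : ∀ (s : Finset ℕ) (f : ℕ → ℕ), ∏ m ∈ s, (p : ℝ) ^ (-((f m : ℕ) : ℤ)) =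
      (p : ℝ) ^ (-((∑ m ∈ s, f m : ℕ) : ℤ)) := by
    intro s f
    simp only [zpow_neg, zpow_natCast]
    rw [Finset.prod_inv_distrib, Finset.prod_pow_eq_pow_sum]
  have h3 : ∑ m ∈ (Finset.range (P.Z n)).filter (fun m : ℕ => (m : ℤ) ≠ m0),
      P.T n m * padicValInt p (m0 - m) =
      ∑ m ∈ Finset.range (P.Z n), P.T n m * padicValInt p (m0 - m) := by
    refine Finset.sum_subset (Finset.filter_subset _ _) fun m hm hm2 => ?_
    have h4 : (m : ℤ) = m0 := by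
      by_contra h5
      exact hm2 (Finset.mem_filter.2 ⟨hm, h5⟩)
    rw [h4, sub_self]
    simp
  unfold ldZ
  rw [eval_mul, eval_mul, eval_C, eval_prod, norm_mul, norm_mul, norm_prod]
  simp only [eval_pow, eval_sub, eval_X, eval_C]
  rw [Finset.prod_congr rfl h1, norm_pow, ld_p, hp, h3, FF, ← zpow_natCast, ← zpow_mul,
    mul_right_comm, ← zpow_add₀ h0]
  congr 2
  push_cast
  ring

/-- The ring `ℤ_p[py]`. -/
def ldOk (F : Zy p) : Prop := ∀ k, ((p : ℕ) : ℤ_[p]) ^ k ∣ F.coeff k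

theorem ld_Ok_sub {u : Zy p} (h : ldOk u) :
    ∃ r : Zy p, u - C (u.coeff 0) = C ((p : ℕ) : ℤ_[p]) * r := by
  have h1 : C ((p : ℕ) : ℤ_[p]) ∣ u - C (u.coeff 0) := by
    rw [C_dvd_iff_dvd_coeff]
    intro k
    rw [coeff_sub, coeff_C]
    split_ifs with hk
    · rw [hk, sub_self]
      exact dvd_zero _
    · rw [sub_zero]
      exact (dvd_pow_self _ hk).trans (h k)
  exact h1

/-- All values of `u` are congruent to `u₀`. -/
theorem ld_unit_val {u : Zy p} (h : ldOk u) (x : ℤ_[p]) :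
    IsUnit (u.coeff 0) ↔ ‖u.eval x‖ = 1 := by
  obtain ⟨r, hr⟩ := ld_Ok_sub h
  have h1 : u.eval x = u.coeff 0 + ((p : ℕ) : ℤ_[p]) * r.eval x := by
    have h2 := congrArg (fun f : Zy p => f.eval x) hr
    simp only [eval_sub, eval_mul, eval_C] at h2
    rw [← h2]
    ring
  rw [← PadicInt.isUnit_iff, h1]
  have h3 : ((p : ℕ) : ℤ_[p]) * r.eval x ∈ IsLocalRing.maximalIdeal ℤ_[p] := by
    refine Ideal.mul_mem_right _ _ ?_
    exact (IsLocalRing.mem_maximalIdeal _).2 (PadicInt.p_nonunit (p := p))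
  constructor
  · intro hz
    by_contra h5
    have h6 : u.coeff 0 + ((p : ℕ) : ℤ_[p]) * r.eval x ∈ IsLocalRing.maximalIdeal ℤ_[p] := h5
    have h7 := (Ideal.add_mem_iff_left _ h3).1 h6
    exact h7 hz
  · intro hz
    by_contra h5
    have h6 : u.coeff 0 ∈ IsLocalRing.maximalIdeal ℤ_[p] := h5
    exact (Ideal.add_mem_iff_left _ h3).2 h6 hz

theorem ld_map (n : ℕ) : (Pot.lead P.PM n).map PadicInt.Coe.ringHom =
    Pot.lead (fun i j => (P.PM i j).map PadicInt.Coe.ringHom) n := by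
  unfold Pot.lead Pot.minor
  rw [← Polynomial.coe_mapRingHom, RingHom.map_det]
  rfl

/-- The shape of the leading minor. -/
def ldG (n : ℕ) (u : Zy p) : Prop :=
  ldOk u ∧ Pot.lead P.PM n = C (((p : ℕ) : ℤ_[p]) ^ P.B n) * u *
    ∏ m ∈ Finset.range (P.Z n), (X - C (m : ℤ_[p])) ^ P.T n m

theorem ld_exists (h1 : P.SpInt) (h2 : P.SpVan) (n : ℕ) : ∃ u, P.ldG n u := by
  have hok : ∀ k, ((p : ℕ) : ℤ_[p]) ^ k ∣ (Pot.lead P.PM n).coeff k := by
    intro k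
    obtain ⟨G, hG⟩ := h1 n
    rw [← hG, MatU.iot, coe_compRingHom_apply, comp_C_mul_X_coeff]
    exact Dvd.intro_left _ rfl
  obtain ⟨H, hH, hF⟩ := MatU.gauss_div (Pot.lead P.PM n) (P.T n) (P.Z n) hok
    (fun m _ => h2 n m)
  refine ⟨H, hH, ?_⟩
  rw [hF, B]
  ring

/-- The inductive step. -/
theorem ld_step (hN : P.Num) (h4 : P.SpJ) (h5 : P.KapProd) (h6 : P.Sym) {m n n' : ℕ}
    (hn : n' < n) (hm : n + n' + 1 = P.cen m) (ht : P.t m ≤ n') {u u' : Zy p}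
    (hu : P.ldG n u) (hu' : P.ldG n' u') (hv : IsUnit (u'.coeff 0)) : IsUnit (u.coeff 0) := by
  have hT : P.T n m = n' - P.t m := by
    unfold T
    omega
  have hT' : P.T n' m = n' - P.t m := by
    unfold T
    omega
  obtain ⟨y, hy⟩ := h4 m
  obtain ⟨a, ha⟩ : ∃ a : ℚ_[p], a = ((m : ℕ) : ℚ_[p]) := ⟨_, rfl⟩
  obtain ⟨q, q', s, hs, hq, hq', hqq⟩ := M7.spLC ℚ_[p]
    (fun i j => (P.PM i j).map PadicInt.Coe.ringHom) a n n' (P.t m)
    (fun i l => ((((P.dat m).xl (P.t m) (l + 1)).coeff (i + 1) : ℚ) : ℚ_[p]))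
    (fun l j => y (l + 1) j) (fun j => ((P.kap m j : ℚ) : ℚ_[p])) hn.le ht (by
      intro i j hi hj
      rw [ha, Polynomial.eval_natCast_map]
      have e2 := hy i j (by omega)
      have e3 : (PadicInt.Coe.ringHom ((P.PM i j).eval ((m : ℕ) : ℤ_[p])) : ℚ_[p]) =
          (((P.PM i j).eval ((m : ℕ) : ℤ_[p]) : ℤ_[p]) : ℚ_[p]) := rfl
      rw [e3, e2, ld_sum_Icc]
      congr 1
      by_cases hij : i + j + 1 = n + n'
      · rw [if_pos hij, if_pos (by omega)]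
      · rw [if_neg hij, if_neg (by omega)])
  have key : ∀ {k : ℕ} {w : Zy p} {Q : ℚ_[p][X]}, P.ldG k w → P.T k m = n' - P.t m →
      Pot.lead (fun i j => (P.PM i j).map (PadicInt.Coe.ringHom (p := p))) k =
        (X - C a) ^ (n' - P.t m) * Q →
      ‖Q.eval a‖ = (p : ℝ) ^ (-(P.FF k m : ℤ)) * ‖w.eval ((m : ℤ) : ℤ_[p])‖ := by
    intro k w Q hw hTk hQ
    have e1 := hw.2
    rw [P.ld_split hN k m, hTk] at e1
    have e2 : (Pot.lead P.PM k).map (PadicInt.Coe.ringHom (p := p)) =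
        (X - C a) ^ (n' - P.t m) *
          (C (((p : ℕ) : ℤ_[p]) ^ P.B k) * w * P.ldZ k (m : ℤ)).map
            PadicInt.Coe.ringHom := by
      have hmc : (C ((m : ℕ) : ℤ_[p])).map (PadicInt.Coe.ringHom (p := p)) = C a := by
        rw [map_C, map_natCast, ha]
      rw [e1]
      simp only [Polynomial.map_mul, Polynomial.map_pow, Polynomial.map_sub, map_X]
      rw [hmc]
      ring
    rw [ld_map, hQ] at e2
    have e3 := mul_left_cancel₀ (pow_ne_zero _ (X_sub_C_ne_zero a)) e2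
    rw [← ld_val, e3, ha, Polynomial.eval_natCast_map, Int.cast_natCast]
    rfl
  have n1 := key hu hT hq
  have n2 := key hu' hT' hq'
  have hs1 : ‖s‖ = 1 := by
    have := congrArg norm hs
    rw [norm_pow, norm_one] at this
    exact (pow_eq_one_iff_of_nonneg (norm_nonneg _) (by norm_num)).1 this
  rw [hqq, norm_mul, norm_mul, hs1, one_mul, h5 m n n' hn.le hm, n2,
    (ld_unit_val hu'.1 _).1 hv, mul_one, h6 m n n' hn.le hm ht] at n1
  have h0 : (p : ℝ) ≠ 0 := ld_p0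
  rw [← zpow_add₀ h0] at n1
  have n3 : (p : ℝ) ^ (-(((n - n') * P.s m + P.FF n' m : ℕ) : ℤ)) ≠ 0 :=
    zpow_ne_zero _ h0
  have n4 : -(((n - n') * P.s m : ℕ) : ℤ) + -(P.FF n' m : ℤ) =
      -(((n - n') * P.s m + P.FF n' m : ℕ) : ℤ) := by
    push_cast
    ring
  rw [n4] at n1
  refine (ld_unit_val hu.1 ((m : ℤ) : ℤ_[p])).2 ?_
  exact (mul_left_cancel₀ n3 (by rw [mul_one]; exact n1)).symm

/-- From one value. -/
theorem ld_one {n : ℕ} (m0 : ℤ) (hT : ∀ m : ℕ, m0 = (m : ℤ) → P.T n m = 0) {u : Zy p}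
    (hu : P.ldG n u)
    (hv : ‖(Pot.lead P.PM n).eval (m0 : ℤ_[p])‖ = (p : ℝ) ^ (-(P.FF n m0 : ℤ))) :
    IsUnit (u.coeff 0) := by
  have e1 := hu.2
  rw [P.ld_filt hT] at e1
  rw [e1, ld_val] at hv
  have h0 : (p : ℝ) ^ (-(P.FF n m0 : ℤ)) ≠ 0 := zpow_ne_zero _ ld_p0
  exact (ld_unit_val hu.1 _).2 (mul_left_cancel₀ h0 (by rw [hv, mul_one]))

end Par

variable {p : ℕ} [Fact p.Prime] (P : Par p)

/-- R15: the leading minors. -/
theorem spLead (hn : P.Num) (h1 : P.SpInt) (h2 : P.SpVan) (h4 : P.SpJ) (h5 : P.KapProd)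
    (h6 : P.Sym) (hb : P.Base) : P.SpLead := by
  have main : ∀ n (u : Zy p), P.ldG n u → IsUnit (u.coeff 0) := by
    intro n
    induction n using Nat.strong_induction_on with
    | _ n ih =>
      intro u hu
      rcases Nat.eq_zero_or_pos n with h0 | h0
      · subst h0
        have e1 := hu.2
        have e0 : ∀ m, P.T 0 m = 0 := by
          intro m
          unfold Par.T
          omega
        have e2 : P.B 0 = 0 := by
          unfold Par.B
          exact Finset.sum_eq_zero fun m _ => e0 m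
        have e3 : ∏ m ∈ Finset.range (P.Z 0), (X - C (m : ℤ_[p])) ^ P.T 0 m = 1 := by
          refine Finset.prod_eq_one fun m _ => ?_
          rw [e0 m, pow_zero]
        have e4 : Pot.lead P.PM 0 = 1 := by
          rw [Pot.lead, Pot.minor, Matrix.det_fin_zero]
        rw [e4, e2, e3, pow_zero, map_one, one_mul, mul_one] at e1
        rw [← e1, coeff_one_zero]
        exact isUnit_one
      rcases hb n h0 with ⟨m, n', hn', hm, ht⟩ | ⟨m0, hT, hv⟩
      · obtain ⟨u', hu'⟩ := P.ld_exists h1 h2 n'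
        exact P.ld_step hn h4 h5 h6 hn' hm ht hu hu' (ih n' hn' u' hu')
      · exact P.ld_one m0 hT hu hv
  intro n
  obtain ⟨u, hu⟩ := P.ld_exists h1 h2 n
  have hv := main n u hu
  obtain ⟨r, hr⟩ := Par.ld_Ok_sub hu.1
  refine ⟨u, hv.unit, ?_, hu.2⟩
  rw [IsUnit.unit_spec]
  exact ⟨r, hr⟩

end GH.LM
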