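import Pool.Agent.GH.LM.Stm
import Pool.Agent.GH.Pot.Gv

/-!
# GH-LM: the input of GH-POT on the branch of `a`
-/

noncomputable section

namespace GH.LM

variable {p : ℕ} [Fact p.Prime] (P : Par p)

theorem ma_ne (k : ℕ) : (Polynomial.C ((p : ℤ_[p]) ^ k) : Zy p) ≠ 0 := by
  rw [Ne, Polynomial.C_eq_zero]
  exact pow_ne_zero _ PadicInt.prime_p.ne_zero

theorem ma_not_dvd (u : Zy p) (z : (ℤ_[p])ˣ)
    (hu : Polynomial.C ((p : ℕ) : ℤ_[p]) ∣ u - Polynomial.C (z : ℤ_[p])) (Z : ℕ) (T : ℕ → ℕ) :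
    ¬ Polynomial.C ((p : ℕ) : ℤ_[p]) ∣ u *
      ∏ m ∈ Finset.range Z, (Polynomial.X - Polynomial.C (m : ℤ_[p])) ^ T m := by
  intro h
  have hp : Prime (Polynomial.C ((p : ℕ) : ℤ_[p]) : Zy p) := Pot.prime_C
  rcases hp.dvd_or_dvd h with h1 | h1
  · have h2 : Polynomial.C ((p : ℕ) : ℤ_[p]) ∣ (Polynomial.C (z : ℤ_[p]) : Zy p) := by
      have h3 := dvd_sub h1 hu
      rwa [sub_sub_cancel] at h3
    rw [Polynomial.C_dvd_iff_dvd_coeff] at h2
    have h3 := h2 0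
    rw [Polynomial.coeff_C_zero] at h3
    exact PadicInt.prime_p.not_isUnit (isUnit_of_dvd_unit h3 z.isUnit)
  · have h2 : (∏ m ∈ Finset.range Z,
        (Polynomial.X - Polynomial.C (m : ℤ_[p])) ^ T m : Zy p).Monic :=
      Polynomial.monic_prod_of_monic _ _ fun m _ => (Polynomial.monic_X_sub_C _).pow _
    rw [Polynomial.C_dvd_iff_dvd_coeff] at h1
    have h3 := h1 (∏ m ∈ Finset.range Z,
        (Polynomial.X - Polynomial.C (m : ℤ_[p])) ^ T m : Zy p).natDegree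
    rw [Polynomial.coeff_natDegree, h2.leadingCoeff] at h3
    exact PadicInt.prime_p.not_isUnit (isUnit_of_dvd_one h3)

theorem ldN_PM (hL : P.SpLead) : P.LdN P.PM := by
  intro n
  obtain ⟨u, z, hu, hn⟩ := hL n
  rw [hn]
  refine ⟨by rw [mul_assoc]; exact dvd_mul_right _ _, fun h => ?_⟩
  refine ma_not_dvd u z hu (P.Z n) (P.T n) ?_
  rw [mul_assoc, pow_succ, Polynomial.C_mul] at h
  exact (mul_dvd_mul_iff_left (ma_ne (P.B n))).1 h

theorem ldN_NA (hL : P.SpLead) (hA : P.SpLdA) (a : ℕ) : P.LdN (P.NA a) := by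
  intro n
  rw [hA a n]
  exact ldN_PM P hL n

theorem ma_lead (hS : P.SpScale) {ε : ℕ} (hε : ε ≤ 1) (a n : ℕ) :
    Pot.lead (P.NS ε a) n = Pot.lead (P.NA a) n :=
  mul_left_cancel₀ (ma_ne _) (hS ε hε a n _ _)

theorem spMatA (hL : P.SpLead) (hA : P.SpLdA) (hS : P.SpScale) (hN : P.SpNA) (hR : P.RootN)
    (hC : P.SpCor) : P.SpMatA := by
  intro ε hε a
  refine ⟨fun n => ?_, fun n b b' => ?_, fun m hm _ => hC ε hε a m hm⟩
  · obtain ⟨u, z, hu, hn⟩ := hL n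
    exact ⟨u, z, hu, by rw [ma_lead P hS hε, hA, hn]⟩
  · rw [Pot.le_gv_iff]
    refine Pot.gv_dvd_comp ?_ _
    have h1 := (hR (P.NA a) (hN.1 a) (ldN_NA P hL hA a)).1 ε hε n b b'
    rw [← hS ε hε a n b b', add_comm (P.B n), pow_add, Polynomial.C_mul] at h1
    exact (mul_dvd_mul_iff_left (ma_ne _)).1 h1

end GH.LM
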