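import Pool.Agent.GH.LM.Stm

/-!
# GH-LM-3: the matrix `N_a`, its leading minors, the scaled matrix
-/

set_option autoImplicit false

open PowerSeries

noncomputable section

namespace GH.LM

variable {p : ℕ} [Fact p.Prime] (P : Par p)

private theorem na_Irt {F : Zy p} {k : ℕ} (h : F ∈ MatU.Irt p k) :
    Polynomial.C ((p : ℤ_[p]) ^ k) ∣ F := by
  have h1 := MatU.mem_Ipw.1 h
  rwa [← map_pow] at h1

private theorem na_shf {k a : ℕ} {F : Zy p} (h : Polynomial.C ((p : ℤ_[p]) ^ k) ∣ F) :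
    Polynomial.C ((p : ℤ_[p]) ^ k) ∣ Par.shf a F := by
  obtain ⟨G, rfl⟩ := h
  unfold Par.shf
  rw [Polynomial.mul_comp, Polynomial.C_comp]
  exact dvd_mul_right _ _

/-- R4 -/
theorem spNA (hn : P.Num) (hg : P.Gr) : P.SpNA := by
  have hd := hn.d0
  refine ⟨fun a i j k hk => ?_, fun a i j h => ?_, fun i j => ?_⟩
  · have hF : MatU.GrS P.d P.D (P.F * P.Tv ^ a) := by
      have h1 := hg.F.mul hd ((hg.Tv.pow hd a).grS hd 0)
      rwa [add_zero] at h1
    exact na_shf (na_Irt (MatU.NQ_rt hd hn.Tv0 hg.Tv hn.S0 hg.S hF le_rfl hk))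
  · show Par.shf a _ = 0
    rw [MatU.NQ_of_lt h]
    exact Polynomial.zero_comp
  · have h1 := MatU.NQ_int (F := P.F * P.Tv ^ 0) hd hn.Tv0 hg.Tv hn.S0 hg.S (le_refl (i + 1))
      (j + 1)
    have h2 : P.NA 0 i j = MatU.NQ p P.Tv P.S (P.F * P.Tv ^ 0) (i + 1) (i + 1) (j + 1) := by
      show Par.shf 0 _ = _
      unfold Par.shf
      rw [Nat.cast_zero, map_zero, sub_zero, Polynomial.comp_X]
    rw [h2]
    exact h1

/-- R5 -/
theorem spLdA (hw : P.SpWN) : P.SpLdA := by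
  intro a n
  obtain ⟨h0, -, h1, -⟩ := hw a
  have h3 : (Matrix.of fun i j : Fin n ↦ P.PM (i : ℕ) (j : ℕ)) =
      (Matrix.of fun i l : Fin n ↦ if (l : ℕ) ≤ i then P.WA a ((i : ℕ) - l) else 0) *
        (Matrix.of fun i j : Fin n ↦ P.NA a (i : ℕ) (j : ℕ)) := by
    ext1 i j
    rw [Matrix.mul_apply]
    simp only [Matrix.of_apply]
    rw [h1 i j, Fin.sum_univ_eq_sum_range (fun l ↦ (if l ≤ (i : ℕ) then
      P.WA a ((i : ℕ) - l) else 0) * P.NA a l (j : ℕ)) n]
    symm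
    rw [← Finset.sum_subset (Finset.range_subset_range.2 (Nat.succ_le_of_lt i.2))]
    · apply Finset.sum_congr rfl
      intro l hl
      rw [if_pos (Nat.lt_succ_iff.1 (Finset.mem_range.1 hl))]
    · intro l _ hl
      rw [if_neg (fun h ↦ hl (Finset.mem_range.2 (Nat.lt_succ_iff.2 h))), zero_mul]
  have h4 : (Matrix.of fun i l : Fin n ↦
      if (l : ℕ) ≤ i then P.WA a ((i : ℕ) - l) else 0).det = 1 := by
    rw [Matrix.det_of_isLowerTriangular]
    · apply Finset.prod_eq_one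
      intro i _
      rw [Matrix.of_apply, if_pos le_rfl, Nat.sub_self, h0]
    · intro i j hij
      rw [Matrix.of_apply, if_neg]
      have h5 : i < j := hij
      exact not_le.2 h5
  unfold Pot.lead Pot.minor
  rw [h3, Matrix.det_mul, h4, one_mul]

/-- R6 -/
theorem spNS (hr : P.RootN) (hN : P.SpNA) (hL : ∀ a, P.LdN (P.NA a)) : P.SpNS := by
  intro ε hε a i j
  have hex : ∃ Q : Zy p, Polynomial.C ((p : ℤ_[p]) ^ P.gm ε i) * Q =
      Polynomial.C ((p : ℤ_[p]) ^ P.gm ε j) * P.NA a i j := by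
    have h1 := (hr (P.NA a) (hN.1 a) (hL a)).1 ε hε 1 (fun _ => i) (fun _ => j)
    have h2 : Pot.minor (P.NA a) (fun _ : Fin 1 => i) (fun _ : Fin 1 => j) = P.NA a i j := by
      unfold Pot.minor
      rw [Matrix.det_fin_one]
      rfl
    rw [h2, Fin.sum_univ_one, Fin.sum_univ_one, pow_add, map_mul] at h1
    obtain ⟨Q, hQ⟩ := (Dvd.intro_left _ rfl).trans h1
    exact ⟨Q, hQ.symm⟩
  unfold Par.NS
  rw [dif_pos hex]
  exact hex.choose_spec

/-- R7 -/
theorem spScale (h : P.SpNS) : P.SpScale := by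
  intro ε hε a n b b'
  have h1 := Matrix.det_mul_column
    (fun i => (Polynomial.C ((p : ℤ_[p]) ^ P.gm ε (b i)) : Zy p))
    (Matrix.of fun i j => P.NS ε a (b i) (b' j))
  have h2 := Matrix.det_mul_row
    (fun j => (Polynomial.C ((p : ℤ_[p]) ^ P.gm ε (b' j)) : Zy p))
    (Matrix.of fun i j => P.NA a (b i) (b' j))
  have h3 : (Matrix.of fun i j => Polynomial.C ((p : ℤ_[p]) ^ P.gm ε (b i)) *
      (Matrix.of fun i j => P.NS ε a (b i) (b' j)) i j) =
      (Matrix.of fun i j => Polynomial.C ((p : ℤ_[p]) ^ P.gm ε (b' j)) *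
      (Matrix.of fun i j => P.NA a (b i) (b' j)) i j) :=
    Matrix.ext fun i j => h ε hε a (b i) (b' j)
  rw [h3, h2] at h1
  unfold Pot.minor
  rw [← Finset.prod_pow_eq_pow_sum, ← Finset.prod_pow_eq_pow_sum, map_prod, map_prod]
  exact h1.symm

end GH.LM
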