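import Pool.Agent.GH.LM.Stm
import Pool.Agent.GH.Cen3.NPr
import Pool.Agent.GH.Pot.GBranch

/-!
# GH-LM-14: the Newton polygon
-/

open Filter Topology

noncomputable section

namespace GH.LM

variable {p : ℕ} [Fact p.Prime]

private theorem np_iota (z : ℤ_[p]) : ‖Par.iota p z‖ = ‖z‖ := by
  unfold Par.iota
  rw [RingHom.comp_apply, norm_algebraMap']
  exact PadicInt.norm_def.symm

private theorem np_norm_p : ‖Par.iota p (p : ℤ_[p])‖ = (p : ℝ)⁻¹ := by
  rw [np_iota, PadicInt.norm_p]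

private theorem np_minor {S K : Type*} [CommRing S] [CommRing K] (φ : S →+* K) (y : K)
    (M : ℕ → ℕ → Polynomial S) {n : ℕ} (a b : Fin n → ℕ) :
    (Pot.minor M a b).eval₂ φ y =
      (Matrix.of fun i j ↦ (M (a i) (b j)).eval₂ φ y).det := by
  unfold Pot.minor
  rw [← Polynomial.coe_eval₂RingHom, RingHom.map_det]
  rfl

private theorem np_eval_le (Q : Zy p) {y : PadicComplex p} (hy : ‖y‖ ≤ 1) :
    ‖Q.eval₂ (Par.iota p) y‖ ≤ 1 := by
  rw [Polynomial.eval₂_eq_sum_range]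
  refine ud_sum_le _ _ zero_le_one fun i _ ↦ ?_
  rw [norm_mul, norm_pow, np_iota]
  exact mul_le_one₀ (PadicInt.norm_le_one _) (by positivity) (pow_le_one₀ (norm_nonneg _) hy)

/-- diagonal change of basis with arbitrary weights -/
private theorem np_scale {K : Type*} [Field K] (C C' : ℕ → ℕ → K) (r : ℕ → K)
    (hr : ∀ i, r i ≠ 0)
    (h : ∀ i j, C (i + 1) (j + 1) = r i * C' (i + 1) (j + 1) * (r j)⁻¹) (N m : ℕ) :
    fredBlock C N m = fredBlock C' N m := by
  unfold fredBlock Matrix.charpolyRev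
  set P : Matrix (Fin N) (Fin N) (Polynomial K) :=
    Matrix.diagonal fun i ↦ Polynomial.C (r i) with hP
  set Q : Matrix (Fin N) (Fin N) (Polynomial K) :=
    Matrix.diagonal fun i ↦ Polynomial.C ((r i)⁻¹) with hQ
  have hPQ : P * Q = 1 := by
    rw [hP, hQ, Matrix.diagonal_mul_diagonal, ← Matrix.diagonal_one]
    congr 1
    funext i
    rw [← Polynomial.C_mul, mul_inv_cancel₀ (hr i), Polynomial.C_1]
  have hdet : P.det * Q.det = 1 := by rw [← Matrix.det_mul, hPQ, Matrix.det_one]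
  have hM : (1 - (Polynomial.X : Polynomial K) •
      (Matrix.of fun i j : Fin N ↦ C (i + 1) (j + 1)).map Polynomial.C) =
      P * (1 - (Polynomial.X : Polynomial K) •
      (Matrix.of fun i j : Fin N ↦ C' (i + 1) (j + 1)).map Polynomial.C) * Q := by
    rw [mul_sub, sub_mul, mul_one, hPQ]
    congr 1
    ext1 i j
    simp only [hP, hQ, Matrix.mul_smul, Matrix.smul_apply,
      Matrix.mul_diagonal, Matrix.diagonal_mul, Matrix.map_apply, Matrix.of_apply, smul_eq_mul,
      ← Polynomial.C_mul, h, mul_assoc]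
  rw [hM, Matrix.det_mul, Matrix.det_mul, mul_right_comm, hdet, one_mul]

/-- principal minors do not change -/
private theorem np_det {K : Type*} [Field K] (C C' : ℕ → ℕ → K) (r : ℕ → K)
    (hr : ∀ i, r i ≠ 0) (h : ∀ i j, C i j = r i * C' i j * (r j)⁻¹) {n : ℕ} (a : Fin n → ℕ) :
    (Matrix.of fun i j : Fin n ↦ C (a i) (a j)).det =
      (Matrix.of fun i j : Fin n ↦ C' (a i) (a j)).det := by
  set P : Matrix (Fin n) (Fin n) K := Matrix.diagonal fun i ↦ r (a i) with hP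
  set Q : Matrix (Fin n) (Fin n) K := Matrix.diagonal fun i ↦ (r (a i))⁻¹ with hQ
  have hPQ : P * Q = 1 := by
    rw [hP, hQ, Matrix.diagonal_mul_diagonal, ← Matrix.diagonal_one]
    congr 1
    funext i
    exact mul_inv_cancel₀ (hr _)
  have hdet : P.det * Q.det = 1 := by rw [← Matrix.det_mul, hPQ, Matrix.det_one]
  have hM : (Matrix.of fun i j : Fin n ↦ C (a i) (a j)) =
      P * (Matrix.of fun i j : Fin n ↦ C' (a i) (a j)) * Q := by
    ext i j
    simp only [hP, hQ, Matrix.mul_diagonal, Matrix.diagonal_mul, Matrix.of_apply, h]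
  rw [hM, Matrix.det_mul, Matrix.det_mul, mul_right_comm, hdet, one_mul]

variable (P : Par p)

theorem spNP (hn : P.Num) (hC : P.Comb) (hL : P.SpLead) (hN : P.SpNode) (hc : P.SpCol) :
    P.SpNP := by
  intro y hy
  have hd : 0 < P.d := hn.d0
  have hφ : ∀ z : ℤ_[p], ‖Par.iota p z‖ = ‖z‖ := np_iota
  have hp1 : 1 < p := (Fact.out : p.Prime).one_lt
  have hp0 : (0 : ℝ) < p := by exact_mod_cast (zero_lt_one.trans hp1)
  have hp1' : (p : ℝ)⁻¹ < 1 := inv_lt_one_of_one_lt₀ (by exact_mod_cast hp1)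
  set π : PadicComplex p := Par.iota p (p : ℤ_[p]) with hπ
  have hπn : ‖π‖ = (p : ℝ)⁻¹ := np_norm_p
  have hπ0 : π ≠ 0 := by
    intro h
    rw [h, norm_zero] at hπn
    exact absurd hπn (by positivity)
  obtain ⟨K, hK⟩ := hc
  -- the scaled matrix
  set C : ℕ → ℕ → PadicComplex p := fun i j ↦
    (π ^ ((i - 1) / P.d))⁻¹ * (P.PM (i - 1) (j - 1)).eval₂ (Par.iota p) y * π ^ ((j - 1) / P.d)
    with hCdef
  have hC1 : ∀ i j, C (i + 1) (j + 1) =
      (π ^ (i / P.d))⁻¹ * (P.PM i j).eval₂ (Par.iota p) y * π ^ (j / P.d) := by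
    intro i j
    rw [hCdef]
    simp only [Nat.add_sub_cancel]
  clear_value C
  have hE : ∀ i j, P.MatE y (i + 1) (j + 1) = (P.PM i j).eval₂ (Par.iota p) y := fun i j ↦ by
    unfold Par.MatE
    simp only [Nat.add_sub_cancel]
  have hr0 : ∀ i, π ^ (i / P.d) ≠ 0 := fun i ↦ pow_ne_zero _ hπ0
  have hEC : ∀ i j, (P.PM i j).eval₂ (Par.iota p) y =
      π ^ (i / P.d) * C (i + 1) (j + 1) * (π ^ (j / P.d))⁻¹ := by
    intro i j
    rw [hC1]
    field_simp
  have hfred : fred (P.MatE y) = fred C := by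
    funext m
    unfold fred
    congr 1
    funext N
    refine np_scale (P.MatE y) C (fun i ↦ π ^ (i / P.d)) hr0 (fun i j ↦ ?_) N m
    rw [hE, hEC]
  -- the columns
  have hcpt : Cpt (fun _ ↦ 1) (fun j ↦ (p : ℝ) ^ K * (p : ℝ)⁻¹ ^ (j / (2 * P.d))) (sh C) := by
    refine ⟨fun _ ↦ one_pos, ?_, fun i j ↦ ?_⟩
    · rw [Nat.cofinite_eq_atTop]
      have h1 : Tendsto (fun j : ℕ ↦ j / (2 * P.d)) atTop atTop := by
        refine tendsto_atTop.2 fun b ↦ ?_
        filter_upwards [eventually_ge_atTop (b * (2 * P.d))] with j hj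
        exact (Nat.le_div_iff_mul_le (by positivity)).2 hj
      have h2 := ((tendsto_pow_atTop_nhds_zero_of_lt_one (by positivity) hp1').comp h1).const_mul
        ((p : ℝ) ^ K)
      rw [mul_zero] at h2
      exact h2
    · rw [one_mul, one_mul]
      show ‖C (i + 1) (j + 1)‖ ≤ _
      obtain ⟨Q, hQ⟩ := hK i j
      have h1 : π ^ (K + j / P.d) * (P.PM i j).eval₂ (Par.iota p) y =
          π ^ (i / P.d + j / (2 * P.d)) * Q.eval₂ (Par.iota p) y := by
        have h5 : (Polynomial.C ((p : ℤ_[p]) ^ (K + j / P.d)) * P.PM i j).eval₂ (Par.iota p) y =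
            (Polynomial.C ((p : ℤ_[p]) ^ (i / P.d + j / (2 * P.d))) * Q).eval₂ (Par.iota p) y := by
          rw [hQ]
        rw [Polynomial.eval₂_mul, Polynomial.eval₂_mul, Polynomial.eval₂_C, Polynomial.eval₂_C,
          map_pow, map_pow] at h5
        exact h5
      have h2 : π ^ K * C (i + 1) (j + 1) = π ^ (j / (2 * P.d)) * Q.eval₂ (Par.iota p) y := by
        rw [hC1]
        have h3 : π ^ (i / P.d) * (π ^ K * ((π ^ (i / P.d))⁻¹ *
            (P.PM i j).eval₂ (Par.iota p) y * π ^ (j / P.d))) =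
            π ^ (i / P.d) * (π ^ (j / (2 * P.d)) * Q.eval₂ (Par.iota p) y) := by
          rw [← mul_assoc (π ^ (i / P.d)) (π ^ (j / (2 * P.d))), ← pow_add, ← h1, pow_add]
          field_simp
        exact mul_left_cancel₀ (hr0 i) h3
      have h3 : (p : ℝ)⁻¹ ^ K * ‖C (i + 1) (j + 1)‖ ≤ (p : ℝ)⁻¹ ^ (j / (2 * P.d)) := by
        have h4 := congrArg norm h2
        rw [norm_mul, norm_mul, norm_pow, norm_pow, hπn] at h4
        rw [h4]
        calc (p : ℝ)⁻¹ ^ (j / (2 * P.d)) * ‖Q.eval₂ (Par.iota p) y‖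
            ≤ (p : ℝ)⁻¹ ^ (j / (2 * P.d)) * 1 :=
              mul_le_mul_of_nonneg_left (np_eval_le Q hy) (by positivity)
          _ = _ := mul_one _
      calc ‖C (i + 1) (j + 1)‖ = (p : ℝ) ^ K * ((p : ℝ)⁻¹ ^ K * ‖C (i + 1) (j + 1)‖) := by
            rw [← mul_assoc, ← mul_pow, mul_inv_cancel₀ hp0.ne', one_pow, one_mul]
        _ ≤ _ := mul_le_mul_of_nonneg_left h3 (by positivity)
  have hmin : ∀ {n : ℕ} (a : Fin n → ℕ),
      (Matrix.of fun i j : Fin n ↦ C (a i + 1) (a j + 1)).det =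
        (Pot.minor P.PM a a).eval₂ (Par.iota p) y := by
    intro n a
    rw [np_minor]
    exact (np_det (fun i j ↦ (P.PM i j).eval₂ (Par.iota p) y) (fun i j ↦ C (i + 1) (j + 1))
      (fun i ↦ π ^ (i / P.d)) hr0 hEC a).symm
  obtain ⟨h, hcomb, hroot⟩ := hC
  have hNd := hN h hcomb hroot
  rw [hfred]
  refine Cen3.newtonPolygon_fred_pr hp1 hcpt _ (fun n ↦ ?_) ?_ ?_
  · exact (hmin fun i : Fin n ↦ (i : ℕ)).symm
  · intro A r hA hr hb n a ha
    rw [hmin]
    exact Pot.final_weakP hcomb hL (Par.iota p) hφ hy hA hr hb _ (hNd n a ha.injective).1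
  · intro A r hA hr n hn hb a ha han
    rw [hmin]
    exact Pot.final_strictP hcomb hL (Par.iota p) hφ hy hA hr hn hb _ (hNd n a ha.injective).1
      ((hNd n a ha.injective).2 han)

end GH.LM
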