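import Pool.Agent.GH.LM.Stm
import Pool.Agent.GH.Pot.GBranch

/-!
# GH-LM, row 12: the node bounds of the principal minors
-/

open Polynomial

noncomputable section

namespace GH.LM

open GH.Pot

/-- Expansion of a minor along a lower triangular Toeplitz factor. -/
theorem nd_expand {R : Type*} [CommRing R] {n : ℕ} (M N : ℕ → ℕ → R) (W : ℕ → R)
    (a b : Fin n → ℕ) (hM : ∀ i j, M i j = ∑ l ∈ Finset.range (i + 1), W (i - l) * N l j) :
    minor M a b = ∑ k ∈ Fintype.piFinset (fun i : Fin n ↦ Finset.range (a i + 1)),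
      (∏ i, W (a i - k i)) * minor N k b := by
  have e1 : minor M a b = Matrix.detRowAlternating
      (fun i : Fin n ↦ ∑ l ∈ Finset.range (a i + 1),
        (W (a i - l) • fun j : Fin n ↦ N l (b j))) := by
    have e0 : (Matrix.of fun i j ↦ M (a i) (b j)) =
        (fun i : Fin n ↦ ∑ l ∈ Finset.range (a i + 1),
          (W (a i - l) • fun j : Fin n ↦ N l (b j))) := by
      funext i j
      rw [Matrix.of_apply, hM, Finset.sum_apply]
      exact Finset.sum_congr rfl fun l _ ↦ rfl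
    exact congrArg (fun A : Matrix (Fin n) (Fin n) R ↦ Matrix.detRowAlternating A) e0
  rw [e1]
  have := MultilinearMap.map_sum_finset
    (Matrix.detRowAlternating (R := R) (n := Fin n)).toMultilinearMap
    (fun (i : Fin n) (l : ℕ) ↦ (W (a i - l) • fun j : Fin n ↦ N l (b j)))
    (fun i : Fin n ↦ Finset.range (a i + 1))
  refine this.trans (Finset.sum_congr rfl fun k _ ↦ ?_)
  exact MultilinearMap.map_smul_univ
    (Matrix.detRowAlternating (R := R) (n := Fin n)).toMultilinearMap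
    (fun i ↦ W (a i - k i)) (fun (i : Fin n) (j : Fin n) ↦ N (k i) (b j))

variable {p : ℕ} [Fact p.Prime] (P : Par p)

theorem nd_gvC (c ν s : ℕ) : gv p c ν (C ((p : ℤ_[p]) ^ s)) = s := by
  unfold gv sh
  rw [C_comp, C_pow]
  exact emultiplicity_pow_self_of_prime prime_C s

theorem nd_gv_prod (c ν : ℕ) {n : ℕ} (f : Fin n → ℤ_[p][X]) :
    gv p c ν (∏ i, f i) = ∑ i, gv p c ν (f i) := by
  classical
  induction (Finset.univ : Finset (Fin n)) using Finset.induction_on with
  | empty => rw [Finset.prod_empty, Finset.sum_empty, gv_one]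
  | insert a s ha ih => rw [Finset.prod_insert ha, Finset.sum_insert ha, gv_mul, ih]

theorem nd_root (c k : ℕ) {Q : ℤ_[p][X]} (h : C ((p : ℤ_[p]) ^ k) ∣ Q) :
    (k : ℕ∞) ≤ gv p c 0 Q := by
  rw [le_gv_iff]
  exact gv_dvd_comp h _

/-- The product of the linear factors is prime to `p`. -/
theorem nd_lead_not {k : ℕ} {u : ℤ_[p][X]} {z : (ℤ_[p])ˣ} (hu : C ((p : ℕ) : ℤ_[p]) ∣ u -
    C (z : ℤ_[p])) (s : Finset ℕ) (T : ℕ → ℕ) :
    ¬ C ((p : ℤ_[p]) ^ (k + 1)) ∣ C (((p : ℕ) : ℤ_[p]) ^ k) * u *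
      ∏ m ∈ s, (X - C (m : ℤ_[p])) ^ T m := by
  intro h
  have hp0 : (C ((p : ℤ_[p]) ^ k) : ℤ_[p][X]) ≠ 0 := by
    rw [Ne, C_eq_zero]
    exact pow_ne_zero k PadicInt.prime_p.ne_zero
  rw [pow_succ, C_mul, mul_assoc] at h
  have h1 : C ((p : ℕ) : ℤ_[p]) ∣ u * ∏ m ∈ s, (X - C (m : ℤ_[p])) ^ T m :=
    (mul_dvd_mul_iff_left hp0).1 h
  rcases (prime_C (p := p)).dvd_or_dvd h1 with h2 | h2
  · have h3 : C ((p : ℕ) : ℤ_[p]) ∣ C (z : ℤ_[p]) := (dvd_sub_right h2).1 hu
    rw [C_dvd_iff_dvd_coeff] at h3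
    have h4 := h3 0
    rw [coeff_C_zero] at h4
    exact PadicInt.prime_p.not_isUnit (isUnit_of_dvd_unit h4 z.isUnit)
  · have hmon : (∏ m ∈ s, (X - C (m : ℤ_[p])) ^ T m : ℤ_[p][X]).Monic :=
      monic_prod_of_monic _ _ fun m _ ↦ (monic_X_sub_C _).pow _
    rw [C_dvd_iff_dvd_coeff] at h2
    have h4 := h2 (∏ m ∈ s, (X - C (m : ℤ_[p])) ^ T m : ℤ_[p][X]).natDegree
    rw [hmon.coeff_natDegree] at h4
    exact PadicInt.prime_p.not_isUnit (isUnit_of_dvd_one h4)

theorem nd_ldN (hL : P.SpLead) (hA : P.SpLdA) (a : ℕ) : P.LdN (P.NA a) := by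
  intro n
  rw [hA a n]
  obtain ⟨u, z, hu, hl⟩ := hL n
  constructor
  · rw [hl, mul_assoc]
    exact dvd_mul_right _ _
  · rw [hl]
    exact nd_lead_not hu _ _

theorem nd_gm_le (e ε b k : ℕ) (hkb : k ≤ b) :
    (e * (b + 1) + ε) / 2 ≤ (e * (k + 1) + ε) / 2 + (e * (b - k) + 1) / 2 := by
  obtain ⟨l, rfl⟩ : ∃ l, b = k + l := ⟨b - k, by omega⟩
  rw [Nat.add_sub_cancel_left]
  have h1 : e * (k + l + 1) = e * (k + 1) + e * l := by ring
  rw [h1]
  omega

theorem nd_matB {ε a : ℕ} (hε : ε ≤ 1) (hM : P.SpMatA) :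
    MatB p a (P.NS ε a) P.B P.Z P.T P.s P.t where
  lead := (hM ε hε a).1
  root := (hM ε hε a).2.1
  corank := (hM ε hε a).2.2

/-- The valuation of a term of the expansion. -/
theorem nd_term (hp : P.SpPt) (hw : P.SpWN) (hS : P.SpScale) {ε : ℕ} (hε : ε ≤ 1) (c ν : ℕ)
    (hν : 1 ≤ ν) {n : ℕ} (b k : Fin n → ℕ) (hk : ∀ i, k i ≤ b i) :
    gv p c ν (minor (P.NS ε c) k b) + (if k = b then 0 else 1) ≤
      gv p c ν ((∏ i, P.WA c (b i - k i)) * minor (P.NA c) k b) := by
  classical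
  have h1 := congrArg (gv p c ν) (hS ε hε c n k b)
  rw [gv_mul, gv_mul, nd_gvC, nd_gvC] at h1
  have hfac : ∀ i, (((if k i = b i then 0 else (P.e * (b i - k i) + 1) / 2 + 1) : ℕ) : ℕ∞) ≤
      gv p c ν (P.WA c (b i - k i)) := by
    intro i
    by_cases hi : k i = b i
    · rw [if_pos hi]
      exact bot_le
    · rw [if_neg hi]
      have hl : 1 ≤ b i - k i := by
        have := hk i
        omega
      exact (le_gv_iff _ _ _ _).2 ((hp c c ν (b i - k i) (Nat.ModEq.refl c) hν hl).1)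
  have hsum : ((∑ i, (if k i = b i then 0 else (P.e * (b i - k i) + 1) / 2 + 1) : ℕ) : ℕ∞) ≤
      gv p c ν (∏ i, P.WA c (b i - k i)) := by
    rw [nd_gv_prod]
    push_cast
    refine Finset.sum_le_sum fun i _ ↦ ?_
    have := hfac i
    push_cast at this
    exact this
  have hnat : ∑ i, P.gm ε (b i) + (if k = b then 0 else 1) ≤
      ∑ i, (if k i = b i then 0 else (P.e * (b i - k i) + 1) / 2 + 1) + ∑ i, P.gm ε (k i) := by
    have h2 : ∀ i, P.gm ε (b i) + (if k i = b i then 0 else 1) ≤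
        (if k i = b i then 0 else (P.e * (b i - k i) + 1) / 2 + 1) + P.gm ε (k i) := by
      intro i
      by_cases hi : k i = b i
      · rw [if_pos hi, if_pos hi, hi]
        omega
      · rw [if_neg hi, if_neg hi]
        have := nd_gm_le P.e ε (b i) (k i) (hk i)
        unfold Par.gm
        omega
    have h3 : ∑ i, P.gm ε (b i) + ∑ i, (if k i = b i then 0 else 1) ≤
        ∑ i, (if k i = b i then 0 else (P.e * (b i - k i) + 1) / 2 + 1) +
          ∑ i, P.gm ε (k i) := by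
      rw [← Finset.sum_add_distrib, ← Finset.sum_add_distrib]
      exact Finset.sum_le_sum fun i _ ↦ h2 i
    refine le_trans (Nat.add_le_add_left ?_ _) h3
    by_cases hkb : k = b
    · rw [if_pos hkb]
      exact Nat.zero_le _
    · rw [if_neg hkb]
      obtain ⟨i, hi⟩ := Function.ne_iff.1 hkb
      have h4 := Finset.single_le_sum (f := fun i ↦ if k i = b i then 0 else 1)
        (fun i _ ↦ Nat.zero_le _) (Finset.mem_univ i)
      simp only [if_neg hi] at h4
      exact h4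
  rw [gv_mul]
  have hfin : ((∑ i, P.gm ε (b i) : ℕ) : ℕ∞) ≠ ⊤ := ENat.natCast_ne_top _
  refine (ENat.add_le_add_iff_right hfin).1 ?_
  calc gv p c ν (minor (P.NS ε c) k b) + (if k = b then 0 else 1) +
        ((∑ i, P.gm ε (b i) : ℕ) : ℕ∞)
      = gv p c ν (minor (P.NS ε c) k b) +
        ((∑ i, P.gm ε (b i) + (if k = b then 0 else 1) : ℕ) : ℕ∞) := by
          push_cast
          split_ifs <;> ring
    _ ≤ gv p c ν (minor (P.NS ε c) k b) +
        ((∑ i, (if k i = b i then 0 else (P.e * (b i - k i) + 1) / 2 + 1) +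
          ∑ i, P.gm ε (k i) : ℕ) : ℕ∞) := by
          refine add_le_add le_rfl ?_
          exact_mod_cast hnat
    _ = ((∑ i, (if k i = b i then 0 else (P.e * (b i - k i) + 1) / 2 + 1) : ℕ) : ℕ∞) +
        (((∑ i, P.gm ε (k i) : ℕ) : ℕ∞) + gv p c ν (minor (P.NS ε c) k b)) := by
          rw [Nat.cast_add]
          ring
    _ ≤ gv p c ν (∏ i, P.WA c (b i - k i)) +
        (((∑ i, P.gm ε (b i) : ℕ) : ℕ∞) + gv p c ν (minor (P.NA c) k b)) :=
          add_le_add hsum h1.le
    _ = _ := by ring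

theorem spNode (hn : P.Num) (hw : P.SpWN) (hp : P.SpPt) (hr : P.SpRt) (hNA : P.SpNA)
    (hL : P.SpLead) (hA : P.SpLdA) (hNS : P.SpNS) (hS : P.SpScale) (hM : P.SpMatA)
    (hF : P.SpFlat) (hRN : P.RootN) (hRP : P.RootP) : P.SpNode := by
  classical
  intro h hC hRt n b hb
  have hlevel0 : ∀ c, c ≡ 0 [MOD p ^ 0] := fun c => by simp [Nat.ModEq, Nat.mod_one]
  have hPM : (fun i j ↦ ∑ l ∈ Finset.range (i + 1), P.WA 0 (i - l) * P.NA 0 l j) = P.PM := by
    funext i j
    exact ((hw 0).2.2.1 i j).symm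
  have hroot := hRP (P.NA 0) (P.WA 0) (hNA.1 0) (nd_ldN P hL hA 0) (hw 0).1 hr n b hb
  rw [hPM] at hroot
  -- the terms of the expansion
  have hexp : ∀ c, minor P.PM b b =
      ∑ k ∈ Fintype.piFinset (fun i : Fin n ↦ Finset.range (b i + 1)),
        (∏ i, P.WA c (b i - k i)) * minor (P.NA c) k b := fun c ↦
    nd_expand P.PM (P.NA c) (P.WA c) b b (hw c).2.2.1
  have hmem : ∀ k ∈ Fintype.piFinset (fun i : Fin n ↦ Finset.range (b i + 1)),
      ∀ i, k i ≤ b i := by
    intro k hk i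
    have := Finset.mem_range.1 (Fintype.mem_piFinset.1 hk i)
    omega
  refine ⟨?_, ?_⟩
  · intro c ν
    rcases Nat.eq_zero_or_pos ν with rfl | hν
    · have h1 := (hC.hull c 0).le n
      have h2 := fv_root (p := p) P.B P.Z P.T n c
      have h3 : (h n c 0).toNat ≤ P.B n := by
        have h4 : h n c 0 ≤ (fv p P.B P.Z P.T n c 0 : ℤ) := h1
        rw [h2] at h4
        omega
      refine le_trans ?_ (nd_root c _ hroot.1)
      exact_mod_cast h3
    · rw [hexp c]
      refine co_le_gv_sum _ _ fun k hk ↦ ?_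
      have h1 := nd_term P hp hw hS (Nat.zero_le 1) c ν hν b k (hmem k hk)
      have h2 := weakB hC (nd_matB P (Nat.zero_le 1) hM (a := c)) n k b c ν (Nat.ModEq.refl c)
      exact h2.trans (le_self_add.trans h1)
  · intro hex c ν hv
    rcases Nat.eq_zero_or_pos ν with rfl | hν
    · rw [g_hull_congr hC (hlevel0 c)] at hv
      rw [fv_root]
      exact nd_root c _ (hroot.2 ((hRt n).1 hv) hex)
    · have hvf : h n c ν = fv p P.B P.Z P.T n c ν := (hC.hull c ν).eq_of_vtx hv
      rw [hexp c]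
      refine co_le_gv_sum _ _ fun k hk ↦ ?_
      have hε : n % 2 ≤ 1 := by omega
      have h1 := nd_term P hp hw hS hε c ν hν b k (hmem k hk)
      by_cases hkb : k = b
      · rw [if_pos hkb, add_zero] at h1
        refine le_trans ?_ h1
        rw [hkb]
        refine strictB hC (nd_matB P hε hM (a := c)) n b b ?_ ?_ c ν (Nat.ModEq.refl c) hv
        · intro hv0
          have h2 := (hRN (P.NA c) (hNA.1 c) (nd_ldN P hL hA c)).2 n b ((hRt n).1 hv0) hb hex
          have h3 := hS (n % 2) hε c n b b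
          have hne : (C ((p : ℤ_[p]) ^ ∑ i, P.gm (n % 2) (b i)) : ℤ_[p][X]) ≠ 0 := by
            rw [Ne, C_eq_zero]
            exact pow_ne_zero _ PadicInt.prime_p.ne_zero
          have h4 := mul_left_cancel₀ hne h3
          rw [h4]
          exact nd_root 0 _ h2
        · intro hv0
          refine ⟨fun m hmc hT0 hT1 ↦ ?_, hex⟩
          have hnt := hC.start n m hT0 hT1
          have hn1 : 1 ≤ n := by
            by_contra h0
            exact hv0 (Or.inl (by omega))
          exact hF c m n hmc hn1 hnt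
      · rw [if_neg hkb] at h1
        have h2 := weakB hC (nd_matB P hε hM (a := c)) n k b c ν (Nat.ModEq.refl c)
        rw [hvf, Int.toNat_natCast] at h2
        refine le_trans ?_ h1
        push_cast
        exact add_le_add h2 le_rfl

end GH.LM
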