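import Pool.Agent.GH.LM.Stm
import Pool.Agent.GH.Pot.Gv

/-!
# GH-LM, row 2: the growth of `W_a` and `V_a`

The filtrations `ψ(n) = min_(j ≥ 1) (max(j, φ(n)) + g(j) - v(j!))`, `g = 0` at the root, and
`g(j) = ⌈j/p⌉` for `f(py)`.
-/

open PowerSeries

noncomputable section

namespace GH.LM

open MatU

/-! ### The weights -/

section

variable (p : ℕ) [Fact p.Prime]

theorem pt_val_le {j : ℕ} (hj : 1 ≤ j) : padicValNat p j.factorial ≤ j := by
  have h1 := sub_one_mul_padicValNat_factorial_lt_of_ne_zero p (n := j) (by omega)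
  have hp : 2 ≤ p := (Fact.out : p.Prime).two_le
  have h2 : 1 * padicValNat p j.factorial ≤ (p - 1) * padicValNat p j.factorial :=
    Nat.mul_le_mul_right _ (by omega)
  omega

theorem pt_val_add (i j : ℕ) : padicValNat p i.factorial + padicValNat p j.factorial ≤
    padicValNat p (i + j).factorial := by
  rw [← padicValNat_dvd_iff_le (Nat.factorial_ne_zero _), pow_add]
  exact (mul_dvd_mul pow_padicValNat_dvd pow_padicValNat_dvd).trans
    (Nat.factorial_mul_factorial_dvd_factorial_add i j)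

/-- The weight. -/
def pts (d : ℕ) (g : ℕ → ℕ) (n : ℕ) : ℕ :=
  if n = 0 then 0 else
    sInf {x | ∃ j, 1 ≤ j ∧ x + padicValNat p j.factorial = max j (phD d n) + g j}

variable {d : ℕ} {g : ℕ → ℕ}

omit [Fact p.Prime] in
theorem pts_zero : pts p d g 0 = 0 := if_pos rfl

theorem pts_le {n j : ℕ} (hn : 1 ≤ n) (hj : 1 ≤ j) :
    pts p d g n + padicValNat p j.factorial ≤ max j (phD d n) + g j := by
  have h1 := pt_val_le p hj
  have h2 : j ≤ max j (phD d n) := le_max_left _ _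
  have h3 : pts p d g n ≤ max j (phD d n) + g j - padicValNat p j.factorial := by
    rw [pts, if_neg (by omega)]
    exact Nat.sInf_le ⟨j, hj, by omega⟩
  omega

omit [Fact p.Prime] in
theorem pts_ex {n : ℕ} (hn : 1 ≤ n) : ∃ j, 1 ≤ j ∧
    pts p d g n + padicValNat p j.factorial = max j (phD d n) + g j := by
  rw [pts, if_neg (by omega)]
  refine Nat.sInf_mem (s := {x | ∃ j, 1 ≤ j ∧ x + padicValNat p j.factorial =
    max j (phD d n) + g j}) ⟨max 1 (phD d n) + g 1, 1, le_rfl, ?_⟩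
  simp

omit [Fact p.Prime] in
theorem le_pts {n x : ℕ} (hn : 1 ≤ n)
    (h : ∀ j, 1 ≤ j → x + padicValNat p j.factorial ≤ max j (phD d n) + g j) :
    x ≤ pts p d g n := by
  obtain ⟨j, hj, h1⟩ := pts_ex p (d := d) (g := g) hn
  have h2 := h j hj
  omega

theorem pts_add (hd : 0 < d) (hg : ∀ i j, g (i + j) ≤ g i + g j) (m n : ℕ) :
    pts p d g (m + n) ≤ pts p d g m + pts p d g n := by
  rcases Nat.eq_zero_or_pos m with rfl | hm
  · rw [zero_add, pts_zero, zero_add]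
  rcases Nat.eq_zero_or_pos n with rfl | hn
  · rw [add_zero, pts_zero, add_zero]
  obtain ⟨i, hi, h1⟩ := pts_ex p (d := d) (g := g) hm
  obtain ⟨j, hj, h2⟩ := pts_ex p (d := d) (g := g) hn
  have h3 := pts_le p (d := d) (g := g) (n := m + n) (j := i + j) (by omega) (by omega)
  have h4 := pt_val_add p i j
  have h5 := phD_add hd m n
  have h6 := hg i j
  omega

theorem pts_add' (hd : 0 < d) {m : ℕ} (n : ℕ) (hm : 1 ≤ m) :
    pts p d g (m + n) ≤ pts p d g m + phD d n := by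
  obtain ⟨i, hi, h1⟩ := pts_ex p (d := d) (g := g) hm
  have h3 := pts_le p (d := d) (g := g) (n := m + n) (j := i) (by omega) hi
  have h5 := phD_add hd m n
  omega

end

/-! ### Filtrations with two weights -/

section

variable {R : Type*} [CommRing R] {I : ℕ → Ideal R} {ψ φ : ℕ → ℕ} {p : ℕ}

theorem pt_shift (h : Filt I ψ) (hc : ∀ m r, 1 ≤ m → ψ (m + r) ≤ ψ m + φ r)
    {F : PowerSeries R} (hF : InF I φ F) {b : R} {k : ℕ} (hk : 1 ≤ k) (hb : b ∈ I (ψ k)) :
    InF I ψ (C b * (X ^ k * F)) := by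
  intro n
  rw [coeff_C_mul]
  by_cases hn : k ≤ n
  · obtain ⟨m, rfl⟩ := Nat.exists_eq_add_of_le hn
    rw [add_comm k m, coeff_X_pow_mul, add_comm m k]
    exact h.anti _ _ (hc k m hk) (h.mul _ _ (Ideal.mul_mem_mul hb (hF m)))
  · have h1 : coeff n (X ^ k * F) = 0 := X_pow_dvd_iff.1 (dvd_mul_right _ _) n (by omega)
    rw [h1, mul_zero]
    exact Submodule.zero_mem _

variable (h : Filt I ψ) (h' : Filt I φ) (hc : ∀ m r, 1 ≤ m → ψ (m + r) ≤ ψ m + φ r)
  (hp : 1 ≤ p) {P q : PowerSeries R} (hP : InF I ψ P) (hq : InF I φ q)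

include h h' hc hp hP hq

theorem pt_SF (L : ℕ) : InF I ψ (SF p P q L) := by
  induction L with
  | zero => exact hP
  | succ L ih =>
    rw [SF_succ]
    refine ih.mul h ((InF.one h).sub ?_)
    rw [mul_pow, ← pow_mul]
    exact pt_shift h hc (hq.pow h' _) (Nat.mul_pos hp (Nat.succ_pos L)) (ih _)

theorem pt_CF (L : ℕ) : InF I (fun l => ψ (p * l)) (CF p P q L) := by
  induction L with
  | zero => rw [CF, Finset.prod_range_zero]; exact InF.one (h.scale p)
  | succ L ih =>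
    have h1 : CF p P q (L + 1) = CF p P q L * (1 - C (bF p P q L) * (X ^ (L + 1) * 1)) := by
      rw [CF, Finset.prod_range_succ, mul_one]
      rfl
    rw [h1]
    refine ih.mul (h.scale p) ((InF.one (h.scale p)).sub ?_)
    exact InF.shift (h.scale p) (InF.one (h.scale p)) (pt_SF h h' hc hp hP hq L _)

theorem pt_WF (L : ℕ) : InF I (fun l => ψ (p * l)) (WF p P q L) :=
  (pt_CF h h' hc hp hP hq L).inv (h.scale p) (constantCoeff_CF P q L)

end

/-! ### The filtration by the Gauss norm of `f(py)` -/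

section

variable (p : ℕ) [Fact p.Prime]

/-- The filtration by the Gauss norm of `f(py)`. -/
def Ict (k : ℕ) : Ideal (Polynomial ℤ_[p]) := (Irt p k).comap (iot p)

variable {p} in
theorem mem_Ict {k : ℕ} {F : Polynomial ℤ_[p]} :
    F ∈ Ict p k ↔ Polynomial.C ((p : ℤ_[p]) ^ k) ∣ iot p F := by
  rw [Ict, Ideal.mem_comap, mem_Ipw, map_pow]

theorem filt_Ict {φ : ℕ → ℕ} (h0 : φ 0 = 0) (hs : ∀ m n, φ (m + n) ≤ φ m + φ n) :
    Filt (Ict p) φ where
  zero := by
    rw [Ideal.eq_top_iff_one, mem_Ict, pow_zero, map_one]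
    exact one_dvd _
  anti m n h := by
    intro x hx
    rw [mem_Ict] at hx ⊢
    exact (map_dvd _ (pow_dvd_pow _ h)).trans hx
  mul m n := by
    rw [Ideal.mul_le]
    intro F hF G hG
    rw [mem_Ict] at hF hG ⊢
    rw [map_mul, pow_add, map_mul]
    exact mul_dvd_mul hF hG
  phi0 := h0
  sub := hs

theorem C_ct {φ : ℕ → ℕ} {F : PowerSeries ℤ_[p]}
    (hA : ∀ n, (p : ℤ_[p]) ^ φ n ∣ coeff n F) :
    InF (Ict p) φ (PowerSeries.map Polynomial.C F) := by
  intro n
  rw [coeff_map, mem_Ict, iot_C]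
  exact map_dvd _ (hA n)

/-- `(py)_j` is divisible by `p^⌈j/p⌉`. -/
theorem iot_desc (j : ℕ) :
    Polynomial.C ((p : ℤ_[p]) ^ phD p j) ∣ iot p (descPochhammer ℤ_[p] j) := by
  have hp : 0 < p := (Fact.out : p.Prime).pos
  induction j with
  | zero =>
    rw [phD_zero hp, pow_zero, map_one]
    exact one_dvd _
  | succ j ih =>
    rw [descPochhammer_succ_right, map_mul]
    by_cases hj : p ∣ j
    · have h1 : phD p (j + 1) = phD p j + 1 := by
        obtain ⟨k, rfl⟩ := hj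
        unfold phD
        rw [show p * k + 1 + p - 1 = p * (k + 1) by rw [mul_add]; omega, Nat.mul_div_cancel_left _ hp,
          show p * k + p - 1 = p - 1 + p * k by omega, Nat.add_mul_div_left _ _ hp,
          Nat.div_eq_of_lt (by omega)]
        omega
      rw [h1, pow_succ, map_mul]
      refine mul_dvd_mul ih ?_
      obtain ⟨k, rfl⟩ := hj
      rw [map_sub, iot_X, map_natCast (iot p)]
      refine dvd_sub (dvd_mul_right _ _) ?_
      refine ⟨(k : Polynomial ℤ_[p]), ?_⟩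
      push_cast
      rfl
    · have h1 : phD p (j + 1) = phD p j := by
        unfold phD
        have h2 := Nat.div_add_mod j p
        have h3 : 0 < j % p := Nat.pos_of_ne_zero fun h => hj (Nat.dvd_of_mod_eq_zero h)
        have h4 : j % p < p := Nat.mod_lt _ hp
        have h5 : j + 1 + p - 1 = j % p + p * (j / p + 1) := by rw [mul_add]; omega
        have h6 : j + p - 1 = (j % p - 1) + p * (j / p + 1) := by rw [mul_add]; omega
        rw [h5, h6, Nat.add_mul_div_left _ _ hp, Nat.add_mul_div_left _ _ hp,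
          Nat.div_eq_of_lt h4, Nat.div_eq_of_lt (show j % p - 1 < p by omega)]
      rw [h1]
      exact ih.mul_right _

/-- Growth of `(1 + pθ)^(py)` in the Gauss norm. -/
theorem Lpow_ct {φ ψ : ℕ → ℕ} (h0 : φ 0 = 0) (hs : ∀ m n, φ (m + n) ≤ φ m + φ n)
    (hψ0 : ψ 0 = 0)
    (hψ : ∀ n j, 1 ≤ n → 1 ≤ j → ψ n + padicValNat p j.factorial ≤ max j (φ n) + phD p j)
    {θ : PowerSeries ℤ_[p]} (hθ : constantCoeff θ = 0)
    (hA : ∀ n, (p : ℤ_[p]) ^ φ n ∣ coeff n (1 + C (p : ℤ_[p]) * θ)) :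
    InF (Ict p) ψ (Lpow p θ) := by
  intro n
  rcases Nat.eq_zero_or_pos n with hn | hn
  · subst hn
    rw [hψ0, mem_Ict, pow_zero, map_one]
    exact one_dvd _
  have hp : (p : ℤ_[p]) ≠ 0 := by exact_mod_cast p_ne_zero p
  have hF := filt_Ipw (p : ℤ_[p]) h0 hs
  have h1 : InF (Ipw (p : ℤ_[p])) φ (C (p : ℤ_[p]) * θ) := by
    have h2 : InF (Ipw (p : ℤ_[p])) φ (1 + C (p : ℤ_[p]) * θ) := fun n => mem_Ipw.2 (hA n)
    have h3 := h2.sub (InF.one hF)
    rwa [add_sub_cancel_left] at h3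
  rw [Lpow, coeff_subst' (hasSubst_C p hθ)]
  refine finsum_induction (fun x => x ∈ Ict p (ψ n)) (Submodule.zero_mem _)
    (fun x y hx hy => Submodule.add_mem _ hx hy) fun j => ?_
  rw [coeff_mk, smul_eq_mul, ← map_pow, coeff_map, cc]
  rcases Nat.eq_zero_or_pos j with hj | hj
  · subst hj
    rw [pow_zero, coeff_one, if_neg (by omega), map_zero, mul_zero]
    exact Submodule.zero_mem _
  · have h2 : (p : ℤ_[p]) ^ (max j (φ n)) ∣ (p : ℤ_[p]) ^ j * coeff n (θ ^ j) := by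
      rcases le_total j (φ n) with h3 | h3
      · rw [max_eq_right h3]
        have h4 := mem_Ipw.1 (h1.pow hF j n)
        rwa [mul_pow, ← map_pow, coeff_C_mul] at h4
      · rw [max_eq_left h3]
        exact dvd_mul_right _ _
    have h3 : (p : ℤ_[p]) ^ (ψ n - phD p j) ∣ uu p j * coeff n (θ ^ j) := by
      apply dvd_of_dvd_mul_factorial p (j := j)
      have h4 : uu p j * coeff n (θ ^ j) * (j.factorial : ℤ_[p]) =
          (p : ℤ_[p]) ^ j * coeff n (θ ^ j) := by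
        rw [← uu_mul]; ring
      rw [h4]
      have h5 := hψ n j hn hj
      have h6 := pt_val_le p hj
      have h7 : j ≤ max j (φ n) := le_max_left _ _
      exact (pow_dvd_pow _ (by omega)).trans h2
    rw [mem_Ict]
    have h5 : Polynomial.C (uu p j) * descPochhammer ℤ_[p] j * Polynomial.C (coeff n (θ ^ j)) =
        Polynomial.C (uu p j * coeff n (θ ^ j)) * descPochhammer ℤ_[p] j := by
      rw [map_mul]; ring
    rw [h5, map_mul, iot_C]
    refine (map_dvd _ (pow_dvd_pow _ (show ψ n ≤ ψ n - phD p j + phD p j by omega))).trans ?_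
    rw [pow_add, map_mul]
    exact mul_dvd_mul (map_dvd _ h3) (iot_desc p j)

end

/-! ### The rows -/

variable {p : ℕ} [Fact p.Prime] (P : Par p)

theorem pt_rt_all (hn : P.Num) (hg : P.Gr) (l : ℕ) : coeff l (WQ p P.Tv P.S l) ∈
    Irt p (pts p P.d (fun _ => 0) (p * l)) := by
  have hp : 1 ≤ p := (Fact.out : p.Prime).one_le
  have hth : 1 + C (p : ℤ_[p]) * thetaA p P.Tv = P.Tv := one_add_thetaA hn.d0 hn.Tv0 hg.Tv
  refine pt_WF (filt_Ipw _ (pts_zero p) (pts_add p hn.d0 fun _ _ => le_rfl))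
    (filt_Ipw _ (phD_zero hn.d0) (phD_add hn.d0)) (fun m r hm => pts_add' p hn.d0 r hm) hp
    (Lpow_rt p (φ := phD P.d) (phD_zero hn.d0) (phD_add hn.d0) (pts_zero p)
      (fun n j hn hj => pts_le p hn hj) (thetaA_const hn.d0 hn.Tv0 hg.Tv) ?_)
    (C_rt p (hg.S.inv hn.d0 hn.S0)) l l
  rw [hth]
  exact hg.Tv

theorem pt_ct (hn : P.Num) (hg : P.Gr) : InF (Ict p) (pts p P.d (phD p)) (Apow p P.Tv) := by
  have hth : 1 + C (p : ℤ_[p]) * thetaA p P.Tv = P.Tv := one_add_thetaA hn.d0 hn.Tv0 hg.Tv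
  refine Lpow_ct p (φ := phD P.d) (phD_zero hn.d0) (phD_add hn.d0) (pts_zero p)
      (fun n j hn hj => pts_le p hn hj) (thetaA_const hn.d0 hn.Tv0 hg.Tv) ?_
  rw [hth]
  exact hg.Tv

theorem pt_ct_W (hn : P.Num) (hg : P.Gr) (l : ℕ) : coeff l (WQ p P.Tv P.S l) ∈
    Ict p (pts p P.d (phD p) (p * l)) := by
  have hp : 0 < p := (Fact.out : p.Prime).pos
  exact pt_WF (filt_Ict p (pts_zero p) (pts_add p hn.d0 (phD_add hp)))
    (filt_Ict p (phD_zero hn.d0) (phD_add hn.d0)) (fun m r hm => pts_add' p hn.d0 r hm) hp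
    (pt_ct P hn hg) (C_ct p (hg.S.inv hn.d0 hn.S0)) l l

theorem pt_ct_V (hn : P.Num) (hg : P.Gr) (l : ℕ) :
    coeff l (CF p (Apow p P.Tv) (PowerSeries.map Polynomial.C (invOfUnit P.S 1)) l) ∈
      Ict p (pts p P.d (phD p) (p * l)) := by
  have hp : 0 < p := (Fact.out : p.Prime).pos
  exact pt_CF (filt_Ict p (pts_zero p) (pts_add p hn.d0 (phD_add hp)))
    (filt_Ict p (phD_zero hn.d0) (phD_add hn.d0)) (fun m r hm => pts_add' p hn.d0 r hm) hp
    (pt_ct P hn hg) (C_ct p (hg.S.inv hn.d0 hn.S0)) l l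

theorem pt_sh {a c ν k : ℕ} (hca : c ≡ a [MOD p]) (hν : 1 ≤ ν) {Q : Zy p} (hQ : Q ∈ Ict p k) :
    Polynomial.C ((p : ℤ_[p]) ^ k) ∣ Pot.sh p c ν (Par.shf a Q) := by
  rw [mem_Ict] at hQ
  obtain ⟨t, ht⟩ : ∃ t : ℤ_[p], (c : ℤ_[p]) - a = p * t := by
    obtain ⟨t, ht⟩ := (Nat.modEq_iff_dvd.1 hca.symm)
    refine ⟨t, ?_⟩
    have h1 := congrArg (Int.cast : ℤ → ℤ_[p]) ht
    push_cast at h1
    exact h1
  obtain ⟨μ, rfl⟩ : ∃ μ, ν = μ + 1 := ⟨ν - 1, by omega⟩
  have h1 : Pot.sh p c (μ + 1) (Par.shf a Q) = (iot p Q).comp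
      (Polynomial.C t + Polynomial.C ((p : ℤ_[p]) ^ μ) * Polynomial.X) := by
    rw [Pot.sh, Par.shf, iot, Polynomial.coe_compRingHom_apply, Polynomial.comp_assoc,
      Polynomial.comp_assoc]
    congr 1
    rw [Polynomial.sub_comp, Polynomial.X_comp, Polynomial.C_comp, Polynomial.mul_comp,
      Polynomial.C_comp, Polynomial.X_comp, mul_add, ← Polynomial.C_mul, ← ht, ← mul_assoc,
      ← Polynomial.C_mul, ← pow_succ', Polynomial.C_sub]
    ring
  rw [h1]
  exact Pot.gv_dvd_comp hQ _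

theorem pt_le_pt (_hn : P.Num) (ho : P.Omg) {l : ℕ} (hl : 1 ≤ l) :
    (P.e * l + 1) / 2 + 1 ≤ pts p P.d (phD p) (p * l) :=
  le_pts p (Nat.mul_pos (Fact.out : p.Prime).pos hl) fun j hj => ho.pt l j hl hj

theorem spPt (hn : P.Num) (hg : P.Gr) (ho : P.Omg) : P.SpPt := by
  intro a c ν l hca hν hl
  have h1 : Polynomial.C ((p : ℤ_[p]) ^ ((P.e * l + 1) / 2 + 1)) ∣
      Polynomial.C ((p : ℤ_[p]) ^ pts p P.d (phD p) (p * l)) :=
    map_dvd _ (pow_dvd_pow _ (pt_le_pt P hn ho hl))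
  exact ⟨h1.trans (pt_sh hca hν (pt_ct_W P hn hg l)), h1.trans (pt_sh hca hν (pt_ct_V P hn hg l))⟩

/-- `W_0` at the root, general form. -/
theorem grW_WA (hn : P.Num) (hg : P.Gr) : ∀ l k, 1 ≤ l →
    (∀ j, 1 ≤ j → k + padicValNat p j.factorial ≤ max j (phD P.d (p * l))) →
      Polynomial.C ((p : ℤ_[p]) ^ k) ∣ P.WA 0 l := by
  intro l k hl hk
  have h0 : P.WA 0 l = coeff l (WQ p P.Tv P.S l) := by
    rw [Par.WA, Par.shf, Nat.cast_zero, map_zero, sub_zero, Polynomial.comp_X]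
  have h2 := mem_Ipw.1 (pt_rt_all P hn hg l)
  rw [← map_pow] at h2
  rw [h0]
  exact (map_dvd _ (pow_dvd_pow _ (le_pts p (Nat.mul_pos (Fact.out : p.Prime).pos hl)
    fun j hj => hk j hj))).trans h2

theorem spRt (hn : P.Num) (hg : P.Gr) (_ho : P.Omg) : P.SpRt :=
  fun l k hl hk => grW_WA P hn hg l k hl hk

end GH.LM
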