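import Pool.Agent.GH.LM.WN
import Pool.Agent.GH.LM.Pt
import Pool.Agent.GH.LM.NA
import Pool.Agent.GH.LM.J
import Pool.Agent.GH.LM.IntVan
import Pool.Agent.GH.LM.Lead
import Pool.Agent.GH.LM.MatA
import Pool.Agent.GH.LM.CorP
import Pool.Agent.GH.LM.FlatP
import Pool.Agent.GH.LM.Cor
import Pool.Agent.GH.LM.Node
import Pool.Agent.GH.LM.Col
import Pool.Agent.GH.LM.NP
import Pool.Agent.GH.NP

/-!
# GH-LM: the theorem on the central disc, generic layer
-/

noncomputable section

namespace GH.LM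

variable {p : ℕ} [Fact p.Prime] (P : Par p)

/-- The leading minors from the input. -/
theorem cent_lead (hn : P.Num) (hg : P.Gr) (hv : P.Val) (hkp : P.KapProd) (hs : P.Sym)
    (hb : P.Base) : P.SpLead :=
  spLead P hn (P.spInt (spNA P hn hg) (spLdA P (spWN P hn hg))) (P.spVan hn (spJ P hn hv))
    (spJ P hn hv) hkp hs hb

/-- **The Newton polygon of the Fredholm series**, from the input. -/
theorem central_of (hn : P.Num) (hg : P.Gr) (ho : P.Omg) (hv : P.Val) (hx : P.Xl) (hh : P.Hc)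
    (hk : P.Kap) (hkp : P.KapProd) (hs : P.Sym) (hb : P.Base) (hc : P.Comb) (hrn : P.RootN)
    (hrp : P.RootP) : P.SpNP := by
  have hw : P.SpWN := spWN P hn hg
  have hp : P.SpPt := spPt P hn hg ho
  have hr : P.SpRt := spRt P hn hg ho
  have hNA : P.SpNA := spNA P hn hg
  have hA : P.SpLdA := spLdA P hw
  have hJ : P.SpJ := spJ P hn hv
  have hL : P.SpLead := cent_lead P hn hg hv hkp hs hb
  have hNS : P.SpNS := spNS P hrn hNA (ldN_NA P hL hA)
  have hS : P.SpScale := spScale P hNS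
  have hC : P.SpCor := spCor P hw hp hNS (spCorP P hn hJ hh hk)
  have hF : P.SpFlat := spFlat P hn hw hp hNS (spFlatP P hn hJ hx hh hk)
  have hM : P.SpMatA := spMatA P hL hA hS hNA hrn hC
  have hN : P.SpNode := spNode P hn hw hp hr hNA hL hA hNS hS hM hF hrn hrp
  exact spNP P hn hc hL hN (spCol P hn hg)

theorem cent_norm_iota (z : ℤ_[p]) : ‖Par.iota p z‖ = ‖z‖ := by
  have h1 : ‖Par.iota p z‖ = ‖(z : ℚ_[p])‖ := by
    rw [← PadicComplex.norm_extends' p (z : ℚ_[p])]
    congr 1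
  rw [h1]
  rfl

theorem cent_eval_le (Q : Zy p) {y : PadicComplex p} (hy : ‖y‖ ≤ 1) :
    ‖Q.eval₂ (Par.iota p) y‖ ≤ 1 := by
  rw [Polynomial.eval₂_eq_sum_range]
  refine ud_sum_le _ _ zero_le_one fun i _ ↦ ?_
  rw [norm_mul, norm_pow, cent_norm_iota]
  exact mul_le_one₀ (PadicInt.norm_le_one _) (by positivity) (pow_le_one₀ (norm_nonneg _) hy)

/-- The norms of the leading minors. -/
theorem cent_norm_lead (hL : P.SpLead) (n : ℕ) {y : PadicComplex p} (hy : ‖y‖ ≤ 1) :
    ‖(Pot.lead P.PM n).eval₂ (Par.iota p) y‖ = (p : ℝ) ^ (-(P.B n : ℤ)) *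
      ∏ m ∈ Finset.range (P.Z n), ‖y - (m : PadicComplex p)‖ ^ P.T n m := by
  obtain ⟨u, z, ⟨v, hv⟩, hl⟩ := hL n
  have hu : ‖u.eval₂ (Par.iota p) y‖ = 1 := by
    have h1 : u = Polynomial.C (z : ℤ_[p]) + Polynomial.C ((p : ℕ) : ℤ_[p]) * v := by
      rw [← hv]
      ring
    rw [h1, Polynomial.eval₂_add, Polynomial.eval₂_mul, Polynomial.eval₂_C, Polynomial.eval₂_C]
    have h2 : ‖Par.iota p (z : ℤ_[p])‖ = 1 := by
      rw [cent_norm_iota]
      exact PadicInt.isUnit_iff.1 z.isUnit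
    have h3 : ‖Par.iota p ((p : ℕ) : ℤ_[p]) * v.eval₂ (Par.iota p) y‖ < ‖Par.iota p (z : ℤ_[p])‖ := by
      rw [h2, norm_mul, cent_norm_iota, PadicInt.norm_p]
      have hp1 : (1 : ℝ) < p := by exact_mod_cast (Fact.out : p.Prime).one_lt
      calc (p : ℝ)⁻¹ * ‖v.eval₂ (Par.iota p) y‖ ≤ (p : ℝ)⁻¹ * 1 :=
            mul_le_mul_of_nonneg_left (cent_eval_le v hy) (by positivity)
        _ < 1 := by
            rw [mul_one]
            exact inv_lt_one_of_one_lt₀ hp1
    have h4 := IsUltrametricDist.norm_add_eq_max_of_norm_ne_norm h3.ne'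
    rw [h4, max_eq_left h3.le, h2]
  rw [hl, Polynomial.eval₂_mul, Polynomial.eval₂_mul, norm_mul, norm_mul, Polynomial.eval₂_C,
    cent_norm_iota, PadicInt.norm_p_pow, hu, mul_one]
  congr 1
  rw [← Polynomial.coe_eval₂RingHom, map_prod, norm_prod]
  refine Finset.prod_congr rfl fun m _ => ?_
  rw [map_pow, norm_pow, Polynomial.coe_eval₂RingHom, Polynomial.eval₂_sub, Polynomial.eval₂_X,
    Polynomial.eval₂_C, map_natCast]

/-- Comparison with the ghost series. -/
theorem central_ghost (hNP : P.SpNP) (hL : P.SpLead)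
    {g : PadicComplex p → ℕ → PadicComplex p} (hg : P.Ghost g) (y : PadicComplex p)
    (hy : ‖y‖ ≤ 1) : newtonPolygon p (fred (P.MatE y)) = newtonPolygon p (g y) := by
  rw [hNP y hy]
  refine newtonPolygon_congr_norm fun n => ?_
  rw [cent_norm_lead P hL n hy, hg n y hy]

/-- The Fredholm series depends on the entries with indices from `1` only. -/
theorem cent_fred {K : Type*} [NormedField K] {C C' : ℕ → ℕ → K}
    (h : ∀ i j, C (i + 1) (j + 1) = C' (i + 1) (j + 1)) : fred C = fred C' := by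
  have h1 : fredBlock C = fredBlock C' := by
    funext N m
    unfold fredBlock
    simp only [h]
  unfold fred
  rw [h1]

end GH.LM
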