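import Pool.Agent.GH.LM.Stm
import Pool.Agent.GH.D32.Base32
import Pool.Agent.GH.CombU.DefsLN

/-!
# GH-LM: the data of the pair `(3,2)`

`PG = (1-x)(1-9x)³ + x`, `J = PG/x`, `c = 9`; `m` even: `ψ = 1`, `m` odd: `ψ = 1+18x-27x²`.
`T = (1-6h-3h²)/(1+18g-27g²)`, `T² = S`.
-/

open PowerSeries

noncomputable section

namespace GH.LM

open GH.TrJ GH.D32 GH.CombU

/-- The modular equation of `(3,2)`. -/
def Fix32 : Prop := ∀ (R : Type) [CommRing R],
  S32 R * ((1 - gs32 R) * (1 - 9 * gs32 R) ^ 3) = (1 - X) ^ 3 * (1 - 9 * X)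

/-- `(1-x)(1-9x)³ + x`. -/
def PG32 : Polynomial ℚ :=
  (1 - Polynomial.X) * (1 - 9 * Polynomial.X) ^ 3 + Polynomial.X

/-- `(1-x)³(1-9x) + x³`. -/
def Pn32 : Polynomial ℚ :=
  (1 - Polynomial.X) ^ 3 * (1 - 9 * Polynomial.X) + Polynomial.X ^ 3

theorem PG32_eq : PG32 = 1 - 27 * Polynomial.X + 270 * Polynomial.X ^ 2 -
    972 * Polynomial.X ^ 3 + 729 * Polynomial.X ^ 4 := by
  unfold PG32; ring

theorem Pn32_eq : Pn32 = 1 - 12 * Polynomial.X + 30 * Polynomial.X ^ 2 -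
    27 * Polynomial.X ^ 3 + 9 * Polynomial.X ^ 4 := by
  unfold Pn32; ring

theorem rev32_P : Rev 9 4 (9 : ℚ)⁻¹ Pn32 PG32 := by
  rw [Pn32_eq, PG32_eq]
  refine ⟨by compute_degree, by compute_degree, fun a b hab => ?_⟩
  have h : a = 0 ∧ b = 4 ∨ a = 1 ∧ b = 3 ∨ a = 2 ∧ b = 2 ∨ a = 3 ∧ b = 1 ∨ a = 4 ∧ b = 0 := by
    omega
  rcases h with ⟨rfl, rfl⟩ | ⟨rfl, rfl⟩ | ⟨rfl, rfl⟩ | ⟨rfl, rfl⟩ | ⟨rfl, rfl⟩ <;>
    simp [Polynomial.coeff_X, Polynomial.coeff_one, Polynomial.coeff_X_pow] <;> norm_num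

/-- `1+18x-27x²`. -/
def ps32q : Polynomial ℚ := 1 + 18 * Polynomial.X - 27 * Polynomial.X ^ 2

/-- `1-6x-3x²`. -/
def ns32q : Polynomial ℚ := 1 - 6 * Polynomial.X - 3 * Polynomial.X ^ 2

theorem rev32_q : Rev 9 2 (-(1 / 3) : ℚ) ns32q ps32q := by
  unfold ns32q ps32q
  refine ⟨by compute_degree, by compute_degree, fun a b hab => ?_⟩
  have h : a = 0 ∧ b = 2 ∨ a = 1 ∧ b = 1 ∨ a = 2 ∧ b = 0 := by omega
  rcases h with ⟨rfl, rfl⟩ | ⟨rfl, rfl⟩ | ⟨rfl, rfl⟩ <;>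
    simp [Polynomial.coeff_X, Polynomial.coeff_one, Polynomial.coeff_X_pow] <;> norm_num

theorem rev32_l : Rev 9 1 (-1 : ℚ) (1 - Polynomial.X) (1 - 9 * Polynomial.X) := by
  refine ⟨by compute_degree, by compute_degree, fun a b hab => ?_⟩
  have h : a = 0 ∧ b = 1 ∨ a = 1 ∧ b = 0 := by omega
  rcases h with ⟨rfl, rfl⟩ | ⟨rfl, rfl⟩ <;>
    simp [Polynomial.coeff_X, Polynomial.coeff_one]

theorem e14_32 : PG32 - Polynomial.X * Polynomial.derivative PG32 =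
    (1 - 9 * Polynomial.X) ^ 2 * ps32q := by
  have hd : Polynomial.derivative PG32 = -(1 - 9 * Polynomial.X) ^ 3 -
      27 * (1 - Polynomial.X) * (1 - 9 * Polynomial.X) ^ 2 + 1 := by
    unfold PG32
    simp only [Polynomial.derivative_add, Polynomial.derivative_sub, Polynomial.derivative_mul,
      Polynomial.derivative_pow, Polynomial.derivative_one, Polynomial.derivative_X,
      Polynomial.derivative_ofNat]
    push_cast
    simp only [map_ofNat]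
    ring
  rw [hd]
  unfold PG32 ps32q
  ring

theorem n14_32 : Polynomial.C ((3 : ℕ) : ℚ) * Pn32 - Polynomial.X * Polynomial.derivative Pn32 =
    Polynomial.C ((3 : ℕ) : ℚ) * ((1 - Polynomial.X) ^ 2 * ns32q) := by
  have hd : Polynomial.derivative Pn32 = -3 * (1 - Polynomial.X) ^ 2 * (1 - 9 * Polynomial.X) -
      9 * (1 - Polynomial.X) ^ 3 + 3 * Polynomial.X ^ 2 := by
    unfold Pn32
    simp only [Polynomial.derivative_add, Polynomial.derivative_sub, Polynomial.derivative_mul,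
      Polynomial.derivative_pow, Polynomial.derivative_one, Polynomial.derivative_X,
      Polynomial.derivative_ofNat]
    push_cast
    simp only [map_ofNat]
    ring
  rw [hd]
  have hC : (Polynomial.C ((3 : ℕ) : ℚ)) = 3 := by
    push_cast
    rfl
  rw [hC]
  unfold Pn32 ns32q
  ring

theorem gs32_mul' (h0 : constantCoeff (S32 ℚ) = 1) : gs32 ℚ * S32 ℚ = X ^ 3 := by
  rw [gs32, mul_assoc, mul_comm (invOfUnit (S32 ℚ) 1),
    PowerSeries.mul_invOfUnit _ _ (by rw [h0]; simp), mul_one]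

theorem fix32_id (hf : Fix32) (h0 : constantCoeff (S32 ℚ) = 1) :
    S32 ℚ * TrJ.ev (X ^ 3 * invOfUnit (S32 ℚ) 1) PG32 = (Pn32 : PowerSeries ℚ) := by
  have h1 : (X ^ 3 * invOfUnit (S32 ℚ) 1 : PowerSeries ℚ) = gs32 ℚ := rfl
  have h2 : TrJ.ev (gs32 ℚ) PG32 = (1 - gs32 ℚ) * (1 - 9 * gs32 ℚ) ^ 3 + gs32 ℚ := by
    rw [PG32, TrJ.ev, map_add, map_mul, map_pow, map_sub, map_sub, map_mul, map_one,
      Polynomial.aeval_X, map_ofNat]
  have h3 : (Pn32 : PowerSeries ℚ) = (1 - X) ^ 3 * (1 - 9 * X) + X ^ 3 := by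
    rw [← Polynomial.coeToPowerSeries.ringHom_apply, Pn32, map_add, map_mul, map_pow, map_pow,
      map_sub, map_sub, map_mul, map_one, map_ofNat, Polynomial.coeToPowerSeries.ringHom_apply,
      Polynomial.coe_X]
  have h4 := hf ℚ
  have h5 := gs32_mul' h0
  rw [h1, h2, h3]
  linear_combination h4 + h5

/-- The input of `(3,2)` from the definition side. -/
structure In32 : Prop where
  fix : Fix32
  S0 : ∀ (R : Type) [CommRing R], constantCoeff (S32 R) = 1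
  gr : ∀ n, (3 : ℤ) ^ ((n + 1) / 2) ∣ coeff n (S32 ℤ)

/-- The data for even `m`. -/
def dat32e (h : In32) : TrJ.Data where
  p := 3
  hp := by norm_num
  c := 9
  hc := by norm_num
  κ := 1
  κs := -(1 / 3)
  hκ := by norm_num
  μ := 0
  μs := 4
  hμ := rfl
  PG := PG32
  Pn := Pn32
  ψ := 1
  nψ := 1
  ψs := (1 - 9 * Polynomial.X) ^ 2 * ps32q
  ns := (1 - Polynomial.X) ^ 2 * ns32q
  PG0 := by
    rw [Polynomial.coeff_zero_eq_eval_zero]
    simp [PG32]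
  ψ0 := by simp
  ψs0 := by
    rw [Polynomial.coeff_zero_eq_eval_zero]
    simp [ps32q]
  dPG := rev32_P.2.1
  dPn := rev32_P.1
  dψ := by simp
  dnψ := by simp
  dψs := ((rev32_l.pow 2).mul rev32_q).2.1
  dns := ((rev32_l.pow 2).mul rev32_q).1
  rP := by
    intro a b hab
    have h := rev32_P.2.2 a b hab
    rw [← h]
    ring
  rψ := by
    intro a b hab
    have ha : a = 0 := by omega
    have hb : b = 0 := by omega
    subst ha hb
    simp
  rs := by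
    intro a b hab
    have h := ((rev32_l.pow 2).mul rev32_q).2.2 a b hab
    rw [← h]
    norm_num
  e14 := by rw [e14_32, one_mul]
  n14 := by rw [n14_32, one_mul]
  hκκ := by norm_num
  Q := S32 ℚ
  Qi := invOfUnit (S32 ℚ) 1
  Q0 := h.S0 ℚ
  hQ := PowerSeries.mul_invOfUnit _ _ (by rw [h.S0]; simp)
  fix := fix32_id h.fix (h.S0 ℚ)

/-- The data for odd `m`. -/
def dat32o (h : In32) : TrJ.Data where
  p := 3
  hp := by norm_num
  c := 9
  hc := by norm_num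
  κ := -(1 / 3)
  κs := 1
  hκ := by norm_num
  μ := 2
  μs := 2
  hμ := rfl
  PG := PG32
  Pn := Pn32
  ψ := ps32q
  nψ := ns32q
  ψs := (1 - 9 * Polynomial.X) ^ 2
  ns := (1 - Polynomial.X) ^ 2
  PG0 := by
    rw [Polynomial.coeff_zero_eq_eval_zero]
    simp [PG32]
  ψ0 := by
    rw [Polynomial.coeff_zero_eq_eval_zero]
    simp [ps32q]
  ψs0 := by
    rw [Polynomial.coeff_zero_eq_eval_zero]
    simp
  dPG := rev32_P.2.1
  dPn := rev32_P.1
  dψ := rev32_q.2.1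
  dnψ := rev32_q.1
  dψs := (rev32_l.pow 2).2.1
  dns := (rev32_l.pow 2).1
  rP := by
    intro a b hab
    have h := rev32_P.2.2 a b hab
    rw [← h]
    ring
  rψ := fun a b hab => rev32_q.2.2 a b hab
  rs := by
    intro a b hab
    have h := (rev32_l.pow 2).2.2 a b hab
    rw [← h]
    norm_num
  e14 := by rw [e14_32]; ring
  n14 := by rw [n14_32]; ring
  hκκ := by norm_num
  Q := S32 ℚ
  Qi := invOfUnit (S32 ℚ) 1
  Q0 := h.S0 ℚ
  hQ := PowerSeries.mul_invOfUnit _ _ (by rw [h.S0]; simp)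
  fix := fix32_id h.fix (h.S0 ℚ)

/-- `T⁻¹ = (1+18g-27g²)/(1-6h-3h²)`, `T² = S`. -/
def Tv32 (R : Type) [CommRing R] : PowerSeries R :=
  (1 + 18 * gs32 R - 27 * gs32 R ^ 2) * invOfUnit (1 - 6 * X - 3 * X ^ 2) 1

/-- `S⁻¹ n_s(h)/ψ_s(g)`. -/
def F32 (R : Type) [CommRing R] : PowerSeries R :=
  invOfUnit (S32 R) 1 * ns32 (X : PowerSeries R) * invOfUnit (ps32 (gs32 R)) 1

/-- The data of `(3,2)`. -/
def par32 (h : In32) : Par 3 where
  d := 2
  e := 2
  D := 2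
  cen := cenLN 0
  t := tLN 0
  s := sLN 0
  S := S32 ℤ_[3]
  Tv := Tv32 ℤ_[3]
  F := F32 ℤ_[3]
  dat m := if m % 2 = 0 then dat32e h else dat32o h

end GH.LM
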