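import Pool.Agent.GH.LM.Stm
import Pool.Agent.GH.D34.Base34
import Pool.Agent.GH.CombU.DefsLN

/-!
# GH-LM: the data of the pair `(3,4)`

`PG = (1+x)(1-3x)³ - x`, `J = PG/x`, `c = -3`, `ψ = 1`.
-/

open PowerSeries

noncomputable section

namespace GH.LM

open GH.TrJ GH.D34 GH.CombU

/-- The modular equation of `(3,4)`. -/
def Fix34 : Prop := ∀ (R : Type) [CommRing R],
  S34 R * ((1 + gs34 R) * (1 - 3 * gs34 R) ^ 3) = (1 + X) ^ 3 * (1 - 3 * X)

/-- `(1+x)(1-3x)³ - x`. -/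
def PG34 : Polynomial ℚ :=
  (1 + Polynomial.X) * (1 - 3 * Polynomial.X) ^ 3 - Polynomial.X

/-- `(1+x)³(1-3x) - x³`. -/
def Pn34 : Polynomial ℚ :=
  (1 + Polynomial.X) ^ 3 * (1 - 3 * Polynomial.X) - Polynomial.X ^ 3

theorem PG34_eq : PG34 = 1 - 9 * Polynomial.X + 18 * Polynomial.X ^ 2 -
    27 * Polynomial.X ^ 4 := by
  unfold PG34; ring

theorem Pn34_eq : Pn34 = 1 - 6 * Polynomial.X ^ 2 - 9 * Polynomial.X ^ 3 -
    3 * Polynomial.X ^ 4 := by
  unfold Pn34; ring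

theorem rev34_P : Rev (-3) 4 (-3 : ℚ)⁻¹ Pn34 PG34 := by
  rw [Pn34_eq, PG34_eq]
  refine ⟨by compute_degree, by compute_degree, fun a b hab => ?_⟩
  have h : a = 0 ∧ b = 4 ∨ a = 1 ∧ b = 3 ∨ a = 2 ∧ b = 2 ∨ a = 3 ∧ b = 1 ∨ a = 4 ∧ b = 0 := by
    omega
  rcases h with ⟨rfl, rfl⟩ | ⟨rfl, rfl⟩ | ⟨rfl, rfl⟩ | ⟨rfl, rfl⟩ | ⟨rfl, rfl⟩ <;>
    simp [Polynomial.coeff_X, Polynomial.coeff_one, Polynomial.coeff_X_pow] <;> norm_num

/-- `1-9x²`. -/
def ps34q : Polynomial ℚ := 1 - 9 * Polynomial.X ^ 2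

/-- `1-x²`. -/
def ns34q : Polynomial ℚ := 1 - Polynomial.X ^ 2

theorem rev34_q : Rev (-3) 2 (-1 : ℚ) ns34q ps34q := by
  unfold ns34q ps34q
  refine ⟨by compute_degree, by compute_degree, fun a b hab => ?_⟩
  have h : a = 0 ∧ b = 2 ∨ a = 1 ∧ b = 1 ∨ a = 2 ∧ b = 0 := by omega
  rcases h with ⟨rfl, rfl⟩ | ⟨rfl, rfl⟩ | ⟨rfl, rfl⟩ <;>
    simp [Polynomial.coeff_one, Polynomial.coeff_X_pow] <;> norm_num

theorem e14_34 : PG34 - Polynomial.X * Polynomial.derivative PG34 = ps34q ^ 2 := by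
  have hd : Polynomial.derivative PG34 = (1 - 3 * Polynomial.X) ^ 3 -
      9 * (1 + Polynomial.X) * (1 - 3 * Polynomial.X) ^ 2 - 1 := by
    unfold PG34
    simp only [Polynomial.derivative_add, Polynomial.derivative_sub, Polynomial.derivative_mul,
      Polynomial.derivative_pow, Polynomial.derivative_one, Polynomial.derivative_X,
      Polynomial.derivative_ofNat]
    push_cast
    simp only [map_ofNat]
    ring
  rw [hd]
  unfold PG34 ps34q
  ring

theorem n14_34 : Polynomial.C ((3 : ℕ) : ℚ) * Pn34 - Polynomial.X * Polynomial.derivative Pn34 =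
    Polynomial.C ((3 : ℕ) : ℚ) * ns34q ^ 2 := by
  have hd : Polynomial.derivative Pn34 = 3 * (1 + Polynomial.X) ^ 2 * (1 - 3 * Polynomial.X) -
      3 * (1 + Polynomial.X) ^ 3 - 3 * Polynomial.X ^ 2 := by
    unfold Pn34
    simp only [Polynomial.derivative_add, Polynomial.derivative_sub, Polynomial.derivative_mul,
      Polynomial.derivative_pow, Polynomial.derivative_one, Polynomial.derivative_X,
      Polynomial.derivative_ofNat]
    push_cast
    simp only [map_ofNat]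
    ring
  rw [hd]
  have hC : (Polynomial.C ((3 : ℕ) : ℚ)) = 3 := by
    push_cast
    rfl
  rw [hC]
  unfold Pn34 ns34q
  ring

theorem gs34_mul' (h0 : constantCoeff (S34 ℚ) = 1) : gs34 ℚ * S34 ℚ = X ^ 3 := by
  rw [gs34, mul_assoc, mul_comm (invOfUnit (S34 ℚ) 1),
    PowerSeries.mul_invOfUnit _ _ (by rw [h0]; simp), mul_one]

theorem fix34_id (hf : Fix34) (h0 : constantCoeff (S34 ℚ) = 1) :
    S34 ℚ * TrJ.ev (X ^ 3 * invOfUnit (S34 ℚ) 1) PG34 = (Pn34 : PowerSeries ℚ) := by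
  have h1 : (X ^ 3 * invOfUnit (S34 ℚ) 1 : PowerSeries ℚ) = gs34 ℚ := rfl
  have h2 : TrJ.ev (gs34 ℚ) PG34 = (1 + gs34 ℚ) * (1 - 3 * gs34 ℚ) ^ 3 - gs34 ℚ := by
    rw [PG34, TrJ.ev, map_sub, map_mul, map_pow, map_add, map_sub, map_mul, map_one,
      Polynomial.aeval_X, map_ofNat]
  have h3 : (Pn34 : PowerSeries ℚ) = (1 + X) ^ 3 * (1 - 3 * X) - X ^ 3 := by
    rw [← Polynomial.coeToPowerSeries.ringHom_apply, Pn34, map_sub, map_mul, map_pow, map_pow,
      map_add, map_sub, map_mul, map_one, map_ofNat, Polynomial.coeToPowerSeries.ringHom_apply,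
      Polynomial.coe_X]
  have h4 := hf ℚ
  have h5 := gs34_mul' h0
  rw [h1, h2, h3]
  linear_combination h4 - h5

/-- The input of `(3,4)` from the definition side. -/
structure In34 : Prop where
  fix : Fix34
  S0 : ∀ (R : Type) [CommRing R], constantCoeff (S34 R) = 1
  gr : ∀ n, (3 : ℤ) ^ ((n + 3) / 4) ∣ coeff n (S34 ℤ)

/-- The trace structure of `(3,4)`. -/
def dat34 (h : In34) : TrJ.Data where
  p := 3
  hp := by norm_num
  c := -3
  hc := by norm_num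
  κ := 1
  κs := 1
  hκ := by norm_num
  μ := 0
  μs := 4
  hμ := rfl
  PG := PG34
  Pn := Pn34
  ψ := 1
  nψ := 1
  ψs := ps34q ^ 2
  ns := ns34q ^ 2
  PG0 := by
    rw [Polynomial.coeff_zero_eq_eval_zero]
    simp [PG34]
  ψ0 := by simp
  ψs0 := by
    rw [Polynomial.coeff_zero_eq_eval_zero]
    simp [ps34q]
  dPG := rev34_P.2.1
  dPn := rev34_P.1
  dψ := by simp
  dnψ := by simp
  dψs := (rev34_q.pow 2).2.1
  dns := (rev34_q.pow 2).1
  rP := by
    intro a b hab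
    have h := rev34_P.2.2 a b hab
    rw [← h]
    ring
  rψ := by
    intro a b hab
    have ha : a = 0 := by omega
    have hb : b = 0 := by omega
    subst ha hb
    simp
  rs := by
    intro a b hab
    have h := (rev34_q.pow 2).2.2 a b hab
    rw [← h]
    norm_num
  e14 := by rw [e14_34, one_mul]
  n14 := by rw [n14_34, one_mul]
  hκκ := by norm_num
  Q := S34 ℚ
  Qi := invOfUnit (S34 ℚ) 1
  Q0 := h.S0 ℚ
  hQ := PowerSeries.mul_invOfUnit _ _ (by rw [h.S0]; simp)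
  fix := fix34_id h.fix (h.S0 ℚ)

/-- `S⁻¹ n_s(h)/ψ_s(g)`. -/
def F34 (R : Type) [CommRing R] : PowerSeries R :=
  invOfUnit (S34 R) 1 * ns34 (X : PowerSeries R) * invOfUnit (ps34 (gs34 R)) 1

/-- The data of `(3,4)`. -/
def par34 (h : In34) : Par 3 where
  d := 4
  e := 1
  D := 4
  cen := cenLN 1
  t := tLN 1
  s := sLN 1
  S := S34 ℤ_[3]
  Tv := invOfUnit (S34 ℤ_[3]) 1
  F := F34 ℤ_[3]
  dat _ := dat34 h

end GH.LM
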