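import Pool.Agent.GH.LM.Stm
import Pool.Agent.GH.D52.Base52
import Pool.Agent.GH.CombU.DefsLN

/-!
# GH-LM: the data of the pair `(5,2)`

`PG = (1-x)(1-5x)⁵ + x`, `J = PG/x`, `c = 5`; component `0`: `ψ = 1`, component `1`:
`ψ = 1+20x-25x²`.
-/

open PowerSeries

noncomputable section

namespace GH.LM

open GH.TrJ GH.D52 GH.CombU

/-- The modular equation of `(5,2)`. -/
def Fix52 : Prop := ∀ (R : Type) [CommRing R],
  S52 R * ((1 - gs52 R) * (1 - 5 * gs52 R) ^ 5) = (1 - X) ^ 5 * (1 - 5 * X)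

/-- `(1-x)(1-5x)⁵ + x`. -/
def PG52 : Polynomial ℚ :=
  (1 - Polynomial.X) * (1 - 5 * Polynomial.X) ^ 5 + Polynomial.X

/-- `(1-x)⁵(1-5x) + x⁵`. -/
def Pn52 : Polynomial ℚ :=
  (1 - Polynomial.X) ^ 5 * (1 - 5 * Polynomial.X) + Polynomial.X ^ 5

theorem PG52_eq : PG52 = 1 - 25 * Polynomial.X + 275 * Polynomial.X ^ 2 -
    1500 * Polynomial.X ^ 3 + 4375 * Polynomial.X ^ 4 - 6250 * Polynomial.X ^ 5 +
    3125 * Polynomial.X ^ 6 := by
  unfold PG52; ring

theorem Pn52_eq : Pn52 = 1 - 10 * Polynomial.X + 35 * Polynomial.X ^ 2 -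
    60 * Polynomial.X ^ 3 + 55 * Polynomial.X ^ 4 - 25 * Polynomial.X ^ 5 +
    5 * Polynomial.X ^ 6 := by
  unfold Pn52; ring

theorem rev52_P : Rev 5 6 (5 : ℚ)⁻¹ Pn52 PG52 := by
  rw [Pn52_eq, PG52_eq]
  refine ⟨by compute_degree, by compute_degree, fun a b hab => ?_⟩
  have h : a = 0 ∧ b = 6 ∨ a = 1 ∧ b = 5 ∨ a = 2 ∧ b = 4 ∨ a = 3 ∧ b = 3 ∨ a = 4 ∧ b = 2 ∨
      a = 5 ∧ b = 1 ∨ a = 6 ∧ b = 0 := by
    omega
  rcases h with ⟨rfl, rfl⟩ | ⟨rfl, rfl⟩ | ⟨rfl, rfl⟩ | ⟨rfl, rfl⟩ | ⟨rfl, rfl⟩ | ⟨rfl, rfl⟩ |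
    ⟨rfl, rfl⟩ <;>
    simp [Polynomial.coeff_X, Polynomial.coeff_one, Polynomial.coeff_X_pow] <;> norm_num

/-- `1+20x-25x²`. -/
def ps52q : Polynomial ℚ := 1 + 20 * Polynomial.X - 25 * Polynomial.X ^ 2

/-- `1-4x-x²`. -/
def ns52q : Polynomial ℚ := 1 - 4 * Polynomial.X - Polynomial.X ^ 2

theorem rev52_q : Rev 5 2 (-1 : ℚ) ns52q ps52q := by
  unfold ns52q ps52q
  refine ⟨by compute_degree, by compute_degree, fun a b hab => ?_⟩
  have h : a = 0 ∧ b = 2 ∨ a = 1 ∧ b = 1 ∨ a = 2 ∧ b = 0 := by omega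
  rcases h with ⟨rfl, rfl⟩ | ⟨rfl, rfl⟩ | ⟨rfl, rfl⟩ <;>
    simp [Polynomial.coeff_X, Polynomial.coeff_one, Polynomial.coeff_X_pow] <;> norm_num

theorem rev52_l : Rev 5 1 (-1 : ℚ) (1 - Polynomial.X) (1 - 5 * Polynomial.X) := by
  refine ⟨by compute_degree, by compute_degree, fun a b hab => ?_⟩
  have h : a = 0 ∧ b = 1 ∨ a = 1 ∧ b = 0 := by omega
  rcases h with ⟨rfl, rfl⟩ | ⟨rfl, rfl⟩ <;>
    simp [Polynomial.coeff_X, Polynomial.coeff_one]

theorem e14_52 : PG52 - Polynomial.X * Polynomial.derivative PG52 =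
    (1 - 5 * Polynomial.X) ^ 4 * ps52q := by
  have hd : Polynomial.derivative PG52 = -(1 - 5 * Polynomial.X) ^ 5 -
      25 * (1 - Polynomial.X) * (1 - 5 * Polynomial.X) ^ 4 + 1 := by
    unfold PG52
    simp only [Polynomial.derivative_add, Polynomial.derivative_sub, Polynomial.derivative_mul,
      Polynomial.derivative_pow, Polynomial.derivative_one, Polynomial.derivative_X,
      Polynomial.derivative_ofNat]
    push_cast
    simp only [map_ofNat]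
    ring
  rw [hd]
  unfold PG52 ps52q
  ring

theorem n14_52 : Polynomial.C ((5 : ℕ) : ℚ) * Pn52 - Polynomial.X * Polynomial.derivative Pn52 =
    Polynomial.C ((5 : ℕ) : ℚ) * ((1 - Polynomial.X) ^ 4 * ns52q) := by
  have hd : Polynomial.derivative Pn52 = -5 * (1 - Polynomial.X) ^ 4 * (1 - 5 * Polynomial.X) -
      5 * (1 - Polynomial.X) ^ 5 + 5 * Polynomial.X ^ 4 := by
    unfold Pn52
    simp only [Polynomial.derivative_add, Polynomial.derivative_sub, Polynomial.derivative_mul,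
      Polynomial.derivative_pow, Polynomial.derivative_one, Polynomial.derivative_X,
      Polynomial.derivative_ofNat]
    push_cast
    simp only [map_ofNat]
    ring
  rw [hd]
  have hC : (Polynomial.C ((5 : ℕ) : ℚ)) = 5 := by
    push_cast
    rfl
  rw [hC]
  unfold Pn52 ns52q
  ring

theorem gs52_mul' (h0 : constantCoeff (S52 ℚ) = 1) : gs52 ℚ * S52 ℚ = X ^ 5 := by
  rw [gs52, mul_assoc, mul_comm (invOfUnit (S52 ℚ) 1),
    PowerSeries.mul_invOfUnit _ _ (by rw [h0]; simp), mul_one]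

theorem fix52_id (hf : Fix52) (h0 : constantCoeff (S52 ℚ) = 1) :
    S52 ℚ * TrJ.ev (X ^ 5 * invOfUnit (S52 ℚ) 1) PG52 = (Pn52 : PowerSeries ℚ) := by
  have h1 : (X ^ 5 * invOfUnit (S52 ℚ) 1 : PowerSeries ℚ) = gs52 ℚ := rfl
  have h2 : TrJ.ev (gs52 ℚ) PG52 = (1 - gs52 ℚ) * (1 - 5 * gs52 ℚ) ^ 5 + gs52 ℚ := by
    rw [PG52, TrJ.ev, map_add, map_mul, map_pow, map_sub, map_sub, map_mul, map_one,
      Polynomial.aeval_X, map_ofNat]
  have h3 : (Pn52 : PowerSeries ℚ) = (1 - X) ^ 5 * (1 - 5 * X) + X ^ 5 := by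
    rw [← Polynomial.coeToPowerSeries.ringHom_apply, Pn52, map_add, map_mul, map_pow, map_pow,
      map_sub, map_sub, map_mul, map_one, map_ofNat, Polynomial.coeToPowerSeries.ringHom_apply,
      Polynomial.coe_X]
  have h4 := hf ℚ
  have h5 := gs52_mul' h0
  rw [h1, h2, h3]
  linear_combination h4 + h5

/-- The input of `(5,2)` from the definition side. -/
structure In52 : Prop where
  fix : Fix52
  S0 : ∀ (R : Type) [CommRing R], constantCoeff (S52 R) = 1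
  gr : ∀ n, (5 : ℤ) ^ ((n + 5) / 6) ∣ coeff n (S52 ℤ)

/-- The trace structure of `(5,2)`, component `0`. -/
def dat52a (h : In52) : TrJ.Data where
  p := 5
  hp := by norm_num
  c := 5
  hc := by norm_num
  κ := 1
  κs := -1
  hκ := by norm_num
  μ := 0
  μs := 6
  hμ := rfl
  PG := PG52
  Pn := Pn52
  ψ := 1
  nψ := 1
  ψs := (1 - 5 * Polynomial.X) ^ 4 * ps52q
  ns := (1 - Polynomial.X) ^ 4 * ns52q
  PG0 := by
    rw [Polynomial.coeff_zero_eq_eval_zero]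
    simp [PG52]
  ψ0 := by simp
  ψs0 := by
    rw [Polynomial.coeff_zero_eq_eval_zero]
    simp [ps52q]
  dPG := rev52_P.2.1
  dPn := rev52_P.1
  dψ := by simp
  dnψ := by simp
  dψs := ((rev52_l.pow 4).mul rev52_q).2.1
  dns := ((rev52_l.pow 4).mul rev52_q).1
  rP := by
    intro a b hab
    have h := rev52_P.2.2 a b hab
    rw [← h]
    ring
  rψ := by
    intro a b hab
    have ha : a = 0 := by omega
    have hb : b = 0 := by omega
    subst ha hb
    simp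
  rs := by
    intro a b hab
    have h := ((rev52_l.pow 4).mul rev52_q).2.2 a b hab
    rw [← h]
    norm_num
  e14 := by rw [e14_52, one_mul]
  n14 := by rw [n14_52, one_mul]
  hκκ := by norm_num
  Q := S52 ℚ
  Qi := invOfUnit (S52 ℚ) 1
  Q0 := h.S0 ℚ
  hQ := PowerSeries.mul_invOfUnit _ _ (by rw [h.S0]; simp)
  fix := fix52_id h.fix (h.S0 ℚ)

/-- The trace structure of `(5,2)`, component `1`. -/
def dat52b (h : In52) : TrJ.Data where
  p := 5
  hp := by norm_num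
  c := 5
  hc := by norm_num
  κ := -1
  κs := 1
  hκ := by norm_num
  μ := 2
  μs := 4
  hμ := rfl
  PG := PG52
  Pn := Pn52
  ψ := ps52q
  nψ := ns52q
  ψs := (1 - 5 * Polynomial.X) ^ 4
  ns := (1 - Polynomial.X) ^ 4
  PG0 := by
    rw [Polynomial.coeff_zero_eq_eval_zero]
    simp [PG52]
  ψ0 := by
    rw [Polynomial.coeff_zero_eq_eval_zero]
    simp [ps52q]
  ψs0 := by
    rw [Polynomial.coeff_zero_eq_eval_zero]
    simp
  dPG := rev52_P.2.1
  dPn := rev52_P.1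
  dψ := rev52_q.2.1
  dnψ := rev52_q.1
  dψs := (rev52_l.pow 4).2.1
  dns := (rev52_l.pow 4).1
  rP := by
    intro a b hab
    have h := rev52_P.2.2 a b hab
    rw [← h]
    ring
  rψ := fun a b hab => rev52_q.2.2 a b hab
  rs := by
    intro a b hab
    have h := (rev52_l.pow 4).2.2 a b hab
    rw [← h]
    norm_num
  e14 := by rw [e14_52]; ring
  n14 := by rw [n14_52]; ring
  hκκ := by norm_num
  Q := S52 ℚ
  Qi := invOfUnit (S52 ℚ) 1
  Q0 := h.S0 ℚ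
  hQ := PowerSeries.mul_invOfUnit _ _ (by rw [h.S0]; simp)
  fix := fix52_id h.fix (h.S0 ℚ)

/-- `S⁻¹ n_s(h)/ψ_s(g)`. -/
def F52 (c : ℕ) (R : Type) [CommRing R] : PowerSeries R :=
  invOfUnit (S52 R) 1 * ns52 c (X : PowerSeries R) * invOfUnit (ps52 c (gs52 R)) 1

/-- The data of `(5,2)`, component `c = 0, 1`. -/
def par52 (h : In52) (c : ℕ) : Par 5 where
  d := 6
  e := 1
  D := if c = 0 then 6 else 4
  cen := cenLN (2 + c)
  t := tLN (2 + c)
  s := sLN (2 + c)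
  S := S52 ℤ_[5]
  Tv := invOfUnit (S52 ℤ_[5]) 1
  F := F52 c ℤ_[5]
  dat _ := if c = 0 then dat52a h else dat52b h

end GH.LM
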