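import Pool.Agent.GH.LM.Stm

/-!
# GH-LM: the full determinant at a centre
-/

noncomputable section

namespace GH.LM

theorem full_sum (n : ℕ) (f : ℕ → ℚ) :
    ∑ j : Fin n, f ((j : ℕ) + 1) = ∑ i ∈ Finset.Icc 1 n, f i := by
  rw [Fin.sum_univ_eq_sum_range (fun j => f (j + 1)) n, Finset.range_eq_Ico,
    Finset.sum_Ico_add' f 0 n 1]
  refine Finset.sum_congr ?_ fun _ _ => rfl
  ext i
  rw [Finset.mem_Ico, Finset.mem_Icc]
  omega

/-- The matrix `T - 1`. -/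
theorem full_det_one (D : TrJ.Data) (z n : ℕ) (hn : n + 1 = D.m z) :
    (Matrix.of fun i j : Fin n =>
      (D.T z ((i : ℕ) + 1) ((j : ℕ) + 1) - if i = j then 1 else 0)).det =
      (-1) ^ n * (1 - ((D.p : ℚ) + 1)) ^ z := by
  obtain ⟨y, hxy, hyx⟩ := D.rank z
  set X : Matrix (Fin n) (Fin z) ℚ :=
    Matrix.of fun i l => (D.xl z ((l : ℕ) + 1)).coeff ((i : ℕ) + 1) with hX
  set Y : Matrix (Fin z) (Fin n) ℚ :=
    Matrix.of fun l j => y ((l : ℕ) + 1) ((j : ℕ) + 1) with hY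
  have h1 : (Matrix.of fun i j : Fin n =>
      (D.T z ((i : ℕ) + 1) ((j : ℕ) + 1) - if i = j then 1 else 0)) = -(1 - X * Y) := by
    ext i j
    rw [Matrix.neg_apply, Matrix.sub_apply, Matrix.mul_apply, Matrix.one_apply, Matrix.of_apply,
      hxy ((i : ℕ) + 1) ((j : ℕ) + 1) (by omega) (by have := j.2; omega)]
    simp only [hX, hY, Matrix.of_apply]
    rw [full_sum z fun l => (D.xl z l).coeff ((i : ℕ) + 1) * y l ((j : ℕ) + 1)]
    ring
  have h2 : Y * X = ((D.p : ℚ) + 1) • (1 : Matrix (Fin z) (Fin z) ℚ) := by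
    ext l l'
    rw [Matrix.mul_apply, Matrix.smul_apply, Matrix.one_apply]
    simp only [hX, hY, Matrix.of_apply]
    have h3 : D.m z - 1 = n := by omega
    have h4 := hyx ((l : ℕ) + 1) (Finset.mem_Icc.2 ⟨by omega, by have := l.2; omega⟩)
      ((l' : ℕ) + 1) (Finset.mem_Icc.2 ⟨by omega, by have := l'.2; omega⟩)
    rw [h3] at h4
    rw [full_sum n fun i => y ((l : ℕ) + 1) i * (D.xl z ((l' : ℕ) + 1)).coeff i, h4]
    by_cases hl : l = l'
    · rw [if_pos (by rw [hl]), if_pos hl, smul_eq_mul, mul_one]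
    · rw [if_neg (fun h => hl (Fin.ext (by omega))), if_neg hl, smul_zero]
  have h3 : (1 : Matrix (Fin z) (Fin z) ℚ) - Y * X =
      (1 - ((D.p : ℚ) + 1)) • (1 : Matrix (Fin z) (Fin z) ℚ) := by
    rw [h2]
    ext l l'
    simp only [Matrix.sub_apply, Matrix.smul_apply, Matrix.one_apply, smul_eq_mul]
    ring
  rw [h1, Matrix.det_neg, Matrix.det_one_sub_mul_comm, h3, Matrix.det_smul, Matrix.det_one,
    Fintype.card_fin, Fintype.card_fin, mul_one]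

variable {p : ℕ} [Fact p.Prime] (P : Par p)

theorem full_entry (hn : P.Num) (m n : ℕ) (hc : n + 1 = P.cen m) (i j : Fin n) :
    (P.dat m).M (P.t m) ((i : ℕ) + 1) ((Fin.rev j : ℕ) + 1) = P.kap m (Fin.rev j) *
      ((P.dat m).T (P.t m) ((i : ℕ) + 1) ((j : ℕ) + 1) - if i = j then 1 else 0) := by
  have hj := j.2
  have h1 : (Fin.rev j : ℕ) + 1 = P.cen m - ((j : ℕ) + 1) := by
    rw [Fin.val_rev]
    omega
  have h2 : (if (i : ℕ) + 1 = (j : ℕ) + 1 then (1 : ℚ) else 0) = if i = j then 1 else 0 := by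
    by_cases hij : i = j
    · simp [hij]
    · rw [if_neg hij, if_neg (fun h => hij (Fin.ext (by omega)))]
  have h3 : P.cen m - (P.cen m - ((j : ℕ) + 1)) = (j : ℕ) + 1 := by omega
  have hp : (p : ℚ) ≠ 0 := Nat.cast_ne_zero.2 (Fact.out : p.Prime).ne_zero
  have hK : (P.dat m).σ * (P.dat m).c ^ ((P.t m : ℤ) - (((j : ℕ) + 1 : ℕ) : ℤ)) ≠ 0 := by
    have hc0 : (P.dat m).c ≠ 0 := by
      intro h
      have h5 := hn.dc m
      rw [h, abs_zero] at h5
      exact pow_ne_zero _ hp h5.symm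
    exact mul_ne_zero (P.dat m).σ_ne (zpow_ne_zero _ hc0)
  unfold Par.kap TrJ.Data.T
  rw [h2, h1, h3, hn.dm, add_sub_cancel_left, ← mul_assoc, inv_mul_cancel₀ hK, one_mul]

/-- The determinant over `ℚ`, columns reversed. -/
theorem full_det (hn : P.Num) (m n : ℕ) (hc : n + 1 = P.cen m) :
    ((Matrix.of fun i j : Fin n => (P.dat m).M (P.t m) ((i : ℕ) + 1) ((j : ℕ) + 1)).submatrix id
      Fin.revPerm).det =
      (∏ j ∈ Finset.Ico 0 n, P.kap m j) * ((-1) ^ n * (-(p : ℚ)) ^ P.t m) := by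
  have h0 : (1 - (((P.dat m).p : ℚ) + 1)) = -(p : ℚ) := by
    rw [hn.dp]
    ring
  have h1 : ∏ j ∈ Finset.Ico 0 n, P.kap m j = ∏ j : Fin n, P.kap m (Fin.rev j : ℕ) := by
    rw [← Finset.range_eq_Ico, ← Fin.prod_univ_eq_prod_range (fun j => P.kap m j) n]
    exact (Equiv.prod_comp Fin.revPerm fun j : Fin n => P.kap m (j : ℕ)).symm
  rw [← h0, ← full_det_one (P.dat m) (P.t m) n (by rw [hn.dm, hc]), h1, ← Matrix.det_mul_row]
  congr 1
  ext i j
  rw [Matrix.submatrix_apply, Matrix.of_apply, Matrix.of_apply, Matrix.of_apply, id,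
    Fin.revPerm_apply]
  exact full_entry P hn m n hc i j

theorem full_lead (hv : P.Val) (m n : ℕ) :
    (((Pot.lead P.PM n).eval (m : ℤ_[p]) : ℤ_[p]) : ℚ_[p]) =
      (((Matrix.of fun i j : Fin n =>
        (P.dat m).M (P.t m) ((i : ℕ) + 1) ((j : ℕ) + 1)).det : ℚ) : ℚ_[p]) := by
  have h1 : (((Pot.lead P.PM n).eval (m : ℤ_[p]) : ℤ_[p]) : ℚ_[p]) =
      (PadicInt.Coe.ringHom.comp (Polynomial.evalRingHom (m : ℤ_[p]))) (Pot.lead P.PM n) := rfl
  have h2 : (((Matrix.of fun i j : Fin n =>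
      (P.dat m).M (P.t m) ((i : ℕ) + 1) ((j : ℕ) + 1)).det : ℚ) : ℚ_[p]) = (Rat.castHom ℚ_[p])
        (Matrix.of fun i j : Fin n =>
          (P.dat m).M (P.t m) ((i : ℕ) + 1) ((j : ℕ) + 1)).det := rfl
  rw [h1, h2, Pot.lead, Pot.minor, RingHom.map_det, RingHom.map_det]
  congr 1
  ext i j
  exact hv m i j

theorem spFull (hn : P.Num) (hv : P.Val) (hk : P.KapProd) : P.SpFull := by
  intro m n hc
  have h1 := Matrix.det_permute' (Fin.revPerm (n := n))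
    (Matrix.of fun i j : Fin n => (P.dat m).M (P.t m) ((i : ℕ) + 1) ((j : ℕ) + 1))
  rw [full_det P hn m n hc] at h1
  have h2 : ∀ k : ℕ, ‖((-1 : ℚ_[p]) ^ k)‖ = 1 := by
    intro k
    rw [norm_pow, norm_neg, norm_one, one_pow]
  have h3 : ‖((((Equiv.Perm.sign (Fin.revPerm (n := n)) : ℤˣ) : ℤ) : ℚ) : ℚ_[p])‖ = 1 := by
    rcases Int.units_eq_one_or (Equiv.Perm.sign (Fin.revPerm (n := n))) with h | h <;> rw [h] <;>
      simp
  have h4 : ‖(p : ℚ_[p])‖ = (p : ℝ)⁻¹ := Padic.norm_p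
  have hp0 : (p : ℝ) ≠ 0 := Nat.cast_ne_zero.2 (Fact.out : p.Prime).ne_zero
  have h5 := congrArg (fun q : ℚ => ‖(q : ℚ_[p])‖) h1
  simp only [Rat.cast_mul, norm_mul] at h5
  rw [h3, one_mul] at h5
  have h6 := hk m n 0 (Nat.zero_le _) (by rw [add_zero]; exact hc)
  have h7 : ‖((∏ j ∈ Finset.Ico 0 n, P.kap m j : ℚ) : ℚ_[p])‖ =
      (p : ℝ) ^ (-(((n - 0) * P.s m : ℕ) : ℤ)) := by
    rw [← h6, Rat.cast_prod]
  rw [PadicInt.norm_def, full_lead P hv m n, ← h5, h7]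
  push_cast
  rw [h2, norm_pow, norm_neg, h4, one_mul, inv_pow, neg_add, zpow_add₀ hp0,
    zpow_neg (p : ℝ) (P.t m : ℤ), zpow_natCast, Nat.sub_zero]

end GH.LM
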