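import Pool.Agent.GH.LM.Full
import Pool.Agent.GH.LM.Dat32
import Pool.Agent.GH.LM.Dat34
import Pool.Agent.GH.LM.Dat52

/-!
# GH-LM, instances: the base determinants
-/

open PowerSeries

noncomputable section

namespace GH.LM

open GH.TrJ GH.CombU GH.D34 GH.D52

/-! ### Truncated series -/

/-- The series with the given coefficients. -/
def ibz : List ℤ → PowerSeries ℚ
  | [] => 0
  | a :: l => (a : PowerSeries ℚ) + X * ibz l

theorem coeff_ibz (l : List ℤ) : ∀ n, coeff n (ibz l) = (l.getD n 0 : ℤ) := by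
  induction l with
  | nil => intro n; simp [ibz]
  | cons a l ih =>
    intro n
    have h : (a : PowerSeries ℚ) = PowerSeries.C (a : ℚ) :=
      (map_intCast (PowerSeries.C (R := ℚ)) a).symm
    cases n with
    | zero =>
      rw [ibz, map_add, h, coeff_zero_X_mul, add_zero, coeff_zero_C]
      rfl
    | succ n =>
      rw [ibz, map_add, h, coeff_succ_X_mul, ih, coeff_C, if_neg (Nat.succ_ne_zero n), zero_add]
      rfl

theorem ib_coeff {F W : PowerSeries ℚ} {l : List ℤ} {N : ℕ} (h : F = ibz l + X ^ N * W) (n : ℕ)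
    (hn : n < N) : coeff n F = (l.getD n 0 : ℤ) := by
  rw [h, map_add, coeff_ibz, coeff_X_pow_mul', if_neg (by omega), add_zero]

/-! ### Numbers -/

theorem ib_norm (p : ℕ) [Fact p.Prime] (a : ℤ) (k : ℕ) (h : ¬ (p : ℤ) ∣ a) :
    ‖((((p : ℤ) ^ k * a : ℤ) : ℚ) : ℚ_[p])‖ = (p : ℝ) ^ (-(k : ℤ)) := by
  have h1 : ((((p : ℤ) ^ k * a : ℤ) : ℚ) : ℚ_[p]) = (p : ℚ_[p]) ^ k * (a : ℚ_[p]) := by
    push_cast
    rfl
  have h2 : ‖(a : ℚ_[p])‖ = 1 := by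
    refine le_antisymm (Padic.norm_int_le_one a) ?_
    by_contra hc
    push Not at hc
    exact h (Padic.norm_intCast_lt_one_iff.1 hc)
  rw [h1, norm_mul, norm_pow, h2, mul_one, Padic.norm_p, zpow_neg, zpow_natCast, inv_pow]

theorem ib_FF {p : ℕ} [Fact p.Prime] (P : Par p) (n : ℕ) (m0 : ℤ)
    (h : ∀ m ∈ Finset.range (P.Z n), P.T n m = 0 ∨ ¬ (p : ℤ) ∣ m0 - m) :
    P.FF n m0 = P.B n := by
  unfold Par.FF
  rw [Finset.sum_eq_zero, add_zero]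
  intro m hm
  rcases h m hm with h1 | h1
  · rw [h1, zero_mul]
  · rw [padicValInt.eq_zero_of_not_dvd h1, mul_zero]

theorem ib_base {p : ℕ} [Fact p.Prime] (P : Par p) (hv : P.Val) (n : ℕ) (d a : ℤ) (k : ℕ)
    (hd : (Matrix.of fun i j : Fin n => (P.dat 0).M (P.t 0) ((i : ℕ) + 1) ((j : ℕ) + 1)).det =
      (d : ℚ)) (hda : d = (p : ℤ) ^ k * a) (ha : ¬ (p : ℤ) ∣ a)
    (h0 : P.T n 0 = 0) (hB : P.B n = k)
    (hF : ∀ m ∈ Finset.range (P.Z n), P.T n m = 0 ∨ ¬ (p : ℤ) ∣ (0 : ℤ) - m) :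
    ∃ m0 : ℤ, (∀ m : ℕ, m0 = m → P.T n m = 0) ∧
      ‖(Pot.lead P.PM n).eval (m0 : ℤ_[p])‖ = (p : ℝ) ^ (-((P.FF n m0 : ℕ) : ℤ)) := by
  refine ⟨0, fun m hm => ?_, ?_⟩
  · have : m = 0 := by omega
    rw [this]
    exact h0
  · have h1 := full_lead P hv 0 n
    rw [hd, hda] at h1
    rw [ib_FF P n 0 hF, hB, ← ib_norm p a k ha, ← h1, PadicInt.norm_def]
    simp

theorem ib_hf {p : ℕ} [Fact p.Prime] (P : Par p) (hf : P.SpFull) (n : ℕ)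
    (hc : n + 1 = P.cen 1) (h0 : P.T n 1 = 0) (hB : P.B n = n * P.s 1 + P.t 1)
    (hF : ∀ m ∈ Finset.range (P.Z n), P.T n m = 0 ∨ ¬ (p : ℤ) ∣ (1 : ℤ) - m) :
    ∃ m0 : ℤ, (∀ m : ℕ, m0 = m → P.T n m = 0) ∧
      ‖(Pot.lead P.PM n).eval (m0 : ℤ_[p])‖ = (p : ℝ) ^ (-((P.FF n m0 : ℕ) : ℤ)) := by
  refine ⟨1, fun m hm => ?_, ?_⟩
  · have : m = 1 := by omega
    rw [this]
    exact h0
  · have h1 := hf 1 n hc
    rw [ib_FF P n 1 hF, hB, ← h1]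
    simp

/-! ### `(3,2)` -/

theorem base32 (h : In32) : (par32 h).Base := by
  intro n hn
  left
  refine ⟨n, n - 1, by omega, ?_, ?_⟩
  · show n + (n - 1) + 1 = 2 * n
    omega
  · show n / 2 ≤ n - 1
    omega

/-! ### `(3,4)` -/

theorem ib34 (h : In34) : (dat34 h).M 0 1 1 = -2 := by
  set S := S34 ℚ
  set u := invOfUnit S 1
  have hu : S * u = 1 := PowerSeries.mul_invOfUnit _ _ (by rw [h.S0]; simp)
  set g : PowerSeries ℚ := X ^ 3 * u with hg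
  have hev : TrJ.ev g (ps34q ^ 2) = (1 - 9 * g ^ 2) ^ 2 := by
    rw [ps34q, TrJ.ev, map_pow, map_sub, map_mul, map_pow, map_one, Polynomial.aeval_X, map_ofNat]
  have hns : ((ns34q ^ 2 : Polynomial ℚ) : PowerSeries ℚ) = (1 - X ^ 2) ^ 2 := by
    rw [← Polynomial.coeToPowerSeries.ringHom_apply, ns34q, map_pow, map_sub, map_pow, map_one,
      Polynomial.coeToPowerSeries.ringHom_apply, Polynomial.coe_X]
  have h1 : (dat34 h).M 0 1 1 = coeff 2 (S ^ 1 * u ^ (0 + 1) * ((ns34q ^ 2 : Polynomial ℚ) :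
      PowerSeries ℚ) * (TrJ.ev g (ps34q ^ 2))⁻¹) := rfl
  rw [h1, hev, hns]
  set V := ((1 - 9 * g ^ 2) ^ 2)⁻¹
  have hV : V * (1 - 9 * g ^ 2) ^ 2 = 1 := PowerSeries.inv_mul_cancel _ (by simp [hg])
  have h2 : S ^ 1 * u ^ (0 + 1) * (1 - X ^ 2) ^ 2 * V = ibz [1, 0, -2] +
      X ^ 4 * (1 + (1 - X ^ 2) ^ 2 * X ^ 2 * u ^ 2 * (V * (18 - 81 * g ^ 2))) := by
    simp only [ibz]
    push_cast
    rw [hg] at hV ⊢
    linear_combination ((1 - X ^ 2) ^ 2 * V) * hu + (1 - X ^ 2) ^ 2 * hV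
  rw [ib_coeff h2 2 (by norm_num)]
  norm_num

theorem base34 (h : In34) (hf : (par34 h).SpFull) (hv : (par34 h).Val) : (par34 h).Base := by
  intro n hn
  by_cases h1 : n = 1
  · subst h1
    right
    refine ib_base (par34 h) hv 1 (-2) (-2) 0 ?_ (by norm_num) (by decide) rfl rfl ?_
    swap
    · show ∀ m ∈ Finset.range (ZLN 1), TLN 1 1 m = 0 ∨ ¬ (3 : ℤ) ∣ (0 : ℤ) - m
      decide
    rw [Matrix.det_fin_one]
    show (dat34 h).M 0 1 1 = _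
    rw [ib34]
    norm_num
  by_cases h3 : n = 3
  · subst h3
    right
    refine ib_hf (par34 h) hf 3 rfl rfl rfl ?_
    show ∀ m ∈ Finset.range (ZLN 3), TLN 1 3 m = 0 ∨ ¬ (3 : ℤ) ∣ (1 : ℤ) - m
    decide
  left
  refine ⟨n / 2, 4 * (n / 2) - 1 - n, by omega, ?_, ?_⟩
  · show n + (4 * (n / 2) - 1 - n) + 1 = 4 * (n / 2)
    omega
  · show n / 2 ≤ 4 * (n / 2) - 1 - n
    omega

/-! ### `(5,2)` -/

/-- The first coefficients of `S`. -/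
theorem ib52_S {S u : PowerSeries ℚ} (hu : S * u = 1)
    (hf : S * ((1 - X ^ 5 * u) * (1 - 5 * (X ^ 5 * u)) ^ 5) = (1 - X) ^ 5 * (1 - 5 * X)) :
    ∃ Y : PowerSeries ℚ, S = 1 - 10 * X + 35 * X ^ 2 - 60 * X ^ 3 + 55 * X ^ 4 + 5 * X ^ 6 -
      275 * X ^ 10 - 2750 * X ^ 11 - 17875 * X ^ 12 - 99000 * X ^ 13 - 514250 * X ^ 14 +
      X ^ 15 * Y := by
  set g : PowerSeries ℚ := X ^ 5 * u with hg
  have e1 : S = (1 - X) ^ 5 * (1 - 5 * X) + 26 * X ^ 5 - 275 * (X ^ 5 * g) +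
      X ^ 5 * g ^ 2 * (1500 - 4375 * g + 6250 * g ^ 2 - 3125 * g ^ 3) := by
    linear_combination hf - X ^ 5 * (-26 + 275 * g - 1500 * g ^ 2 + 4375 * g ^ 3 -
      6250 * g ^ 4 + 3125 * g ^ 5) * hu
  obtain ⟨Y5, hY⟩ : ∃ Y5 : PowerSeries ℚ,
      S = 1 - 10 * X + 35 * X ^ 2 - 60 * X ^ 3 + 55 * X ^ 4 + X ^ 5 * Y5 :=
    ⟨5 * X - 275 * g + g ^ 2 * (1500 - 4375 * g + 6250 * g ^ 2 - 3125 * g ^ 3), by
      rw [e1]
      ring⟩
  obtain ⟨Z, hZ⟩ : ∃ Z : PowerSeries ℚ,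
      u = 1 + 10 * X + 65 * X ^ 2 + 360 * X ^ 3 + 1870 * X ^ 4 + X ^ 5 * Z :=
    ⟨-(u * (-9450 + 47425 * X - 92400 * X ^ 2 + 102850 * X ^ 3 +
      Y5 * (1 + 10 * X + 65 * X ^ 2 + 360 * X ^ 3 + 1870 * X ^ 4))), by
      linear_combination (1 + 10 * X + 65 * X ^ 2 + 360 * X ^ 3 + 1870 * X ^ 4) * hu -
        u * (1 + 10 * X + 65 * X ^ 2 + 360 * X ^ 3 + 1870 * X ^ 4) * hY⟩
  refine ⟨-275 * Z + u ^ 2 * (1500 - 4375 * g + 6250 * g ^ 2 - 3125 * g ^ 3), ?_⟩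
  rw [e1]
  have e2 : g = X ^ 5 * (1 + 10 * X + 65 * X ^ 2 + 360 * X ^ 3 + 1870 * X ^ 4 + X ^ 5 * Z) := by
    rw [hg, ← hZ]
  linear_combination (-275 * X ^ 5) * e2 +
    X ^ 5 * (1500 - 4375 * g + 6250 * g ^ 2 - 3125 * g ^ 3) * (g + X ^ 5 * u) * hg

/-- The fixed data. -/
theorem ib52_in (h : In52) :
    S52 ℚ * ((1 - X ^ 5 * invOfUnit (S52 ℚ) 1) * (1 - 5 * (X ^ 5 * invOfUnit (S52 ℚ) 1)) ^ 5) =
      (1 - X) ^ 5 * (1 - 5 * X) := h.fix ℚ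

theorem ib52_ns4 : (((1 - Polynomial.X) ^ 4 : Polynomial ℚ) : PowerSeries ℚ) = (1 - X) ^ 4 := by
  rw [← Polynomial.coeToPowerSeries.ringHom_apply, map_pow, map_sub, map_one,
    Polynomial.coeToPowerSeries.ringHom_apply, Polynomial.coe_X]

theorem ib52_nsq : ((ns52q : Polynomial ℚ) : PowerSeries ℚ) = 1 - 4 * X - X ^ 2 := by
  rw [← Polynomial.coeToPowerSeries.ringHom_apply, ns52q, map_sub, map_sub, map_mul, map_pow,
    map_one, map_ofNat, Polynomial.coeToPowerSeries.ringHom_apply, Polynomial.coe_X]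

theorem ib52_ev4 (g : PowerSeries ℚ) : TrJ.ev g ((1 - 5 * Polynomial.X) ^ 4) =
    (1 - 5 * g) ^ 4 := by
  rw [TrJ.ev, map_pow, map_sub, map_mul, map_one, map_ofNat, Polynomial.aeval_X]

theorem ib52_evq (g : PowerSeries ℚ) : TrJ.ev g ps52q = 1 + 20 * g - 25 * g ^ 2 := by
  rw [TrJ.ev, ps52q, map_sub, map_add, map_mul, map_mul, map_pow, map_one, map_ofNat, map_ofNat,
    Polynomial.aeval_X]

theorem ib52a (h : In52) : (dat52a h).M 0 1 1 = 11 ∧ (dat52a h).M 0 1 2 = -24 ∧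
    (dat52a h).M 0 2 1 = -60 ∧ (dat52a h).M 0 2 2 = 675 := by
  obtain ⟨Y, hY⟩ := ib52_S (PowerSeries.mul_invOfUnit _ _ (by rw [h.S0]; simp)) (ib52_in h)
  have hM : ∀ i j, (dat52a h).M 0 i j = if j ≤ 5 * i then coeff (5 * i - j)
      (S52 ℚ ^ i * invOfUnit (S52 ℚ) 1 ^ (0 + 1) *
        (((1 - Polynomial.X) ^ 4 * ns52q : Polynomial ℚ) : PowerSeries ℚ) *
        (TrJ.ev (X ^ 5 * invOfUnit (S52 ℚ) 1) ((1 - 5 * Polynomial.X) ^ 4 * ps52q))⁻¹) else 0 :=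
    fun i j => rfl
  set S := S52 ℚ
  set u := invOfUnit S 1
  have hu : S * u = 1 := PowerSeries.mul_invOfUnit _ _ (by rw [h.S0]; simp)
  set g : PowerSeries ℚ := X ^ 5 * u with hg
  have hgS : S * g = X ^ 5 := by
    rw [hg]
    linear_combination X ^ 5 * hu
  rw [TrJ.ev, map_mul, ← TrJ.ev, ← TrJ.ev, ib52_ev4, ib52_evq, Polynomial.coe_mul, ib52_ns4,
    ib52_nsq] at hM
  set V := ((1 - 5 * g) ^ 4 * (1 + 20 * g - 25 * g ^ 2))⁻¹
  have hV : V * ((1 - 5 * g) ^ 4 * (1 + 20 * g - 25 * g ^ 2)) = 1 :=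
    PowerSeries.inv_mul_cancel _ (by simp [hg])
  have hV2 : V = 1 + g ^ 2 * (V * (275 - 3000 * g + 13125 * g ^ 2 - 25000 * g ^ 3 +
      15625 * g ^ 4)) := by
    linear_combination hV
  set W := V * (275 - 3000 * g + 13125 * g ^ 2 - 25000 * g ^ 3 + 15625 * g ^ 4)
  have h1 : S ^ 1 * u ^ (0 + 1) * ((1 - X) ^ 4 * (1 - 4 * X - X ^ 2)) * V =
      ibz [1, -8, 21, -24, 11] + X ^ 5 * (-X +
        ((1 - X) ^ 4 * (1 - 4 * X - X ^ 2)) * u * g * W) := by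
    simp only [ibz]
    push_cast
    linear_combination ((1 - X) ^ 4 * (1 - 4 * X - X ^ 2)) * V * hu +
      ((1 - X) ^ 4 * (1 - 4 * X - X ^ 2)) * hV2 +
      ((1 - X) ^ 4 * (1 - 4 * X - X ^ 2)) * g * W * hg
  have h2 : S ^ 2 * u ^ (0 + 1) * ((1 - X) ^ 4 * (1 - 4 * X - X ^ 2)) * V =
      ibz [1, -18, 136, -574, 1521, -2650, 2984, -2010, 675, -60] + X ^ 10 * (-5 * X ^ 2 +
        ((1 - X) ^ 4 * (1 - 4 * X - X ^ 2)) * (-275 - 2750 * X - 17875 * X ^ 2 -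
          99000 * X ^ 3 - 514250 * X ^ 4 + X ^ 5 * Y + u * W)) := by
    simp only [ibz]
    push_cast
    linear_combination ((1 - X) ^ 4 * (1 - 4 * X - X ^ 2)) * V * S * hu +
      ((1 - X) ^ 4 * (1 - 4 * X - X ^ 2)) * S * hV2 +
      ((1 - X) ^ 4 * (1 - 4 * X - X ^ 2)) * W * g * hgS +
      ((1 - X) ^ 4 * (1 - 4 * X - X ^ 2)) * W * X ^ 5 * hg +
      ((1 - X) ^ 4 * (1 - 4 * X - X ^ 2)) * hY
  refine ⟨?_, ?_, ?_, ?_⟩
  · rw [hM, if_pos (by norm_num), ib_coeff h1 _ (by norm_num)]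
    norm_num
  · rw [hM, if_pos (by norm_num), ib_coeff h1 _ (by norm_num)]
    norm_num
  · rw [hM, if_pos (by norm_num), ib_coeff h2 _ (by norm_num)]
    norm_num
  · rw [hM, if_pos (by norm_num), ib_coeff h2 _ (by norm_num)]
    norm_num

theorem ib52b (h : In52) : ((dat52b h).M 0 1 1 = 1 ∧ (dat52b h).M 0 1 2 = -4 ∧
    (dat52b h).M 0 1 3 = 6) ∧ ((dat52b h).M 0 2 1 = 0 ∧ (dat52b h).M 0 2 2 = 5 ∧
    (dat52b h).M 0 2 3 = -180) ∧ (dat52b h).M 0 3 1 = 0 ∧ (dat52b h).M 0 3 2 = 0 ∧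
    (dat52b h).M 0 3 3 = 1300 := by
  obtain ⟨Y, hY⟩ := ib52_S (PowerSeries.mul_invOfUnit _ _ (by rw [h.S0]; simp)) (ib52_in h)
  have hM : ∀ i j, (dat52b h).M 0 i j = if j ≤ 5 * i then coeff (5 * i - j)
      (S52 ℚ ^ i * invOfUnit (S52 ℚ) 1 ^ (0 + 1) *
        (((1 - Polynomial.X) ^ 4 : Polynomial ℚ) : PowerSeries ℚ) *
        (TrJ.ev (X ^ 5 * invOfUnit (S52 ℚ) 1) ((1 - 5 * Polynomial.X) ^ 4))⁻¹) else 0 :=
    fun i j => rfl
  set S := S52 ℚ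
  set u := invOfUnit S 1
  have hu : S * u = 1 := PowerSeries.mul_invOfUnit _ _ (by rw [h.S0]; simp)
  set g : PowerSeries ℚ := X ^ 5 * u with hg
  have hgS : S * g = X ^ 5 := by
    rw [hg]
    linear_combination X ^ 5 * hu
  rw [ib52_ev4, ib52_ns4] at hM
  set V := ((1 - 5 * g) ^ 4)⁻¹
  have hV : V * (1 - 5 * g) ^ 4 = 1 := PowerSeries.inv_mul_cancel _ (by simp [hg])
  have hV2 : V = 1 + 20 * g + 250 * g ^ 2 + g ^ 3 * (V * (2500 - 28125 * g + 112500 * g ^ 2 -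
      156250 * g ^ 3)) := by
    linear_combination (1 + 20 * g + 250 * g ^ 2) * hV
  set W := V * (2500 - 28125 * g + 112500 * g ^ 2 - 156250 * g ^ 3)
  have h1 : S ^ 1 * u ^ (0 + 1) * (1 - X) ^ 4 * V =
      ibz [1, -4, 6, -4, 1] + X ^ 5 * ((1 - X) ^ 4 * (u * (20 + 250 * g + g ^ 2 * W))) := by
    simp only [ibz]
    push_cast
    linear_combination (1 - X) ^ 4 * V * hu + (1 - X) ^ 4 * hV2 +
      (1 - X) ^ 4 * (20 + 250 * g + g ^ 2 * W) * hg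
  have h2 : S ^ 2 * u ^ (0 + 1) * (1 - X) ^ 4 * V =
      ibz [1, -14, 81, -264, 546, -710, 530, -180, 5, 0] + X ^ 10 * (5 +
        (1 - X) ^ 4 * (-275 - 2750 * X - 17875 * X ^ 2 - 99000 * X ^ 3 - 514250 * X ^ 4 +
          X ^ 5 * Y + u * (250 + g * W))) := by
    simp only [ibz]
    push_cast
    linear_combination (1 - X) ^ 4 * V * S * hu + (1 - X) ^ 4 * S * hV2 +
      (1 - X) ^ 4 * (20 + 250 * g + g ^ 2 * W) * hgS +
      (1 - X) ^ 4 * X ^ 5 * (250 + g * W) * hg + (1 - X) ^ 4 * hY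
  have h3 : S ^ 3 * u ^ (0 + 1) * (1 - X) ^ 4 * V =
      ibz [1, -24, 256, -1624, 6916, -21040, 47040, -77680, 93390, -78520, 42560, -12600, 1300,
        0, 0] + X ^ 15 * ((5192000 - 46909475 * X + 186153000 * X ^ 2 - 438083250 * X ^ 3 +
        635998000 * X ^ 4 - 540205875 * X ^ 5 + 239470000 * X ^ 6 - 32683750 * X ^ 7 +
        101255000 * X ^ 8 + 629048750 * X ^ 9 + 2628725000 * X ^ 10 + 9002400000 * X ^ 11 +
        22850850000 * X ^ 12 + 1956040625 * X ^ 13 - 553257375000 * X ^ 14 +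
        1207617812500 * X ^ 15 - 955990750000 * X ^ 16 + 264453062500 * X ^ 17) +
        (1 - X) ^ 4 * (Y * (S + (1 - 10 * X + 35 * X ^ 2 - 60 * X ^ 3 + 55 * X ^ 4 +
          5 * X ^ 6 - 275 * X ^ 10 - 2750 * X ^ 11 - 17875 * X ^ 12 - 99000 * X ^ 13 -
          514250 * X ^ 14)) + 20 * X ^ 5 * Y + u * W)) := by
    simp only [ibz]
    push_cast
    linear_combination (1 - X) ^ 4 * V * S ^ 2 * hu + (1 - X) ^ 4 * S ^ 2 * hV2 +
      (1 - X) ^ 4 * (20 * S + 250 * (S * g + X ^ 5) + g * W * (S * g + X ^ 5)) * hgS +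
      (1 - X) ^ 4 * X ^ 10 * W * hg +
      (1 - X) ^ 4 * (S + (1 - 10 * X + 35 * X ^ 2 - 60 * X ^ 3 + 55 * X ^ 4 +
          5 * X ^ 6 - 275 * X ^ 10 - 2750 * X ^ 11 - 17875 * X ^ 12 - 99000 * X ^ 13 -
          514250 * X ^ 14) + 20 * X ^ 5) * hY
  refine ⟨⟨?_, ?_, ?_⟩, ⟨?_, ?_, ?_⟩, ?_, ?_, ?_⟩
  · rw [hM, if_pos (by norm_num), ib_coeff h1 _ (by norm_num)]
    norm_num
  · rw [hM, if_pos (by norm_num), ib_coeff h1 _ (by norm_num)]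
    norm_num
  · rw [hM, if_pos (by norm_num), ib_coeff h1 _ (by norm_num)]
    norm_num
  · rw [hM, if_pos (by norm_num), ib_coeff h2 _ (by norm_num)]
    norm_num
  · rw [hM, if_pos (by norm_num), ib_coeff h2 _ (by norm_num)]
    norm_num
  · rw [hM, if_pos (by norm_num), ib_coeff h2 _ (by norm_num)]
    norm_num
  · rw [hM, if_pos (by norm_num), ib_coeff h3 _ (by norm_num)]
    norm_num
  · rw [hM, if_pos (by norm_num), ib_coeff h3 _ (by norm_num)]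
    norm_num
  · rw [hM, if_pos (by norm_num), ib_coeff h3 _ (by norm_num)]
    norm_num

theorem base52a (h : In52) (hf : (par52 h 0).SpFull) (hv : (par52 h 0).Val) :
    (par52 h 0).Base := by
  intro n hn
  by_cases h1 : n = 1
  · subst h1
    right
    refine ib_base (par52 h 0) hv 1 11 11 0 ?_ (by norm_num) (by decide) rfl rfl ?_
    · rw [Matrix.det_fin_one]
      show (dat52a h).M 0 1 1 = _
      rw [(ib52a h).1]
      norm_num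
    · show ∀ m ∈ Finset.range (ZLN 1), TLN 2 1 m = 0 ∨ ¬ (5 : ℤ) ∣ (0 : ℤ) - m
      decide
  by_cases h2 : n = 2
  · subst h2
    right
    refine ib_base (par52 h 0) hv 2 5985 1197 1 ?_ (by norm_num) (by decide) rfl rfl ?_
    · rw [Matrix.det_fin_two]
      show (dat52a h).M 0 1 1 * (dat52a h).M 0 2 2 - (dat52a h).M 0 1 2 * (dat52a h).M 0 2 1 = _
      rw [(ib52a h).1, (ib52a h).2.1, (ib52a h).2.2.1, (ib52a h).2.2.2]
      norm_num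
    · show ∀ m ∈ Finset.range (ZLN 2), TLN 2 2 m = 0 ∨ ¬ (5 : ℤ) ∣ (0 : ℤ) - m
      decide
  by_cases h3 : n = 5
  · subst h3
    right
    refine ib_hf (par52 h 0) hf 5 rfl rfl rfl ?_
    show ∀ m ∈ Finset.range (ZLN 5), TLN 2 5 m = 0 ∨ ¬ (5 : ℤ) ∣ (1 : ℤ) - m
    decide
  left
  refine ⟨n / 3, 6 * (n / 3) - 1 - n, by omega, ?_, ?_⟩
  · show n + (6 * (n / 3) - 1 - n) + 1 = 6 * (n / 3)
    omega
  · show n / 3 ≤ 6 * (n / 3) - 1 - n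
    omega

theorem base52b (h : In52) (hv : (par52 h 1).Val) : (par52 h 1).Base := by
  intro n hn
  obtain ⟨⟨a1, a2, a3⟩, ⟨b1, b2, b3⟩, c1, c2, c3⟩ := ib52b h
  by_cases h2 : n = 2
  · subst h2
    right
    refine ib_base (par52 h 1) hv 2 5 1 1 ?_ (by norm_num) (by decide) rfl rfl ?_
    · rw [Matrix.det_fin_two]
      show (dat52b h).M 0 1 1 * (dat52b h).M 0 2 2 - (dat52b h).M 0 1 2 * (dat52b h).M 0 2 1 = _
      rw [a1, a2, b1, b2]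
      norm_num
    · show ∀ m ∈ Finset.range (ZLN 2), TLN 3 2 m = 0 ∨ ¬ (5 : ℤ) ∣ (0 : ℤ) - m
      decide
  by_cases h3 : n = 3
  · subst h3
    right
    refine ib_base (par52 h 1) hv 3 6500 52 3 ?_ (by norm_num) (by decide) rfl rfl ?_
    · rw [Matrix.det_fin_three]
      show (dat52b h).M 0 1 1 * (dat52b h).M 0 2 2 * (dat52b h).M 0 3 3 -
        (dat52b h).M 0 1 1 * (dat52b h).M 0 2 3 * (dat52b h).M 0 3 2 -
        (dat52b h).M 0 1 2 * (dat52b h).M 0 2 1 * (dat52b h).M 0 3 3 +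
        (dat52b h).M 0 1 2 * (dat52b h).M 0 2 3 * (dat52b h).M 0 3 1 +
        (dat52b h).M 0 1 3 * (dat52b h).M 0 2 1 * (dat52b h).M 0 3 2 -
        (dat52b h).M 0 1 3 * (dat52b h).M 0 2 2 * (dat52b h).M 0 3 1 = _
      rw [a1, a2, a3, b1, b2, b3, c1, c2, c3]
      norm_num
    · show ∀ m ∈ Finset.range (ZLN 3), TLN 3 3 m = 0 ∨ ¬ (5 : ℤ) ∣ (0 : ℤ) - m
      decide
  left
  refine ⟨(n - 1) / 3, 6 * ((n - 1) / 3) + 1 - n, by omega, ?_, ?_⟩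
  · show n + (6 * ((n - 1) / 3) + 1 - n) + 1 = 6 * ((n - 1) / 3) + 2
    omega
  · show (n - 1) / 3 ≤ 6 * ((n - 1) / 3) + 1 - n
    omega

theorem base52 (h : In52) (c : ℕ) (hc : c ≤ 1) (hf : (par52 h c).SpFull)
    (hv : (par52 h c).Val) : (par52 h c).Base := by
  rcases Nat.le_one_iff_eq_zero_or_eq_one.1 hc with rfl | rfl
  · exact base52a h hf hv
  · exact base52b h hv

end GH.LM
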