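import Pool.Agent.GH.LM.Dat32
import Pool.Agent.GH.LM.Dat34
import Pool.Agent.GH.LM.Dat52
import Pool.Agent.GH.CombU.PLN

/-!
# GH-LM: the combinatorial input of the types
-/

noncomputable section

namespace GH.LM

open GH.CombU

theorem comb32 (h : In32) : (par32 h).Comb :=
  ⟨hLN 0, combLN' 0 (by norm_num), fun n ↦ vtxLN_root 0 (by norm_num) n⟩

theorem comb34 (h : In34) : (par34 h).Comb :=
  ⟨hLN 1, combLN' 1 (by norm_num), fun n ↦ vtxLN_root 1 (by norm_num) n⟩

theorem comb52 (h : In52) (c : ℕ) (hc : c ≤ 1) : (par52 h c).Comb := by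
  have h1 : c = 0 ∨ c = 1 := by omega
  rcases h1 with rfl | rfl
  · exact ⟨hLN 2, combLN' 2 (by norm_num), fun n ↦ vtxLN_root 2 (by norm_num) n⟩
  · exact ⟨hLN 3, combLN' 3 (by norm_num), fun n ↦ vtxLN_root 3 (by norm_num) n⟩

end GH.LM
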