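import Pool.Agent.GH.LM.Dat32
import Pool.Agent.GH.LM.Dat34
import Pool.Agent.GH.LM.Dat52
import Pool.Agent.GH.LN.EStm
import Pool.Agent.GH.UMatB_a

/-!
# GH-LM: the values of `PM` in `ℂ_p`
-/

open PowerSeries

noncomputable section

namespace GH.LM

open GH.MatU

section

variable {K : Type*} [Field K] [CharZero K]

/-- Inverse series and opposite powers. -/
theorem iev_ppow_neg {u v : PowerSeries K} (hu : constantCoeff u = 1)
    (hv : constantCoeff v = 1) (huv : u * v = 1) (y : K) : ppow u (-y) = ppow v y := by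
  have h1 : ppow u (-y) * ppow u y = 1 := by
    rw [← ub_ppow_add hu, neg_add_cancel, ub_ppow_zero hu]
  have h2 : ppow u y * ppow v y = 1 := by
    rw [← ub_ppow_mul hu hv, huv]
    have h3 : constantCoeff (1 : PowerSeries K) = 1 := map_one _
    have h4 := ub_ppow_mul h3 h3 y
    rw [mul_one] at h4
    have h5 : ppow (1 : PowerSeries K) y ≠ 0 := by
      intro h6
      have h7 := ub_const_ppow h3 y
      rw [h6, map_zero] at h7
      exact zero_ne_one h7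
    exact (mul_left_cancel₀ h5 (by rw [mul_one]; exact h4)).symm
  calc ppow u (-y) = ppow u (-y) * (ppow u y * ppow v y) := by rw [h2, mul_one]
    _ = ppow v y := by rw [← mul_assoc, h1, one_mul]

variable {p : ℕ} [Fact p.Prime]

/-- The values of `A^y`. -/
theorem iev_map_Apow {d : ℕ} (hd : 0 < d) {A : PowerSeries ℤ_[p]} (hA0 : constantCoeff A = 1)
    (hA : GrD d A) (φ : ℤ_[p] →+* K) (y : K) :
    PowerSeries.map (Polynomial.eval₂RingHom φ y) (Apow p A) =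
      ppow (PowerSeries.map φ A) y := by
  have hth0 : constantCoeff (thetaA p A) = 0 := thetaA_const hd hA0 hA
  have h0 : constantCoeff (PowerSeries.map φ (thetaA p A)) = 0 := by
    rw [← coeff_zero_eq_constantCoeff_apply, coeff_map, coeff_zero_eq_constantCoeff_apply,
      hth0, map_zero]
  have h1 : PowerSeries.map (Polynomial.eval₂RingHom φ y) (PowerSeries.mk (cc p)) =
      rescale (p : K) (binS y) := by
    ext m
    rw [coeff_map, coeff_mk, coeff_rescale, ub_coeff_binS, cc, map_mul]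
    have h2 : Polynomial.eval₂RingHom φ y (Polynomial.C (uu p m)) = φ (uu p m) := by
      simp
    have h3 : Polynomial.eval₂RingHom φ y (descPochhammer ℤ_[p] m) =
        ∏ i ∈ Finset.range m, (y - i) := by
      rw [Polynomial.coe_eval₂RingHom, Polynomial.eval₂_eq_eval_map, descPochhammer_map,
        descPochhammer_eval_eq_prod_range]
    have h4 : φ (uu p m) * (m.factorial : K) = (p : K) ^ m := by
      have := congrArg φ (uu_mul p m)
      rw [map_mul, map_pow, map_natCast, map_natCast] at this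
      exact this
    have h5 : (m.factorial : K) ≠ 0 := by exact_mod_cast m.factorial_ne_zero
    rw [h2, h3, ← h4]
    field_simp
  have h6 : PowerSeries.map (Polynomial.eval₂RingHom φ y)
      (PowerSeries.map Polynomial.C (thetaA p A)) = PowerSeries.map φ (thetaA p A) := by
    ext n
    simp
  have h7 : 1 + C (p : K) * PowerSeries.map φ (thetaA p A) = PowerSeries.map φ A := by
    conv_rhs => rw [← one_add_thetaA hd hA0 hA]
    rw [map_add, map_mul, map_one, PowerSeries.map_C, map_natCast φ]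
  rw [Apow, Lpow, map_subst' (hasSubst_C p hth0), h1, h6, ub_rescale_subst (p : K) y h0, h7]

/-- The values of the matrix `MQ`. -/
theorem iev_gen {d : ℕ} (hd : 0 < d) {Tv S F : PowerSeries ℤ_[p]} (hT0 : constantCoeff Tv = 1)
    (hT : GrD d Tv) (φ : ℤ_[p] →+* K) (y : K) (i j : ℕ) :
    (MQ p Tv S F i j).eval₂ φ y = if j ≤ p * i then
      coeff (p * i - j) (ppow (PowerSeries.map φ Tv) y * PowerSeries.map φ F *
        PowerSeries.map φ S ^ i) else 0 := by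
  have hC : ∀ G : PowerSeries ℤ_[p], PowerSeries.map (Polynomial.eval₂RingHom φ y)
      (PowerSeries.map Polynomial.C G) = PowerSeries.map φ G := by
    intro G
    ext n
    simp
  have hX : PowerSeries.map (Polynomial.eval₂RingHom φ y) (Apow p Tv *
      PowerSeries.map Polynomial.C F * PowerSeries.map Polynomial.C S ^ i) =
      ppow (PowerSeries.map φ Tv) y * PowerSeries.map φ F * PowerSeries.map φ S ^ i := by
    rw [map_mul, map_mul, map_pow, hC, hC, iev_map_Apow hd hT0 hT]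
  rw [MQ, ent]
  split_ifs with hij
  · rw [← Polynomial.coe_eval₂RingHom, ← coeff_map, hX]
  · simp

/-- The exponents. -/
theorem iev_comb {S Si V G W : PowerSeries K} (hS : constantCoeff S = 1) (hSi : S * Si = 1)
    (x : K) (hV : V = ppow S (-x)) (i : ℕ) :
    V * (Si * G * W) * S ^ (i + 1) = ppow S (((i + 1 : ℕ) : K) - x - 1) * (G * W) := by
  have h1 : ((i + 1 : ℕ) : K) - x - 1 = (i : K) + -x := by
    push_cast
    ring
  rw [h1, ub_ppow_add hS, ub_ppow_nat hS, hV, pow_succ]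
  linear_combination (ppow S (-x) * G * W * S ^ i) * hSi

end

/-! ### `(3,4)` -/

theorem iev_c34 (R : Type) [CommRing R] : constantCoeff (D34.S34 R) = 1 :=
  LN.constantCoeff_SN 3 4 D34.three_ne R

theorem iev_g34 (R : Type) [CommRing R] : constantCoeff (D34.gs34 R) = 0 :=
  LN.constantCoeff_gsN 3 4 D34.three_ne R

theorem eval34 (h : In34) (hg : (par34 h).Gr) (x : D3.C3) (i j : ℕ) :
    (par34 h).MatE x (i + 1) (j + 1) = D34.Mat34 x (i + 1) (j + 1) := by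
  have hS0 := iev_c34 ℤ_[3]
  have hK0 := iev_c34 D3.C3
  have hi0 : constantCoeff (invOfUnit (D34.S34 ℤ_[3]) 1) = 1 := LN.constantCoeff_inv hS0
  have hiK : constantCoeff (invOfUnit (D34.S34 D3.C3) 1) = 1 := LN.constantCoeff_inv hK0
  have hm : ∀ φ : ℤ_[3] →+* D3.C3, PowerSeries.map φ (D34.S34 ℤ_[3]) = D34.S34 D3.C3 :=
    fun φ => LN.map_SN 3 4 D34.three_ne ℤ_[3] φ
  have hmg : ∀ φ : ℤ_[3] →+* D3.C3, PowerSeries.map φ (D34.gs34 ℤ_[3]) = D34.gs34 D3.C3 :=
    fun φ => LN.map_gsN 3 4 D34.three_ne ℤ_[3] φ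
  have hp0 : constantCoeff (D34.ps34 (D34.gs34 ℤ_[3])) = 1 := by
    simp [D34.ps34, iev_g34]
  have e1 := iev_gen (K := D3.C3) (p := 3) (d := 4) (by norm_num) (S := D34.S34 ℤ_[3])
    (F := F34 ℤ_[3]) hi0 hg.Tv (Par.iota 3) x (i + 1) (j + 1)
  have e2 : (par34 h).MatE x (i + 1) (j + 1) = (MQ 3 (invOfUnit (D34.S34 ℤ_[3]) 1)
      (D34.S34 ℤ_[3]) (F34 ℤ_[3]) (i + 1) (j + 1)).eval₂ (Par.iota 3) x := rfl
  rw [e2, e1, D34.Mat34]
  have e3 : PowerSeries.map (Par.iota 3) (F34 ℤ_[3]) = invOfUnit (D34.S34 D3.C3) 1 *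
      D34.ns34 (X : PowerSeries D3.C3) * invOfUnit (D34.ps34 (D34.gs34 D3.C3)) 1 := by
    rw [F34, map_mul, map_mul, LN.map_inv_of _ hS0, LN.map_inv_of _ hp0, hm]
    simp only [D34.ns34, D34.ps34, map_pow, map_sub, map_mul, map_one, map_ofNat,
      PowerSeries.map_X, hmg]
  rw [e3, LN.map_inv_of _ hS0, hm, iev_comb hK0 (LN.mul_inv_of hK0) x
    (iev_ppow_neg hK0 hiK (LN.mul_inv_of hK0) x).symm i]

/-! ### `(5,2)` -/

theorem iev_c52 (R : Type) [CommRing R] : constantCoeff (D52.S52 R) = 1 :=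
  LN.constantCoeff_SN 5 2 D52.five_ne R

theorem iev_g52 (R : Type) [CommRing R] : constantCoeff (D52.gs52 R) = 0 :=
  LN.constantCoeff_gsN 5 2 D52.five_ne R

theorem eval52 (h : In52) (c : ℕ) (_hc : c ≤ 1) (hg : (par52 h c).Gr) (x : D5.C5) (i j : ℕ) :
    (par52 h c).MatE x (i + 1) (j + 1) = D52.Mat52 c x (i + 1) (j + 1) := by
  have hS0 := iev_c52 ℤ_[5]
  have hK0 := iev_c52 D5.C5
  have hi0 : constantCoeff (invOfUnit (D52.S52 ℤ_[5]) 1) = 1 := LN.constantCoeff_inv hS0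
  have hiK : constantCoeff (invOfUnit (D52.S52 D5.C5) 1) = 1 := LN.constantCoeff_inv hK0
  have hm : ∀ φ : ℤ_[5] →+* D5.C5, PowerSeries.map φ (D52.S52 ℤ_[5]) = D52.S52 D5.C5 :=
    fun φ => LN.map_SN 5 2 D52.five_ne ℤ_[5] φ
  have hmg : ∀ φ : ℤ_[5] →+* D5.C5, PowerSeries.map φ (D52.gs52 ℤ_[5]) = D52.gs52 D5.C5 :=
    fun φ => LN.map_gsN 5 2 D52.five_ne ℤ_[5] φ
  have hp0 : constantCoeff (D52.ps52 c (D52.gs52 ℤ_[5])) = 1 := by
    simp [D52.ps52, iev_g52]
  have e1 := iev_gen (K := D5.C5) (p := 5) (d := 6) (by norm_num) (S := D52.S52 ℤ_[5])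
    (F := F52 c ℤ_[5]) hi0 hg.Tv (Par.iota 5) x (i + 1) (j + 1)
  have e2 : (par52 h c).MatE x (i + 1) (j + 1) = (MQ 5 (invOfUnit (D52.S52 ℤ_[5]) 1)
      (D52.S52 ℤ_[5]) (F52 c ℤ_[5]) (i + 1) (j + 1)).eval₂ (Par.iota 5) x := rfl
  rw [e2, e1, D52.Mat52]
  have e3 : PowerSeries.map (Par.iota 5) (F52 c ℤ_[5]) = invOfUnit (D52.S52 D5.C5) 1 *
      D52.ns52 c (X : PowerSeries D5.C5) * invOfUnit (D52.ps52 c (D52.gs52 D5.C5)) 1 := by
    rw [F52, map_mul, map_mul, LN.map_inv_of _ hS0, LN.map_inv_of _ hp0, hm]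
    simp only [D52.ns52, D52.ps52, map_pow, map_add, map_sub, map_mul, map_one, map_ofNat,
      PowerSeries.map_X, hmg]
  rw [e3, LN.map_inv_of _ hS0, hm, iev_comb hK0 (LN.mul_inv_of hK0) x
    (iev_ppow_neg hK0 hiK (LN.mul_inv_of hK0) x).symm i]

/-! ### `(3,2)` -/

theorem iev_c32 (R : Type) [CommRing R] : constantCoeff (D32.S32 R) = 1 :=
  LN.constantCoeff_SN 3 2 D32.three_ne R

theorem iev_g32 (R : Type) [CommRing R] : constantCoeff (D32.gs32 R) = 0 :=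
  LN.constantCoeff_gsN 3 2 D32.three_ne R

theorem iev_n32 (R : Type) [CommRing R] :
    constantCoeff (1 - 6 * (X : PowerSeries R) - 3 * X ^ 2) = 1 := by
  simp

theorem iev_T0 (R : Type) [CommRing R] : constantCoeff (Tv32 R) = 1 := by
  rw [Tv32, map_mul, LN.constantCoeff_inv (iev_n32 R)]
  simp [iev_g32]

/-- `T² S = 1`. -/
theorem iev_T2 (h : In32) (R : Type) [CommRing R] : D32.S32 R * (Tv32 R * Tv32 R) = 1 := by
  have h1 := h.fix R
  have h2 : D32.gs32 R * D32.S32 R = X ^ 3 := LN.gsN_mul 3 2 D32.three_ne R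
  have h3 := LN.mul_inv_of (iev_n32 R)
  have h4 : D32.S32 R * (1 + 18 * D32.gs32 R - 27 * D32.gs32 R ^ 2) ^ 2 =
      (1 - 6 * (X : PowerSeries R) - 3 * X ^ 2) ^ 2 := by
    linear_combination h1 + 64 * h2
  rw [Tv32]
  set I := invOfUnit (1 - 6 * (X : PowerSeries R) - 3 * X ^ 2) 1 with hI
  calc D32.S32 R * ((1 + 18 * D32.gs32 R - 27 * D32.gs32 R ^ 2) * I *
        ((1 + 18 * D32.gs32 R - 27 * D32.gs32 R ^ 2) * I))
      = (D32.S32 R * (1 + 18 * D32.gs32 R - 27 * D32.gs32 R ^ 2) ^ 2) * I ^ 2 := by ring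
    _ = ((1 - 6 * (X : PowerSeries R) - 3 * X ^ 2) * I) ^ 2 := by rw [h4]; ring
    _ = 1 := by rw [h3, one_pow]

theorem eval32 (h : In32) (hg : (par32 h).Gr) (x : D3.C3) (i j : ℕ) :
    (par32 h).MatE (2 * x) (i + 1) (j + 1) = D32.Mat32 x (i + 1) (j + 1) := by
  have hS0 := iev_c32 ℤ_[3]
  have hK0 := iev_c32 D3.C3
  have hT0 := iev_T0 ℤ_[3]
  have hTK := iev_T0 D3.C3
  have hm : ∀ φ : ℤ_[3] →+* D3.C3, PowerSeries.map φ (D32.S32 ℤ_[3]) = D32.S32 D3.C3 :=
    fun φ => LN.map_SN 3 2 D32.three_ne ℤ_[3] φ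
  have hmg : ∀ φ : ℤ_[3] →+* D3.C3, PowerSeries.map φ (D32.gs32 ℤ_[3]) = D32.gs32 D3.C3 :=
    fun φ => LN.map_gsN 3 2 D32.three_ne ℤ_[3] φ
  have hp0 : constantCoeff (D32.ps32 (D32.gs32 ℤ_[3])) = 1 := by
    simp [D32.ps32, iev_g32]
  have e1 := iev_gen (K := D3.C3) (p := 3) (d := 2) (by norm_num) (S := D32.S32 ℤ_[3])
    (F := F32 ℤ_[3]) hT0 hg.Tv (Par.iota 3) (2 * x) (i + 1) (j + 1)
  have e2 : (par32 h).MatE (2 * x) (i + 1) (j + 1) = (MQ 3 (Tv32 ℤ_[3])
      (D32.S32 ℤ_[3]) (F32 ℤ_[3]) (i + 1) (j + 1)).eval₂ (Par.iota 3) (2 * x) := rfl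
  rw [e2, e1, D32.Mat32]
  have e3 : PowerSeries.map (Par.iota 3) (F32 ℤ_[3]) = invOfUnit (D32.S32 D3.C3) 1 *
      D32.ns32 (X : PowerSeries D3.C3) * invOfUnit (D32.ps32 (D32.gs32 D3.C3)) 1 := by
    rw [F32, map_mul, map_mul, LN.map_inv_of _ hS0, LN.map_inv_of _ hp0, hm]
    simp only [D32.ns32, D32.ps32, map_pow, map_add, map_sub, map_mul, map_one, map_ofNat,
      PowerSeries.map_X, hmg]
  have e4 : PowerSeries.map (Par.iota 3) (Tv32 ℤ_[3]) = Tv32 D3.C3 := by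
    rw [Tv32, map_mul, LN.map_inv_of _ (iev_n32 ℤ_[3])]
    simp only [Tv32, map_pow, map_add, map_sub, map_mul, map_one, map_ofNat,
      PowerSeries.map_X, hmg]
  have hT2 : constantCoeff (Tv32 D3.C3 * Tv32 D3.C3) = 1 := by
    rw [map_mul, hTK, one_mul]
  have e5 : ppow (Tv32 D3.C3) (2 * x) = ppow (D32.S32 D3.C3) (-x) := by
    rw [iev_ppow_neg hK0 hT2 (iev_T2 h D3.C3) x, ub_ppow_mul hTK hTK, two_mul,
      ub_ppow_add hTK]
  rw [e3, e4, hm, iev_comb hK0 (LN.mul_inv_of hK0) x e5 i]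

end GH.LM
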