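import Pool.Agent.GH.LM.Dat34
import Pool.Agent.GH.LM.Dat52
import Pool.Agent.GH.LN.SerN

/-!
# GH-LM, instances: the values of `PM` at the centres, `(3,4)` and `(5,2)` (helper40)
-/

open PowerSeries

noncomputable section

namespace GH.LM

open GH.TrJ GH.CombU

/-! ### General facts -/

private theorem iv_mul {R : Type*} [CommRing R] {F : PowerSeries R}
    (h : constantCoeff F = 1) : F * invOfUnit F 1 = 1 :=
  mul_invOfUnit _ _ (by rw [h, Units.val_one])

private theorem iv_map {R S : Type*} [CommRing R] [CommRing S] (f : R →+* S)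
    {F : PowerSeries R} (h : constantCoeff F = 1) :
    PowerSeries.map f (invOfUnit F 1) = invOfUnit (PowerSeries.map f F) 1 := by
  have h0 : constantCoeff (PowerSeries.map f F) = 1 := by
    rw [← coeff_zero_eq_constantCoeff_apply, coeff_map, coeff_zero_eq_constantCoeff_apply, h,
      map_one]
  have h1 : PowerSeries.map f (invOfUnit F 1) * PowerSeries.map f F = 1 := by
    rw [← map_mul, mul_comm, iv_mul h, map_one]
  calc PowerSeries.map f (invOfUnit F 1)
      = PowerSeries.map f (invOfUnit F 1) *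
          (PowerSeries.map f F * invOfUnit (PowerSeries.map f F) 1) := by
        rw [iv_mul h0, mul_one]
    _ = invOfUnit (PowerSeries.map f F) 1 := by rw [← mul_assoc, h1, one_mul]

private theorem iv_inv {F : PowerSeries ℚ} (h : constantCoeff F = 1) :
    F⁻¹ = invOfUnit F 1 := by
  have hc : constantCoeff F ≠ 0 := by rw [h]; exact one_ne_zero
  calc F⁻¹ = F⁻¹ * (F * invOfUnit F 1) := by rw [iv_mul h, mul_one]
    _ = invOfUnit F 1 := by rw [← mul_assoc, PowerSeries.inv_mul_cancel _ hc, one_mul]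

private theorem iv_gr {p : ℕ} [Fact p.Prime] {d : ℕ} (S : PowerSeries ℤ_[p])
    (Sz : PowerSeries ℤ) (h : PowerSeries.map (Int.castRingHom ℤ_[p]) Sz = S)
    (hg : ∀ n, (p : ℤ) ^ MatU.phD d n ∣ coeff n Sz) : MatU.GrD d S := by
  intro n
  rw [← h, coeff_map]
  obtain ⟨r, hr⟩ := hg n
  refine ⟨(r : ℤ_[p]), ?_⟩
  rw [hr]
  simp

/-- The entry `[h^(pi-j)] S^i S^(-k) G`. -/
private def ivE {R : Type*} [CommRing R] (p : ℕ) (S G : PowerSeries R) (k i j : ℕ) : R :=
  if j ≤ p * i then coeff (p * i - j) (S ^ i * invOfUnit S 1 ^ k * G) else 0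

private theorem ivE_map {R S : Type*} [CommRing R] [CommRing S] (f : R →+* S) (p : ℕ)
    {A G : PowerSeries R} (hA : constantCoeff A = 1) {A' G' : PowerSeries S}
    (h1 : PowerSeries.map f A = A') (h2 : PowerSeries.map f G = G') (k i j : ℕ) :
    f (ivE p A G k i j) = ivE p A' G' k i j := by
  unfold ivE
  split_ifs with h
  · rw [← PowerSeries.coeff_map, RingHom.map_mul, RingHom.map_mul, RingHom.map_pow,
      RingHom.map_pow, iv_map f hA, h1, h2]
  · exact map_zero f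

private theorem ivE_cast {p : ℕ} [Fact p.Prime] {A G : PowerSeries ℤ_[p]}
    {A' G' : PowerSeries ℚ_[p]} {A'' G'' : PowerSeries ℚ} (hA : constantCoeff A = 1)
    (hA'' : constantCoeff A'' = 1)
    (h1 : PowerSeries.map PadicInt.Coe.ringHom A = A')
    (h2 : PowerSeries.map PadicInt.Coe.ringHom G = G')
    (h3 : PowerSeries.map (Rat.castHom ℚ_[p]) A'' = A')
    (h4 : PowerSeries.map (Rat.castHom ℚ_[p]) G'' = G') (k i j : ℕ) :
    ((ivE p A G k i j : ℤ_[p]) : ℚ_[p]) = ((ivE p A'' G'' k i j : ℚ) : ℚ_[p]) := by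
  have e1 := ivE_map (PadicInt.Coe.ringHom (p := p)) p hA h1 h2 k i j
  have e2 := ivE_map (Rat.castHom ℚ_[p]) p hA'' h3 h4 k i j
  rw [Rat.coe_castHom] at e2
  rw [e2, ← e1]
  rfl

private theorem ivE_eval {p : ℕ} [Fact p.Prime] {d : ℕ} (hd : 0 < d) (S G : PowerSeries ℤ_[p])
    (hS0 : constantCoeff S = 1) (hS : MatU.GrD d S) (m i j : ℕ) :
    (MatU.MQ p (invOfUnit S 1) S (invOfUnit S 1 * G) i j).eval (m : ℤ_[p]) =
      ivE p S G (m + 1) i j := by
  have h0 : constantCoeff (invOfUnit S 1) = 1 := by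
    rw [constantCoeff_invOfUnit, inv_one, Units.val_one]
  rw [MatU.MQ_eval hd h0 (hS.inv hd hS0), MatU.ent, ivE]
  have h3 : invOfUnit S 1 ^ m * (invOfUnit S 1 * G) * S ^ i =
      S ^ i * invOfUnit S 1 ^ (m + 1) * G := by
    rw [pow_succ]
    ring
  rw [h3]

/-! ### `(3,4)` -/

private theorem iv34_S {R S : Type*} [CommRing R] [CommRing S] (f : R →+* S) :
    PowerSeries.map f (D34.S34 R) = D34.S34 S := LN.map_SN 3 4 D34.three_ne R f

private def iv34_G (R : Type*) [CommRing R] : PowerSeries R :=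
  D34.ns34 (X : PowerSeries R) * invOfUnit (D34.ps34 (D34.gs34 R)) 1

private theorem iv34_cg (R : Type) [CommRing R] : constantCoeff (D34.gs34 R) = 0 := by
  rw [D34.gs34, map_mul, map_pow, constantCoeff_X]
  ring

private theorem iv34_cp (R : Type) [CommRing R] :
    constantCoeff (D34.ps34 (D34.gs34 R)) = 1 := by
  unfold D34.ps34
  rw [map_pow, map_sub, map_mul, map_pow, iv34_cg, map_one]
  ring

private theorem iv34_G_map (h : In34) {R S : Type} [CommRing R] [CommRing S] (f : R →+* S) :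
    PowerSeries.map f (iv34_G R) = iv34_G S := by
  unfold iv34_G
  have hg : PowerSeries.map f (D34.gs34 R) = D34.gs34 S := by
    unfold D34.gs34
    rw [map_mul, map_pow, PowerSeries.map_X, iv_map f (h.S0 R), iv34_S]
  have hn : PowerSeries.map f (D34.ns34 (X : PowerSeries R)) =
      D34.ns34 (X : PowerSeries S) := by
    unfold D34.ns34
    rw [map_pow, map_sub, map_pow, PowerSeries.map_X, map_one]
  have hp : PowerSeries.map f (D34.ps34 (D34.gs34 R)) = D34.ps34 (D34.gs34 S) := by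
    unfold D34.ps34
    rw [map_pow, map_sub, map_mul, map_pow, hg, map_one, map_ofNat]
  rw [map_mul, iv_map f (iv34_cp R), hn, hp]

private theorem iv34_M (h : In34) (z i j : ℕ) :
    (dat34 h).M z i j = ivE 3 (D34.S34 ℚ) (iv34_G ℚ) (z + 1) i j := by
  have h1 : (dat34 h).M z i j = if j ≤ 3 * i then
      coeff (3 * i - j) (D34.S34 ℚ ^ i * invOfUnit (D34.S34 ℚ) 1 ^ (z + 1) *
        ((ns34q ^ 2 : Polynomial ℚ) : PowerSeries ℚ) *
        (TrJ.ev (D34.gs34 ℚ) (ps34q ^ 2))⁻¹) else 0 := rfl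
  have h2 : ((ns34q ^ 2 : Polynomial ℚ) : PowerSeries ℚ) = D34.ns34 (X : PowerSeries ℚ) := by
    rw [← Polynomial.coeToPowerSeries.ringHom_apply]
    unfold ns34q D34.ns34
    rw [map_pow, map_sub, map_pow, map_one, Polynomial.coeToPowerSeries.ringHom_apply,
      Polynomial.coe_X]
  have h3 : TrJ.ev (D34.gs34 ℚ) (ps34q ^ 2) = D34.ps34 (D34.gs34 ℚ) := by
    unfold ps34q D34.ps34 TrJ.ev
    rw [map_pow, map_sub, map_mul, map_pow, map_one, Polynomial.aeval_X, map_ofNat]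
  rw [h1, ivE, h2, h3, iv_inv (iv34_cp ℚ), mul_assoc (D34.S34 ℚ ^ i * _)]
  rfl

theorem val34 (h : In34) : (par34 h).Val := by
  intro m i j
  have hgr : MatU.GrD 4 (D34.S34 ℤ_[3]) :=
    iv_gr _ (D34.S34 ℤ) (iv34_S _) (fun n => by simpa [MatU.phD] using h.gr n)
  have e1 : ((par34 h).PM i j).eval (m : ℤ_[3]) =
      ivE 3 (D34.S34 ℤ_[3]) (iv34_G ℤ_[3]) (m + 1) (i + 1) (j + 1) := by
    rw [← ivE_eval (d := 4) (by norm_num) _ _ (h.S0 ℤ_[3]) hgr]
    show Polynomial.eval _ (MatU.MQ 3 (invOfUnit (D34.S34 ℤ_[3]) 1) (D34.S34 ℤ_[3])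
      (F34 ℤ_[3]) (i + 1) (j + 1)) = _
    unfold F34 iv34_G
    rw [mul_assoc]
  have e2 : (par34 h).t m = m := rfl
  have e3 : ((par34 h).dat m).M ((par34 h).t m) (i + 1) (j + 1) =
      ivE 3 (D34.S34 ℚ) (iv34_G ℚ) (m + 1) (i + 1) (j + 1) := by
    rw [e2]
    exact iv34_M h m (i + 1) (j + 1)
  rw [e1, e3]
  exact ivE_cast (h.S0 _) (h.S0 _) (iv34_S _) (iv34_G_map h _) (iv34_S _) (iv34_G_map h _) _ _ _

/-! ### `(5,2)` -/

private theorem iv52_S {R S : Type*} [CommRing R] [CommRing S] (f : R →+* S) :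
    PowerSeries.map f (D52.S52 R) = D52.S52 S := LN.map_SN 5 2 D52.five_ne R f

private def iv52_G (c : ℕ) (R : Type*) [CommRing R] : PowerSeries R :=
  D52.ns52 c (X : PowerSeries R) * invOfUnit (D52.ps52 c (D52.gs52 R)) 1

private theorem iv52_cg (R : Type) [CommRing R] : constantCoeff (D52.gs52 R) = 0 := by
  rw [D52.gs52, map_mul, map_pow, constantCoeff_X]
  ring

private theorem iv52_cp (c : ℕ) (R : Type) [CommRing R] :
    constantCoeff (D52.ps52 c (D52.gs52 R)) = 1 := by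
  unfold D52.ps52
  rw [map_mul, map_pow, map_pow, map_sub, map_sub, map_add, map_mul, map_mul, map_mul, map_pow,
    iv52_cg, map_one]
  simp

private theorem iv52_G_map (h : In52) (c : ℕ) {R S : Type} [CommRing R] [CommRing S]
    (f : R →+* S) : PowerSeries.map f (iv52_G c R) = iv52_G c S := by
  unfold iv52_G
  have hg : PowerSeries.map f (D52.gs52 R) = D52.gs52 S := by
    unfold D52.gs52
    rw [map_mul, map_pow, PowerSeries.map_X, iv_map f (h.S0 R), iv52_S]
  have hn : PowerSeries.map f (D52.ns52 c (X : PowerSeries R)) =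
      D52.ns52 c (X : PowerSeries S) := by
    unfold D52.ns52
    simp only [map_mul, map_pow, map_sub, PowerSeries.map_X, map_one, map_ofNat]
  have hp : PowerSeries.map f (D52.ps52 c (D52.gs52 R)) = D52.ps52 c (D52.gs52 S) := by
    unfold D52.ps52
    simp only [map_mul, map_pow, map_sub, map_add, hg, map_one, map_ofNat]
  rw [map_mul, iv_map f (iv52_cp c R), hn, hp]

private theorem iv52_Ma (h : In52) (z i j : ℕ) :
    (dat52a h).M z i j = ivE 5 (D52.S52 ℚ) (iv52_G 0 ℚ) (z + 1) i j := by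
  have h2 : (((1 - Polynomial.X) ^ 4 * ns52q : Polynomial ℚ) : PowerSeries ℚ) =
      D52.ns52 0 (X : PowerSeries ℚ) := by
    rw [← Polynomial.coeToPowerSeries.ringHom_apply]
    unfold ns52q D52.ns52
    simp only [map_mul, map_pow, map_sub, map_one, map_ofNat,
      Polynomial.coeToPowerSeries.ringHom_apply, Polynomial.coe_X, Nat.sub_zero, pow_one]
  have h3 : TrJ.ev (D52.gs52 ℚ) ((1 - 5 * Polynomial.X) ^ 4 * ps52q) =
      D52.ps52 0 (D52.gs52 ℚ) := by
    unfold ps52q D52.ps52 TrJ.ev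
    simp only [map_mul, map_pow, map_sub, map_add, map_one, Polynomial.aeval_X, map_ofNat,
      Nat.sub_zero, pow_one]
  have k1 : (dat52a h).p = 5 := by unfold dat52a; rfl
  have k2 : (dat52a h).Q = D52.S52 ℚ := by unfold dat52a; rfl
  have k3 : (dat52a h).Qi = invOfUnit (D52.S52 ℚ) 1 := by unfold dat52a; rfl
  have k4 : (dat52a h).ns = (1 - Polynomial.X) ^ 4 * ns52q := by unfold dat52a; rfl
  have k5 : (dat52a h).ψs = (1 - 5 * Polynomial.X) ^ 4 * ps52q := by unfold dat52a; rfl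
  have k6 : (dat52a h).g = D52.gs52 ℚ := by
    unfold TrJ.Data.g D52.gs52
    rw [k1, k3]
  unfold TrJ.Data.M ivE
  rw [k1, k2, k3, k4, k5, k6, h2, h3, iv_inv (iv52_cp 0 ℚ), mul_assoc (D52.S52 ℚ ^ i * _)]
  unfold iv52_G
  rfl

private theorem iv52_Mb (h : In52) (z i j : ℕ) :
    (dat52b h).M z i j = ivE 5 (D52.S52 ℚ) (iv52_G 1 ℚ) (z + 1) i j := by
  have h2 : (((1 - Polynomial.X) ^ 4 : Polynomial ℚ) : PowerSeries ℚ) =
      D52.ns52 1 (X : PowerSeries ℚ) := by
    rw [← Polynomial.coeToPowerSeries.ringHom_apply]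
    unfold D52.ns52
    simp only [map_pow, map_sub, map_one,
      Polynomial.coeToPowerSeries.ringHom_apply, Polynomial.coe_X, Nat.sub_self, pow_zero, mul_one]
  have h3 : TrJ.ev (D52.gs52 ℚ) ((1 - 5 * Polynomial.X) ^ 4) =
      D52.ps52 1 (D52.gs52 ℚ) := by
    unfold D52.ps52 TrJ.ev
    simp only [map_mul, map_pow, map_sub, map_one, Polynomial.aeval_X, map_ofNat,
      Nat.sub_self, pow_zero, mul_one]
  have k1 : (dat52b h).p = 5 := by unfold dat52b; rfl
  have k2 : (dat52b h).Q = D52.S52 ℚ := by unfold dat52b; rfl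
  have k3 : (dat52b h).Qi = invOfUnit (D52.S52 ℚ) 1 := by unfold dat52b; rfl
  have k4 : (dat52b h).ns = (1 - Polynomial.X) ^ 4 := by unfold dat52b; rfl
  have k5 : (dat52b h).ψs = (1 - 5 * Polynomial.X) ^ 4 := by unfold dat52b; rfl
  have k6 : (dat52b h).g = D52.gs52 ℚ := by
    unfold TrJ.Data.g D52.gs52
    rw [k1, k3]
  unfold TrJ.Data.M ivE
  rw [k1, k2, k3, k4, k5, k6, h2, h3, iv_inv (iv52_cp 1 ℚ), mul_assoc (D52.S52 ℚ ^ i * _)]
  unfold iv52_G
  rfl

theorem val52 (h : In52) (c : ℕ) (hc : c ≤ 1) : (par52 h c).Val := by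
  intro m i j
  have hgr : MatU.GrD 6 (D52.S52 ℤ_[5]) :=
    iv_gr _ (D52.S52 ℤ) (iv52_S _) (fun n => by simpa [MatU.phD] using h.gr n)
  have e1 : ((par52 h c).PM i j).eval (m : ℤ_[5]) =
      ivE 5 (D52.S52 ℤ_[5]) (iv52_G c ℤ_[5]) (m + 1) (i + 1) (j + 1) := by
    rw [← ivE_eval (d := 6) (by norm_num) _ _ (h.S0 ℤ_[5]) hgr]
    show Polynomial.eval _ (MatU.MQ 5 (invOfUnit (D52.S52 ℤ_[5]) 1) (D52.S52 ℤ_[5])
      (F52 c ℤ_[5]) (i + 1) (j + 1)) = _
    unfold F52 iv52_G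
    rw [mul_assoc]
  have e2 : (par52 h c).t m = m := by
    show tLN (2 + c) m = m
    unfold tLN
    rw [if_neg (by omega)]
  have e3 : ((par52 h c).dat m).M ((par52 h c).t m) (i + 1) (j + 1) =
      ivE 5 (D52.S52 ℚ) (iv52_G c ℚ) (m + 1) (i + 1) (j + 1) := by
    rw [e2]
    have hc' : c = 0 ∨ c = 1 := by omega
    rcases hc' with rfl | rfl
    · exact iv52_Ma h m (i + 1) (j + 1)
    · exact iv52_Mb h m (i + 1) (j + 1)
  rw [e1, e3]
  exact ivE_cast (h.S0 _) (h.S0 _) (iv52_S _) (iv52_G_map h c _) (iv52_S _) (iv52_G_map h c _)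
    _ _ _

end GH.LM
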