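import Pool.Agent.GH.LM.IFinal0
import Pool.Agent.GH.LM.IVal
import Pool.Agent.GH.Trop.MainN

/-!
# GH-LM: the central theorems for `(3,4)` and `(5,2)`
-/

noncomputable section

namespace GH.LM

/-- **The theorem on the central disc** for `(3,4)`. -/
theorem central34 (h : In34) : D34.CentralTheorem34 :=
  central34_of h (val34 h) (Trop.root34 h).1 (Trop.root34 h).2

/-- **The theorem on the central disc** for `(5,2)`. -/
theorem central52 (h : In52) : D52.CentralTheorem52 :=
  central52_of h (fun c hc => val52 h c hc) (fun _ hc => (Trop.root52 h hc).1)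
    fun _ hc => (Trop.root52 h hc).2

end GH.LM
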