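import Pool.Agent.GH.LM.Dat32
import Pool.Agent.GH.LM.Dat34
import Pool.Agent.GH.LM.Dat52
import Pool.Agent.GH.D3.Param3
import Pool.Agent.GH.D5.Ghost5

/-!
# GH-LMI-11: norms of the ghost coefficients for `(3,2)`, `(3,4)`, `(5,2)`
-/

noncomputable section

namespace GH.LM

open GH.CombU

/-- The ghost coefficient as a finite product (prefix `ig_`). -/
theorem ig_prod {K : Type*} [Field K] (p N ν : ℕ) (w : K) (i N₀ : ℕ) (φ : ℕ → ℕ)
    (hφ : Function.Injective φ) (h1 : ∀ m, Even (φ m) ∧ φ m ≡ 2 * ν [MOD p - 1])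
    (h2 : ∀ k, Even k ∧ k ≡ 2 * ν [MOD p - 1] → ∃ m, φ m = k) (T : ℕ → ℕ)
    (h3 : ∀ m, multN p N i (φ m) = T m) (h4 : ∀ m, N₀ ≤ m → T m = 0) :
    ghostN p N ν w i =
      ∏ m ∈ Finset.range N₀, (w - ((1 + 2 * (p : K)) ^ φ m - 1)) ^ T m := by
  classical
  unfold ghostN
  rw [finprod_eq_prod_of_mulSupport_subset (s := (Finset.range N₀).image φ)]
  · rw [Finset.prod_image (fun a _ b _ h => hφ h)]
    refine Finset.prod_congr rfl fun l _ => ?_
    rw [if_pos (h1 l), h3]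
  · intro k hk
    rw [Function.mem_mulSupport] at hk
    by_cases hev : Even k ∧ k ≡ 2 * ν [MOD p - 1]
    · rw [if_pos hev] at hk
      obtain ⟨m, rfl⟩ := h2 k hev
      rw [Finset.coe_image, Set.mem_image]
      refine ⟨m, ?_, rfl⟩
      rw [Finset.mem_coe, Finset.mem_range]
      by_contra hc
      apply hk
      rw [h3, h4 m (by omega), pow_zero]
    · rw [if_neg hev] at hk
      exact absurd rfl hk

/-- The norm of the product. -/
theorem ig_norm {p : ℕ} [Fact p.Prime] (a : ℕ → PadicComplex p) (y : PadicComplex p)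
    (T : ℕ → ℕ) (N : ℕ)
    (ha : ∀ m, ‖a m‖ = ‖y - (m : PadicComplex p)‖ / p) :
    ‖∏ m ∈ Finset.range N, a m ^ T m‖ = (p : ℝ) ^ (-((∑ m ∈ Finset.range N, T m : ℕ) : ℤ)) *
      ∏ m ∈ Finset.range N, ‖y - (m : PadicComplex p)‖ ^ T m := by
  have h2 : ∀ l ∈ Finset.range N, ‖a l ^ T l‖ =
      (p : ℝ)⁻¹ ^ T l * ‖y - (l : PadicComplex p)‖ ^ T l := by
    intro l _
    rw [norm_pow, ha, ← mul_pow]
    congr 1
    ring
  rw [norm_prod, Finset.prod_congr rfl h2, Finset.prod_mul_distrib, Finset.prod_pow_eq_pow_sum,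
    inv_pow, zpow_neg, zpow_natCast]

theorem ig_norm_two3 : ‖(2 : D3.C3)‖ = 1 := by
  have h1 : (2 : D3.C3) = algebraMap ℚ_[3] D3.C3 ((2 : ℕ) : ℚ_[3]) := by
    rw [map_natCast]
    norm_num
  rw [h1, norm_algebraMap', Padic.norm_natCast_eq_one_iff]
  decide

theorem ig_norm_two5 : ‖(2 : D5.C5)‖ = 1 := by
  have h1 : (2 : D5.C5) = algebraMap ℚ_[5] D5.C5 ((2 : ℕ) : ℚ_[5]) := by
    rw [map_natCast]
    norm_num
  rw [h1, norm_algebraMap', Padic.norm_natCast_eq_one_iff]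
  decide

theorem ig_fac3 {y : D3.C3} (hy : ‖y‖ ≤ 1) (m : ℕ) :
    ‖D3.wx3 (2 * y) - ((1 + 2 * ((3 : ℕ) : D3.C3)) ^ (2 * m) - 1)‖ =
      ‖y - (m : D3.C3)‖ / ((3 : ℕ) : ℝ) := by
  have h1 : (1 + 2 * ((3 : ℕ) : D3.C3)) ^ (2 * m) - 1 = D3.wx3 ((2 * m : ℕ) : D3.C3) := by
    rw [D3.wx3_natCast]
    norm_num
  have h2 : ‖2 * y‖ ≤ 1 := by rw [norm_mul, ig_norm_two3, one_mul]; exact hy
  rw [h1, D3.norm_wx3_sub h2 (IsUltrametricDist.norm_natCast_le_one D3.C3 _)]
  have h3 : 2 * y - ((2 * m : ℕ) : D3.C3) = 2 * (y - (m : D3.C3)) := by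
    push_cast
    ring
  rw [h3, norm_mul, ig_norm_two3, one_mul]
  norm_num

theorem ig_fac5 {y : D5.C5} (hy : ‖y‖ ≤ 1) (c m : ℕ) :
    ‖(121 : D5.C5) ^ c * (1 + D5.wx5 (2 * y)) - 1 -
        ((1 + 2 * ((5 : ℕ) : D5.C5)) ^ (4 * m + 2 * c) - 1)‖ =
      ‖y - (m : D5.C5)‖ / ((5 : ℕ) : ℝ) := by
  have h1 : (121 : D5.C5) ^ c * (1 + D5.wx5 (2 * y)) - 1 -
        ((1 + 2 * ((5 : ℕ) : D5.C5)) ^ (4 * m + 2 * c) - 1) =
      121 ^ c * (D5.wx5 (2 * y) - D5.wx5 ((2 * m : ℕ) : D5.C5)) := by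
    have h11 : (1 + 2 * ((5 : ℕ) : D5.C5)) ^ (4 * m + 2 * c) = 121 ^ c * 121 ^ (2 * m) := by
      rw [← pow_add, show 4 * m + 2 * c = 2 * (c + 2 * m) by ring, pow_mul,
        show ((1 + 2 * ((5 : ℕ) : D5.C5)) ^ 2) = 121 by norm_num]
    rw [D5.wx5_natCast, h11]
    ring
  have h2 : ‖2 * y‖ ≤ 1 := by rw [norm_mul, ig_norm_two5, one_mul]; exact hy
  have h121 : ‖((121 : D5.C5)) ^ c‖ = 1 := by
    rw [show (121 : D5.C5) = 11 ^ 2 by norm_num, norm_pow, norm_pow, D5.d5_gh_norm_eleven,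
      one_pow, one_pow]
  rw [h1, norm_mul, h121, one_mul,
    D5.norm_wx5_sub h2 (IsUltrametricDist.norm_natCast_le_one D5.C5 _)]
  have h3 : 2 * y - ((2 * m : ℕ) : D5.C5) = 2 * (y - (m : D5.C5)) := by
    push_cast
    ring
  rw [h3, norm_mul, ig_norm_two5, one_mul]
  norm_num

theorem ig_phi2 : Function.Injective fun m : ℕ => 2 * m := fun a b h => by
  have h' : 2 * a = 2 * b := h
  omega

theorem ig_c2 : numCusps 2 = 2 := by decide
theorem ig_c6 : numCusps 6 = 4 := by decide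
theorem ig_c4 : numCusps 4 = 3 := by decide
theorem ig_c12 : numCusps 12 = 6 := by decide
theorem ig_c10 : numCusps 10 = 4 := by decide

theorem ig_e2_2 : numEll2 2 = 1 := by decide
theorem ig_e2_6 : numEll2 6 = 0 := by decide
theorem ig_e2_4 : numEll2 4 = 0 := by decide
theorem ig_e2_12 : numEll2 12 = 0 := by decide
theorem ig_e2_10 : numEll2 10 = 2 := by decide

theorem ig_e3_2 : numEll3 2 = 0 := by decide
theorem ig_e3_6 : numEll3 6 = 0 := by decide
theorem ig_e3_4 : numEll3 4 = 0 := by decide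
theorem ig_e3_12 : numEll3 12 = 0 := by decide
theorem ig_e3_10 : numEll3 10 = 0 := by decide

theorem ig_mult32 (n m : ℕ) (hn : 1 ≤ n) : multN 3 2 (n - 1) (2 * m) = TLN 0 n m := by
  have h1 : dimS 2 (2 * m) = m / 2 - 1 := by
    unfold dimS
    rw [ig_c2, ig_e2_2, ig_e3_2]
    omega
  have h2 : dimS 6 (2 * m) = 2 * m - 3 := by
    unfold dimS
    rw [ig_c6, ig_e2_6, ig_e3_6]
    omega
  have h3 : TLN 0 n m = min (n - m / 2) (2 * m - 1 - m / 2 - n) := rfl
  unfold multN dimNewN sfun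
  rw [h3, show 2 * 3 = 6 by norm_num, h1, h2]
  split_ifs <;> omega

theorem ig_mult34 (n m : ℕ) (hn : 2 ≤ n) : multN 3 4 (n - 2) (2 * m) = TLN 1 n m := by
  have h1 : dimS 4 (2 * m) = m - 2 := by
    unfold dimS
    rw [ig_c4, ig_e2_4, ig_e3_4]
    omega
  have h2 : dimS 12 (2 * m) = 4 * m - 5 := by
    unfold dimS
    rw [ig_c12, ig_e2_12, ig_e3_12]
    omega
  have h3 : TLN 1 n m = min (n - m) (4 * m - 1 - m - n) := rfl
  unfold multN dimNewN sfun
  rw [h3, show 4 * 3 = 12 by norm_num, h1, h2]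
  split_ifs <;> omega

theorem ig_mult52 {c : ℕ} (hc : c ≤ 1) (n m : ℕ) (hn : 1 ≤ n) :
    multN 5 2 (n - 1) (4 * m + 2 * c) = TLN (2 + c) n m := by
  have h1 : dimS 2 (4 * m + 2 * c) = m - 1 := by
    unfold dimS
    rw [ig_c2, ig_e2_2, ig_e3_2]
    omega
  have h2 : dimS 10 (4 * m + 2 * c) = 6 * m + 2 * c - 3 := by
    unfold dimS
    rw [ig_c10, ig_e2_10, ig_e3_10]
    omega
  have h3 : TLN (2 + c) n m = min (n - m) (6 * m + 2 * c - 1 - m - n) := by
    have hc' : c = 0 ∨ c = 1 := by omega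
    rcases hc' with rfl | rfl <;> rfl
  unfold multN dimNewN sfun
  rw [h3, show 2 * 5 = 10 by norm_num, h1, h2]
  split_ifs <;> omega

theorem ig_T0 (i n m : ℕ) (hi : i ≤ 3) (h : 2 * n + 2 ≤ m) : TLN i n m = 0 := by
  unfold TLN tLN cenLN
  split_ifs <;> omega

/-- For the pair `(3,2)`. -/
theorem ghost32 (h : In32) : (par32 h).Ghost
    (fun y n => if n < 1 then 1 else ghostN 3 2 0 (D3.wx3 (2 * y)) (n - 1)) := by
  intro n y hy
  by_cases hn : n < 1
  · have hn0 : n = 0 := by omega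
    subst hn0
    have hT : ∀ m, (par32 h).T 0 m = 0 := fun m => by
      unfold Par.T
      omega
    simp only [if_pos hn, Par.B, hT, pow_zero, Finset.prod_const_one, Finset.sum_const_zero]
    simp
  · simp only [if_neg hn]
    rw [ig_prod 3 2 0 (D3.wx3 (2 * y)) (n - 1) (2 * n + 2) (fun m => 2 * m) ig_phi2
      (fun m => ⟨even_two_mul m, by unfold Nat.ModEq; omega⟩)
      (fun k hk => ⟨k / 2, by obtain ⟨⟨r, hr⟩, _⟩ := hk; show 2 * (k / 2) = k; omega⟩)
      (fun m => TLN 0 n m) (fun m => ig_mult32 n m (by omega))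
      (fun m hm => ig_T0 0 n m (by norm_num) hm)]
    exact ig_norm (p := 3) _ y _ _ (fun m => ig_fac3 hy m)

/-- For the pair `(3,4)`. -/
theorem ghost34 (h : In34) : (par34 h).Ghost
    (fun y n => if n < 2 then 1 else ghostN 3 4 0 (D3.wx3 (2 * y)) (n - 2)) := by
  intro n y hy
  by_cases hn : n < 2
  · have hT : ∀ m, (par34 h).T n m = 0 := fun m => by
      unfold Par.T par34 tLN cenLN
      simp only [if_neg (show ¬ (1 : ℕ) = 0 by norm_num), if_true]
      omega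
    simp only [if_pos hn, Par.B, hT, pow_zero, Finset.prod_const_one, Finset.sum_const_zero]
    simp
  · simp only [if_neg hn]
    rw [ig_prod 3 4 0 (D3.wx3 (2 * y)) (n - 2) (2 * n + 2) (fun m => 2 * m) ig_phi2
      (fun m => ⟨even_two_mul m, by unfold Nat.ModEq; omega⟩)
      (fun k hk => ⟨k / 2, by obtain ⟨⟨r, hr⟩, _⟩ := hk; show 2 * (k / 2) = k; omega⟩)
      (fun m => TLN 1 n m) (fun m => ig_mult34 n m (by omega))
      (fun m hm => ig_T0 1 n m (by norm_num) hm)]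
    exact ig_norm (p := 3) _ y _ _ (fun m => ig_fac3 hy m)

/-- For the pair `(5,2)`. -/
theorem ghost52 (h : In52) (c : ℕ) (hc : c ≤ 1) : (par52 h c).Ghost
    (fun y n => if n < 1 then 1 else
      ghostN 5 2 c (121 ^ c * (1 + D5.wx5 (2 * y)) - 1) (n - 1)) := by
  intro n y hy
  by_cases hn : n < 1
  · have hn0 : n = 0 := by omega
    subst hn0
    have hT : ∀ m, (par52 h c).T 0 m = 0 := fun m => by
      unfold Par.T
      omega
    simp only [if_pos hn, Par.B, hT, pow_zero, Finset.prod_const_one, Finset.sum_const_zero]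
    simp
  · simp only [if_neg hn]
    rw [ig_prod 5 2 c ((121 : D5.C5) ^ c * (1 + D5.wx5 (2 * y)) - 1) (n - 1) (2 * n + 2)
      (fun m => 4 * m + 2 * c)
      (fun a b hab => by
        have h' : 4 * a + 2 * c = 4 * b + 2 * c := hab
        omega)
      (fun m => ⟨by rw [Nat.even_iff]; omega, by unfold Nat.ModEq; omega⟩)
      (fun k hk => ⟨k / 4, by
        obtain ⟨_, h2⟩ := hk
        unfold Nat.ModEq at h2
        show 4 * (k / 4) + 2 * c = k
        omega⟩)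
      (fun m => TLN (2 + c) n m) (fun m => ig_mult52 hc n m (by omega))
      (fun m hm => ig_T0 (2 + c) n m (by omega) hm)]
    exact ig_norm (p := 5) _ y _ _ (fun m => ig_fac5 hy c m)

end GH.LM
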