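import Pool.Agent.GH.LM.Dat32
import Pool.Agent.GH.LM.Dat34
import Pool.Agent.GH.LM.Dat52
import Pool.Agent.GH.LN.SerN

/-!
# GH-LM, instances: growth of the series
-/

open PowerSeries

noncomputable section

namespace GH.LM

open GH.TrJ GH.CombU

section generic

variable {p : ℕ} [Fact p.Prime] {d : ℕ}

theorem ig_mon (k : ℕ) {c : ℤ_[p]} (h : (p : ℤ_[p]) ^ MatU.phD d k ∣ c) :
    MatU.GrD d (C c * X ^ k) := by
  intro n
  rw [coeff_C_mul, coeff_X_pow]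
  split_ifs with hn
  · subst hn
    rw [mul_one]
    exact h
  · rw [mul_zero]
    exact dvd_zero _

theorem ig_add {A B : PowerSeries ℤ_[p]} (hA : MatU.GrD d A) (hB : MatU.GrD d B) :
    MatU.GrD d (A + B) := fun n => by
  rw [map_add]
  exact dvd_add (hA n) (hB n)

theorem ig_sub {A B : PowerSeries ℤ_[p]} (hA : MatU.GrD d A) (hB : MatU.GrD d B) :
    MatU.GrD d (A - B) := fun n => by
  rw [map_sub]
  exact dvd_sub (hA n) (hB n)

theorem ig_shift (hd : 0 < d) {A : PowerSeries ℤ_[p]} (hA : MatU.GrD d A) {e k : ℕ}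
    {c : ℤ_[p]} (hc : (p : ℤ_[p]) ^ e ∣ c) (hk : k ≤ d * e) :
    MatU.GrD d (C c * (X ^ k * A)) := by
  intro n
  rw [coeff_C_mul, coeff_X_pow_mul']
  split_ifs with hn
  · have h1 : MatU.phD d n ≤ e + MatU.phD d (n - k) := by
      have h2 := MatU.phD_add hd k (n - k)
      rw [Nat.add_sub_cancel' hn] at h2
      have h3 := (MatU.phD_le_iff hd).2 hk
      omega
    refine (pow_dvd_pow _ h1).trans ?_
    rw [pow_add]
    exact mul_dvd_mul hc (hA _)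
  · rw [mul_zero]
    exact dvd_zero _

theorem ig_map {F : PowerSeries ℤ} {G : PowerSeries ℤ_[p]}
    (h : PowerSeries.map (Int.castRingHom ℤ_[p]) F = G)
    (hF : ∀ n, (p : ℤ) ^ MatU.phD d n ∣ coeff n F) : MatU.GrD d G := by
  intro n
  rw [← h, coeff_map]
  obtain ⟨c, hc⟩ := hF n
  rw [hc]
  refine ⟨(c : ℤ_[p]), ?_⟩
  rw [map_mul, map_pow]
  simp

theorem ig_deg (hd : 0 < d) {a : ℕ} {F : PowerSeries ℤ_[p]} (h : ∀ n, a < n → coeff n F = 0) :
    MatU.GrS d a F := by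
  intro n
  rcases Nat.lt_or_ge a n with hn | hn
  · rw [h n hn]
    exact dvd_zero _
  · rw [Nat.sub_eq_zero_of_le hn, MatU.phD_zero hd, pow_zero]
    exact one_dvd _

theorem ig_pol (hd : 0 < d) {a : ℕ} {F : PowerSeries ℤ_[p]} (Q : Polynomial ℤ_[p])
    (h : Q.natDegree ≤ a) (e : (Q : PowerSeries ℤ_[p]) = F) : MatU.GrS d a F := by
  subst e
  refine ig_deg hd fun n hn => ?_
  rw [Polynomial.coeff_coe]
  exact Polynomial.coeff_eq_zero_of_natDegree_lt (h.trans_lt hn)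

end generic

/-! ### `(3,2)` -/

section p32

open GH.D32

theorem ig_S32 (h : In32) : MatU.GrD 2 (S32 ℤ_[3]) := by
  refine ig_map (LN.map_SN 3 2 three_ne ℤ (Int.castRingHom ℤ_[3])) fun n => ?_
  exact h.gr n

theorem ig_g32 (h : In32) {e : ℕ} {k : ℕ} {c : ℤ_[3]} (hc : ((3 : ℕ) : ℤ_[3]) ^ e ∣ c)
    (hk : 3 * k ≤ 2 * e) : MatU.GrD 2 (C c * gs32 ℤ_[3] ^ k) := by
  have h1 := ((ig_S32 h).inv (by norm_num) (h.S0 _)).pow (by norm_num) k
  rw [gs32, mul_pow, ← pow_mul]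
  exact ig_shift (by norm_num) h1 hc hk

theorem ig_c32 (k : ℕ) (hk : k ≠ 0) : constantCoeff (gs32 ℤ_[3] ^ k) = 0 := by
  rw [map_pow, gs32, map_mul, map_pow, constantCoeff_X, zero_pow (by norm_num), zero_mul,
    zero_pow hk]

theorem ig_p32 (h : In32) : MatU.GrD 2 (1 + 18 * gs32 ℤ_[3] - 27 * gs32 ℤ_[3] ^ 2) := by
  have h1 := ig_g32 h (e := 2) (k := 1) (c := 18) ⟨2, by norm_num⟩ (by norm_num)
  have h2 := ig_g32 h (e := 3) (k := 2) (c := 27) ⟨1, by norm_num⟩ (by norm_num)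
  rw [pow_one, map_ofNat] at h1
  rw [map_ofNat] at h2
  exact ig_sub (ig_add (MatU.GrD.one (by norm_num)) h1) h2

theorem ig_n32 : MatU.GrD 2 (1 - 6 * X - 3 * X ^ 2 : PowerSeries ℤ_[3]) := by
  have h1 := ig_mon (p := 3) (d := 2) 1 (c := 6) ⟨2, by norm_num [MatU.phD]⟩
  have h2 := ig_mon (p := 3) (d := 2) 2 (c := 3) ⟨1, by norm_num [MatU.phD]⟩
  rw [pow_one, map_ofNat] at h1
  rw [map_ofNat] at h2
  exact ig_sub (ig_sub (MatU.GrD.one (by norm_num)) h1) h2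

theorem ig_ps32 (h : In32) : MatU.GrD 2 (ps32 (gs32 ℤ_[3])) := by
  have h1 := ig_g32 h (e := 2) (k := 1) (c := 9) ⟨1, by norm_num⟩ (by norm_num)
  rw [pow_one, map_ofNat] at h1
  exact ((ig_sub (MatU.GrD.one (by norm_num)) h1).pow (by norm_num) 2).mul (by norm_num)
    (ig_p32 h)

/-- Growth for `(3,2)`. -/
theorem gr32 (h : In32) : (par32 h).Gr := by
  have h0 : 0 < 2 := by norm_num
  have hS := ig_S32 h
  refine ⟨hS, (ig_p32 h).mul h0 (ig_n32.inv h0 (by simp)), ?_⟩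
  have h1 : MatU.GrS 2 2 ((1 - X) ^ 2 : PowerSeries ℤ_[3]) :=
    ig_pol h0 ((1 - Polynomial.X) ^ 2) (by compute_degree) (by simp)
  have h3 : constantCoeff (ps32 (gs32 ℤ_[3])) = 1 := by
    have := ig_c32 1 one_ne_zero
    have := ig_c32 2 two_ne_zero
    simp_all [ps32]
  have h4 := ((hS.inv h0 (h.S0 _)).grS h0 0).mul h0 (h1.mul h0 (ig_n32.grS h0 0))
  have h5 := h4.mul h0 (((ig_ps32 h).inv h0 h3).grS h0 0)
  have h6 : 0 + (2 + 0) + 0 = (par32 h).D := rfl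
  rw [h6] at h5
  exact h5

end p32

/-! ### `(3,4)` -/

section p34

open GH.D34

theorem ig_S34 (h : In34) : MatU.GrD 4 (S34 ℤ_[3]) := by
  refine ig_map (LN.map_SN 3 4 three_ne ℤ (Int.castRingHom ℤ_[3])) fun n => ?_
  exact h.gr n

theorem ig_ps34 (h : In34) : MatU.GrD 4 (ps34 (gs34 ℤ_[3])) := by
  have h0 : 0 < 4 := by norm_num
  have h1 := ((ig_S34 h).inv h0 (h.S0 _)).pow h0 2
  have h2 : MatU.GrD 4 (C 9 * gs34 ℤ_[3] ^ 2) := by
    rw [gs34, mul_pow, ← pow_mul]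
    exact ig_shift h0 h1 (e := 2) ⟨1, by norm_num⟩ (by norm_num)
  rw [map_ofNat] at h2
  exact (ig_sub (MatU.GrD.one h0) h2).pow h0 2

/-- Growth for `(3,4)`. -/
theorem gr34 (h : In34) : (par34 h).Gr := by
  have h0 : 0 < 4 := by norm_num
  have hS := ig_S34 h
  have hi := hS.inv h0 (h.S0 _)
  refine ⟨hS, hi, ?_⟩
  have h1 : MatU.GrS 4 4 ((1 - X ^ 2) ^ 2 : PowerSeries ℤ_[3]) :=
    ig_pol h0 ((1 - Polynomial.X ^ 2) ^ 2) (by compute_degree) (by simp)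
  have h3 : constantCoeff (ps34 (gs34 ℤ_[3])) = 1 := by
    simp [ps34, gs34]
  have h4 := ((hi.grS h0 0).mul h0 h1).mul h0 (((ig_ps34 h).inv h0 h3).grS h0 0)
  have h5 : 0 + 4 + 0 = (par34 h).D := rfl
  rw [h5] at h4
  exact h4

end p34

/-! ### `(5,2)` -/

section p52

open GH.D52

theorem ig_S52 (h : In52) : MatU.GrD 6 (S52 ℤ_[5]) := by
  refine ig_map (LN.map_SN 5 2 five_ne ℤ (Int.castRingHom ℤ_[5])) fun n => ?_
  exact h.gr n

theorem ig_g52 (h : In52) {e : ℕ} {k : ℕ} {c : ℤ_[5]} (hc : ((5 : ℕ) : ℤ_[5]) ^ e ∣ c)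
    (hk : 5 * k ≤ 6 * e) : MatU.GrD 6 (C c * gs52 ℤ_[5] ^ k) := by
  have h1 := ((ig_S52 h).inv (by norm_num) (h.S0 _)).pow (by norm_num) k
  rw [gs52, mul_pow, ← pow_mul]
  exact ig_shift (by norm_num) h1 hc hk

theorem ig_ps52 (h : In52) (c : ℕ) : MatU.GrD 6 (ps52 c (gs52 ℤ_[5])) := by
  have h0 : 0 < 6 := by norm_num
  have h1 := ig_g52 h (e := 1) (k := 1) (c := 5) ⟨1, by norm_num⟩ (by norm_num)
  have h2 := ig_g52 h (e := 1) (k := 1) (c := 20) ⟨4, by norm_num⟩ (by norm_num)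
  have h3 := ig_g52 h (e := 2) (k := 2) (c := 25) ⟨1, by norm_num⟩ (by norm_num)
  rw [pow_one, map_ofNat] at h1 h2
  rw [map_ofNat] at h3
  exact ((ig_sub (MatU.GrD.one h0) h1).pow h0 4).mul h0
    ((ig_sub (ig_add (MatU.GrD.one h0) h2) h3).pow h0 (1 - c))

/-- Growth for `(5,2)`. -/
theorem gr52 (h : In52) (c : ℕ) (hc : c ≤ 1) : (par52 h c).Gr := by
  have h0 : 0 < 6 := by norm_num
  have hS := ig_S52 h
  have hi := hS.inv h0 (h.S0 _)
  refine ⟨hS, hi, ?_⟩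
  have h1 : MatU.GrS 6 4 ((1 - X) ^ 4 : PowerSeries ℤ_[5]) :=
    ig_pol h0 ((1 - Polynomial.X) ^ 4) (by compute_degree) (by simp)
  have h2 : MatU.GrS 6 2 (1 - 4 * X - X ^ 2 : PowerSeries ℤ_[5]) :=
    by
    refine ig_pol h0 (1 - 4 * Polynomial.X - Polynomial.X ^ 2) (by compute_degree) ?_
    rw [← Polynomial.coeToPowerSeries.ringHom_apply, map_sub, map_sub, map_mul, map_pow, map_one,
      map_ofNat, Polynomial.coeToPowerSeries.ringHom_apply, Polynomial.coe_X]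
  have h3 : constantCoeff (ps52 c (gs52 ℤ_[5])) = 1 := by
    simp [ps52, gs52]
  have h4 := ((hi.grS h0 0).mul h0 (h1.mul h0 (h2.pow h0 (1 - c)))).mul h0
    (((ig_ps52 h c).inv h0 h3).grS h0 0)
  have h5 : 0 + (4 + (1 - c) * 2) + 0 = (par52 h c).D := by
    show _ = if c = 0 then 6 else 4
    split_ifs <;> omega
  rw [h5] at h4
  exact h4

end p52

end GH.LM
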