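import Pool.Agent.GH.LM.INum

/-!
# GH-LMI-7: the columns above the centre
-/

open PowerSeries

noncomputable section

namespace GH.LM

open GH.CombU

/-- The entries in the columns above the centre, generic form. -/
theorem hc_of {p : ℕ} [Fact p.Prime] (P : Par p) (hn : P.Num) (hg : P.Gr)
    (hi : ∀ ε ≤ 1, ∀ m i j, P.cen m ≤ j + 1 → j + 1 ≤ p * (i + 1) →
      P.s m + P.gm ε i ≤ P.gm ε j + MatU.phD P.d (p * (i + 1) - (j + 1) - P.D)) : P.Hc := by
  intro ε hε m i j hcen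
  have hd := hn.d0
  have e1 : (P.PM i j).eval ((m : ℕ) : ℤ_[p]) =
      MatU.ent p (P.Tv ^ m * P.F) P.S (i + 1) (j + 1) :=
    MatU.MQ_eval hd hn.Tv0 hg.Tv P.S P.F (i + 1) (j + 1) m
  rw [e1, MatU.ent]
  by_cases hij : j + 1 ≤ p * (i + 1)
  · rw [if_pos hij]
    have h1 : MatU.GrS P.d (0 + P.D + 0) (P.Tv ^ m * P.F * P.S ^ (i + 1)) :=
      (((hg.Tv.pow hd m).grS hd 0).mul hd hg.F).mul hd ((hg.S.pow hd (i + 1)).grS hd 0)
    rw [zero_add, add_zero] at h1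
    have h2 : (p : ℤ_[p]) ^ MatU.phD P.d (p * (i + 1) - (j + 1) - P.D) ∣
        coeff (p * (i + 1) - (j + 1)) (P.Tv ^ m * P.F * P.S ^ (i + 1)) :=
      h1 (p * (i + 1) - (j + 1))
    have h4 : (p : ℤ_[p]) ^ (P.s m + P.gm ε i) ∣
        (p : ℤ_[p]) ^ P.gm ε j * (p : ℤ_[p]) ^ MatU.phD P.d (p * (i + 1) - (j + 1) - P.D) := by
      rw [← pow_add]
      exact pow_dvd_pow _ (hi ε hε m i j hcen hij)
    exact h4.trans (mul_dvd_mul_left _ h2)
  · rw [if_neg hij, mul_zero]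
    exact dvd_zero _

theorem hc32 (h : In32) (hg : (par32 h).Gr) : (par32 h).Hc := by
  refine hc_of _ (num32 h) hg ?_
  intro ε hε m i j h1 h2
  change cenLN 0 m ≤ j + 1 at h1
  change sLN 0 m + (2 * (i + 1) + ε) / 2 ≤
    (2 * (j + 1) + ε) / 2 + MatU.phD 2 (3 * (i + 1) - (j + 1) - 2)
  unfold cenLN at h1
  unfold sLN MatU.phD
  simp only [if_true] at h1 ⊢
  omega

theorem hc34 (h : In34) (hg : (par34 h).Gr) : (par34 h).Hc := by
  refine hc_of _ (num34 h) hg ?_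
  intro ε hε m i j h1 h2
  change cenLN 1 m ≤ j + 1 at h1
  change sLN 1 m + (1 * (i + 1) + ε) / 2 ≤
    (1 * (j + 1) + ε) / 2 + MatU.phD 4 (3 * (i + 1) - (j + 1) - 4)
  unfold cenLN at h1
  unfold sLN MatU.phD
  rw [if_neg one_ne_zero, if_pos rfl] at h1 ⊢
  omega

theorem hc52 (h : In52) (c : ℕ) (hc : c ≤ 1) (hg : (par52 h c).Gr) : (par52 h c).Hc := by
  refine hc_of _ (num52 h c hc) hg ?_
  intro ε hε m i j h1 h2
  change cenLN (2 + c) m ≤ j + 1 at h1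
  change sLN (2 + c) m + (1 * (i + 1) + ε) / 2 ≤
    (1 * (j + 1) + ε) / 2 + MatU.phD 6 (5 * (i + 1) - (j + 1) - if c = 0 then 6 else 4)
  unfold cenLN at h1
  unfold sLN MatU.phD
  obtain rfl | rfl : c = 0 ∨ c = 1 := by omega
  · rw [if_neg (by norm_num), if_neg (by norm_num), if_pos (by norm_num)] at h1 ⊢
    rw [if_pos rfl]
    omega
  · rw [if_neg (by norm_num), if_neg (by norm_num), if_neg (by norm_num)] at h1 ⊢
    rw [if_neg one_ne_zero]
    omega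

end GH.LM
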