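import Pool.Agent.GH.LM.Dat32
import Pool.Agent.GH.LM.Dat34
import Pool.Agent.GH.LM.Dat52

/-!
# GH-LM, instances: the antidiagonal entries
-/

noncomputable section

namespace GH.LM

open GH.CombU

section

variable {p : ℕ} [Fact p.Prime] (P : Par p)

theorem ikap_norm {m v : ℕ}
    (hσ : ‖(((P.dat m).σ : ℚ) : ℚ_[p])‖ = (p : ℝ) ^ (-(v : ℤ)))
    (hc : ‖(((P.dat m).c : ℚ) : ℚ_[p])‖ = (p : ℝ) ^ (-(P.e : ℤ))) (j : ℕ) :
    ‖((P.kap m j : ℚ) : ℚ_[p])‖ =
      (p : ℝ) ^ ((v : ℤ) + P.e * ((P.t m : ℤ) - (P.cen m - (j + 1) : ℕ))) := by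
  have hp0 : (p : ℝ) ≠ 0 := by exact_mod_cast (Fact.out : p.Prime).ne_zero
  unfold Par.kap
  push_cast
  rw [norm_inv, norm_mul, norm_zpow, hσ, hc, ← zpow_mul, ← zpow_add₀ hp0, ← zpow_neg]
  congr 1
  ring

theorem ikap_all (he : P.e = 1 ∨ P.e = 2)
    (h : ∀ m, 0 < P.cen m → ∃ v : ℕ,
      ‖(((P.dat m).σ : ℚ) : ℚ_[p])‖ = (p : ℝ) ^ (-(v : ℤ)) ∧
      ‖(((P.dat m).c : ℚ) : ℚ_[p])‖ = (p : ℝ) ^ (-(P.e : ℤ)) ∧
      2 * (v + P.e * P.t m + P.s m) = P.e * P.cen m) : P.Kap ∧ P.KapProd := by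
  have hp0 : (p : ℝ) ≠ 0 := by exact_mod_cast (Fact.out : p.Prime).ne_zero
  constructor
  · intro ε hε m i j hij
    obtain ⟨v, hσ, hc, hv⟩ := h m (by omega)
    rw [ikap_norm P hσ hc, ← zpow_add₀ hp0]
    congr 1
    have h1 : P.cen m - (j + 1) = i + 1 := by omega
    rw [h1]
    unfold Par.gm
    rcases he with he | he <;> rw [he] at hv ⊢ <;> push_cast <;> omega
  · intro m n n' hn hm
    obtain ⟨v, hσ, hc, hv⟩ := h m (by omega)
    obtain ⟨d, rfl⟩ := Nat.exists_eq_add_of_le hn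
    have h2 : ‖∏ j ∈ Finset.Ico n' (n' + d), ((P.kap m j : ℚ) : ℚ_[p])‖ =
        ∏ j ∈ Finset.Ico n' (n' + d), (p : ℝ) ^ ((P.e : ℤ) * (j : ℤ) +
          ((v : ℤ) + P.e * P.t m - P.e * P.cen m + P.e)) := by
      rw [norm_prod]
      refine Finset.prod_congr rfl fun j hj ↦ ?_
      rw [Finset.mem_Ico] at hj
      rw [ikap_norm P hσ hc]
      congr 1
      have h3 : ((P.cen m - (j + 1) : ℕ) : ℤ) = (P.cen m : ℤ) - (j + 1) := by
        rw [Nat.cast_sub (by omega)]
        push_cast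
        ring
      rw [h3]
      ring
    rw [h2]
    have h3 : ∀ s : Finset ℕ, ∀ f : ℕ → ℤ,
        ∏ j ∈ s, (p : ℝ) ^ f j = (p : ℝ) ^ ∑ j ∈ s, f j := by
      intro s f
      induction s using Finset.induction_on with
      | empty => simp
      | insert a s ha ih =>
        rw [Finset.prod_insert ha, Finset.sum_insert ha, ih, zpow_add₀ hp0]
    rw [h3, Finset.sum_add_distrib, Finset.sum_const, Nat.card_Ico, ← Finset.mul_sum]
    congr 1
    have h4 : ∀ d : ℕ, 2 * ∑ j ∈ Finset.Ico n' (n' + d), (j : ℤ) = d * (2 * n' + d - 1) := by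
      intro d
      induction d with
      | zero => simp
      | succ d ih =>
        rw [← add_assoc, Finset.sum_Ico_succ_top (by omega), mul_add, ih]
        push_cast
        ring
    have h5 : n' + d - n' = d := by omega
    rw [h5]
    have h6 : (P.cen m : ℤ) = n' + d + n' + 1 := by exact_mod_cast hm.symm
    have h7 : (2 : ℤ) * (v + P.e * P.t m + P.s m) = P.e * P.cen m := by exact_mod_cast hv
    have h8 : (2 : ℤ) * ((P.e : ℤ) * ∑ j ∈ Finset.Ico n' (n' + d), (j : ℤ) +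
        d • ((v : ℤ) + P.e * P.t m - P.e * P.cen m + P.e)) =
        2 * (-((d * P.s m : ℕ) : ℤ)) := by
      have h9 := h4 d
      rw [nsmul_eq_mul]
      push_cast
      linear_combination (P.e : ℤ) * h9 - (P.e : ℤ) * d * h6 + (d : ℤ) * h7
    exact mul_left_cancel₀ (by norm_num) h8

end

theorem ikap_p3 : ‖((3 : ℚ) : ℚ_[3])‖ = (3 : ℝ)⁻¹ := by
  have h := Padic.norm_p (p := 3)
  push_cast at h ⊢
  exact h

theorem ikap_p5 : ‖((5 : ℚ) : ℚ_[5])‖ = (5 : ℝ)⁻¹ := by
  have h := Padic.norm_p (p := 5)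
  push_cast at h ⊢
  exact h

theorem ikap32 (h : In32) : (par32 h).Kap ∧ (par32 h).KapProd := by
  refine ikap_all _ (Or.inr rfl) fun m hm => ?_
  have h3 := ikap_p3
  push_cast at h3
  have hcen : (par32 h).cen m = 2 * m := rfl
  have ht : (par32 h).t m = m / 2 := rfl
  have hs : (par32 h).s m = m - 1 := rfl
  have he : (par32 h).e = 2 := rfl
  rw [hcen] at hm
  rcases Nat.mod_two_eq_zero_or_one m with hm2 | hm2
  · have hd : (par32 h).dat m = dat32e h := if_pos hm2
    refine ⟨1, ?_, ?_, ?_⟩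
    · rw [hd, show (dat32e h).σ = 3 by rw [TrJ.Data.σ]; norm_num [dat32e]]
      push_cast
      rw [h3]
      norm_num
    · rw [hd, he, show (dat32e h).c = 9 from rfl, show (9 : ℚ) = 3 * 3 by norm_num]
      push_cast
      rw [norm_mul, h3]
      norm_num
    · rw [hcen, ht, hs, he]
      omega
  · have hd : (par32 h).dat m = dat32o h := if_neg (by omega)
    refine ⟨2, ?_, ?_, ?_⟩
    · rw [hd, show (dat32o h).σ = -(3 * 3) by rw [TrJ.Data.σ]; norm_num [dat32o]]
      push_cast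
      rw [norm_neg, norm_mul, h3]
      norm_num
    · rw [hd, he, show (dat32o h).c = 9 from rfl, show (9 : ℚ) = 3 * 3 by norm_num]
      push_cast
      rw [norm_mul, h3]
      norm_num
    · rw [hcen, ht, hs, he]
      omega

theorem ikap34 (h : In34) : (par34 h).Kap ∧ (par34 h).KapProd := by
  refine ikap_all _ (Or.inl rfl) fun m hm => ?_
  have h3 := ikap_p3
  push_cast at h3
  have hcen : (par34 h).cen m = 4 * m := rfl
  have ht : (par34 h).t m = m := rfl
  have hs : (par34 h).s m = m - 1 := rfl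
  have he : (par34 h).e = 1 := rfl
  rw [hcen] at hm
  have hd : (par34 h).dat m = dat34 h := rfl
  refine ⟨1, ?_, ?_, ?_⟩
  · rw [hd, show (dat34 h).σ = 3 by rw [TrJ.Data.σ]; norm_num [dat34]]
    push_cast
    rw [h3]
    norm_num
  · rw [hd, he, show (dat34 h).c = -3 from rfl]
    push_cast
    rw [norm_neg, h3]
    norm_num
  · rw [hcen, ht, hs, he]
    omega

theorem ikap52 (h : In52) (c : ℕ) (hc : c ≤ 1) : (par52 h c).Kap ∧ (par52 h c).KapProd := by
  refine ikap_all _ (Or.inl rfl) fun m hm => ?_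
  have h5 := ikap_p5
  push_cast at h5
  have he : (par52 h c).e = 1 := rfl
  have hc' : c = 0 ∨ c = 1 := by omega
  rcases hc' with rfl | rfl
  · have hcen : (par52 h 0).cen m = 6 * m := rfl
    have ht : (par52 h 0).t m = m := rfl
    have hs : (par52 h 0).s m = 2 * m - 1 := rfl
    rw [hcen] at hm
    have hd : (par52 h 0).dat m = dat52a h := by
      show (if (0 : ℕ) = 0 then dat52a h else dat52b h) = dat52a h
      exact if_pos rfl
    refine ⟨1, ?_, ?_, ?_⟩
    · rw [hd, show (dat52a h).σ = 5 by rw [TrJ.Data.σ]; norm_num [dat52a]]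
      push_cast
      rw [h5]
      norm_num
    · rw [hd, he, show (dat52a h).c = 5 from rfl]
      push_cast
      rw [h5]
      norm_num
    · rw [hcen, ht, hs, he]
      omega
  · have hcen : (par52 h 1).cen m = 6 * m + 2 := rfl
    have ht : (par52 h 1).t m = m := rfl
    have hs : (par52 h 1).s m = 2 * m := rfl
    have hd : (par52 h 1).dat m = dat52b h := by
      show (if (1 : ℕ) = 0 then dat52a h else dat52b h) = dat52b h
      exact if_neg one_ne_zero
    refine ⟨1, ?_, ?_, ?_⟩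
    · rw [hd, show (dat52b h).σ = -5 by rw [TrJ.Data.σ]; norm_num [dat52b]]
      push_cast
      rw [norm_neg, h5]
      norm_num
    · rw [hd, he, show (dat52b h).c = 5 from rfl]
      push_cast
      rw [h5]
      norm_num
    · rw [hcen, ht, hs, he]
      omega

theorem kap32 (h : In32) : (par32 h).Kap := (ikap32 h).1
theorem kapProd32 (h : In32) : (par32 h).KapProd := (ikap32 h).2
theorem kap34 (h : In34) : (par34 h).Kap := (ikap34 h).1
theorem kapProd34 (h : In34) : (par34 h).KapProd := (ikap34 h).2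
theorem kap52 (h : In52) (c : ℕ) (hc : c ≤ 1) : (par52 h c).Kap := (ikap52 h c hc).1
theorem kapProd52 (h : In52) (c : ℕ) (hc : c ≤ 1) : (par52 h c).KapProd := (ikap52 h c hc).2

end GH.LM
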