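import Pool.Agent.GH.LM.Dat32
import Pool.Agent.GH.LM.Dat34
import Pool.Agent.GH.LM.Dat52

/-!
# GH-LMI-1: the numbers of the types
-/

open PowerSeries

noncomputable section

namespace GH.LM

open GH.TrJ GH.CombU

theorem inum_gs (p : ℕ) (hp : p ≠ 0) (R : Type) [CommRing R] (S : PowerSeries R) :
    constantCoeff (X ^ p * invOfUnit S 1) = 0 := by
  rw [map_mul, map_pow, constantCoeff_X, zero_pow hp, zero_mul]

theorem num32 (h : In32) : (par32 h).Num where
  d0 := by change 0 < 2; norm_num
  e0 := by change 1 ≤ 2; norm_num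
  e2 := by change 2 ≤ 2; norm_num
  p2 := by norm_num
  dp := by
    intro m
    change (if m % 2 = 0 then dat32e h else dat32o h).p = 3
    split_ifs <;> rfl
  dc := by
    intro m
    change |(if m % 2 = 0 then dat32e h else dat32o h).c| = ((3 : ℕ) : ℚ) ^ 2
    have hc : (if m % 2 = 0 then dat32e h else dat32o h).c = 9 := by
      split_ifs <;> rfl
    rw [hc]
    norm_num
  dm := by
    intro m
    change (if m % 2 = 0 then dat32e h else dat32o h).m (tLN 0 m) = cenLN 0 m
    unfold tLN cenLN
    rw [if_pos rfl, if_pos rfl]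
    split_ifs with hm
    · change (3 + 1) * (m / 2) + 0 = 2 * m
      omega
    · change (3 + 1) * (m / 2) + 2 = 2 * m
      omega
  S0 := h.S0 ℤ_[3]
  Tv0 := by
    change constantCoeff ((1 + 18 * D32.gs32 ℤ_[3] - 27 * D32.gs32 ℤ_[3] ^ 2) *
      invOfUnit (1 - 6 * X - 3 * X ^ 2) 1) = 1
    have hg : constantCoeff (D32.gs32 ℤ_[3]) = 0 := inum_gs 3 (by norm_num) _ _
    rw [map_mul, constantCoeff_invOfUnit, map_sub, map_add, map_mul, map_mul, map_pow, hg]
    simp
  tm := by
    intro n m hm
    change n < tLN 0 m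
    unfold tLN
    rw [if_pos rfl]
    omega

theorem num34 (h : In34) : (par34 h).Num where
  d0 := by change 0 < 4; norm_num
  e0 := by change 1 ≤ 1; norm_num
  e2 := by change 1 ≤ 2; norm_num
  p2 := by norm_num
  dp := fun _ => rfl
  dc := by
    intro m
    change |(-3 : ℚ)| = ((3 : ℕ) : ℚ) ^ 1
    norm_num
  dm := by
    intro m
    change (3 + 1) * (tLN 1 m) + 0 = cenLN 1 m
    unfold tLN cenLN
    rw [if_neg one_ne_zero, if_neg one_ne_zero, if_pos rfl, add_zero]
  S0 := h.S0 ℤ_[3]
  Tv0 := by
    change constantCoeff (invOfUnit (D34.S34 ℤ_[3]) 1) = 1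
    rw [constantCoeff_invOfUnit]
    simp
  tm := by
    intro n m hm
    change n < tLN 1 m
    unfold tLN
    rw [if_neg one_ne_zero]
    omega

theorem num52 (h : In52) (c : ℕ) (hc : c ≤ 1) : (par52 h c).Num where
  d0 := by change 0 < 6; norm_num
  e0 := by change 1 ≤ 1; norm_num
  e2 := by change 1 ≤ 2; norm_num
  p2 := by norm_num
  dp := by
    intro m
    change (if c = 0 then dat52a h else dat52b h).p = 5
    split_ifs <;> rfl
  dc := by
    intro m
    change |(if c = 0 then dat52a h else dat52b h).c| = ((5 : ℕ) : ℚ) ^ 1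
    have hc : (if c = 0 then dat52a h else dat52b h).c = 5 := by
      split_ifs <;> rfl
    rw [hc]
    norm_num
  dm := by
    intro m
    change (if c = 0 then dat52a h else dat52b h).m (tLN (2 + c) m) = cenLN (2 + c) m
    obtain rfl | rfl : c = 0 ∨ c = 1 := by omega
    · change (5 + 1) * (tLN 2 m) + 0 = cenLN 2 m
      unfold tLN cenLN
      rw [if_neg (by norm_num), if_neg (by norm_num), if_neg (by norm_num), if_pos rfl, add_zero]
    · change (5 + 1) * (tLN 3 m) + 2 = cenLN 3 m
      unfold tLN cenLN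
      rw [if_neg (by norm_num), if_neg (by norm_num), if_neg (by norm_num), if_neg (by norm_num)]
  S0 := h.S0 ℤ_[5]
  Tv0 := by
    change constantCoeff (invOfUnit (D52.S52 ℤ_[5]) 1) = 1
    rw [constantCoeff_invOfUnit]
    simp
  tm := by
    intro n m hm
    change n < tLN (2 + c) m
    unfold tLN
    rw [if_neg (by omega)]
    omega

end GH.LM
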