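import Pool.Agent.GH.LM.Dat32
import Pool.Agent.GH.LM.Dat34
import Pool.Agent.GH.LM.Dat52

/-!
# GH-LM, instances: the numerical property of the growth at depth one
-/

namespace GH.LM

/-- Legendre's formula, one step. -/
theorem iomg_v (p : ℕ) [hp : Fact p.Prime] (j : ℕ) : ∃ q w r : ℕ, j = p * q + r ∧ r < p ∧
    padicValNat p j.factorial = w + q ∧ (q = 0 → w = 0) ∧ (1 ≤ q → (p - 1) * w + 1 ≤ q) := by
  refine ⟨j / p, padicValNat p (j / p).factorial, j % p, (Nat.div_add_mod j p).symm,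
    Nat.mod_lt _ hp.out.pos, ?_, fun h => ?_, fun h => ?_⟩
  · conv_lhs => rw [← Nat.div_add_mod j p]
    rw [padicValNat_factorial_mul_add _ (Nat.mod_lt _ hp.out.pos), padicValNat_factorial_mul]
  · rw [h, Nat.factorial_zero, padicValNat.one]
  · exact sub_one_mul_padicValNat_factorial_lt_of_ne_zero p (by omega)

/-- `W` at depth one, `(3,2)`. -/
theorem omg32 (h : In32) : (par32 h).Omg := by
  refine ⟨fun l j hl hj => ?_⟩
  change (2 * l + 1) / 2 + 1 + padicValNat 3 j.factorial ≤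
    max j ((3 * l + 2 - 1) / 2) + (j + 3 - 1) / 3
  obtain ⟨q, w, r, h1, h2, h3, h4, h5⟩ := iomg_v 3 j
  rw [h3]
  have h6 := le_max_left j ((3 * l + 2 - 1) / 2)
  have h7 := le_max_right j ((3 * l + 2 - 1) / 2)
  generalize max j ((3 * l + 2 - 1) / 2) = M at h6 h7 ⊢
  by_cases hq : q = 0
  · have := h4 hq
    omega
  · have := h5 (by omega)
    omega

/-- `W` at depth one, `(3,4)`. -/
theorem omg34 (h : In34) : (par34 h).Omg := by
  refine ⟨fun l j hl hj => ?_⟩
  change (1 * l + 1) / 2 + 1 + padicValNat 3 j.factorial ≤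
    max j ((3 * l + 4 - 1) / 4) + (j + 3 - 1) / 3
  obtain ⟨q, w, r, h1, h2, h3, h4, h5⟩ := iomg_v 3 j
  rw [h3]
  have h6 := le_max_left j ((3 * l + 4 - 1) / 4)
  have h7 := le_max_right j ((3 * l + 4 - 1) / 4)
  generalize max j ((3 * l + 4 - 1) / 4) = M at h6 h7 ⊢
  by_cases hq : q = 0
  · have := h4 hq
    omega
  · have := h5 (by omega)
    omega

/-- `W` at depth one, `(5,2)`. -/
theorem omg52 (h : In52) (c : ℕ) (_hc : c ≤ 1) : (par52 h c).Omg := by
  refine ⟨fun l j hl hj => ?_⟩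
  change (1 * l + 1) / 2 + 1 + padicValNat 5 j.factorial ≤
    max j ((5 * l + 6 - 1) / 6) + (j + 5 - 1) / 5
  haveI : Fact (Nat.Prime 5) := ⟨by norm_num⟩
  obtain ⟨q, w, r, h1, h2, h3, h4, h5⟩ := iomg_v 5 j
  rw [h3]
  have h6 := le_max_left j ((5 * l + 6 - 1) / 6)
  have h7 := le_max_right j ((5 * l + 6 - 1) / 6)
  generalize max j ((5 * l + 6 - 1) / 6) = M at h6 h7 ⊢
  by_cases hq : q = 0
  · have := h4 hq
    omega
  · have := h5 (by omega)
    omega

end GH.LM
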