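import Pool.Agent.GH.LM.Dat32
import Pool.Agent.GH.LM.Dat34
import Pool.Agent.GH.LM.Dat52
import Pool.Agent.GH.CombU.SymLN

/-!
# GH-LM instances: the symmetry of the ghost numbers (I9)
-/

noncomputable section

namespace GH.LM

open GH.CombU

/-- The symmetry of the ghost numbers for `(3,2)`. -/
theorem sym32 (h : In32) : (par32 h).Sym := fun m n n' hn hc ht =>
  symLN 0 (by norm_num) m n n' hn hc ht

/-- The symmetry of the ghost numbers for `(3,4)`. -/
theorem sym34 (h : In34) : (par34 h).Sym := fun m n n' hn hc ht =>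
  symLN 1 (by norm_num) m n n' hn hc ht

/-- The symmetry of the ghost numbers for `(5,2)`. -/
theorem sym52 (h : In52) (c : ℕ) (hc : c ≤ 1) : (par52 h c).Sym := by
  intro m n n' hn hm ht
  have hp : pLN (2 + c) = 5 := by
    unfold pLN
    rw [if_neg (by omega)]
  have h1 := symLN (2 + c) (by omega) m n n' hn hm ht
  unfold FFLN at h1
  rw [hp] at h1
  exact h1

end GH.LM
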