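import Pool.Agent.GH.LM.Dat32
import Pool.Agent.GH.LM.Dat34
import Pool.Agent.GH.LM.Dat52

/-!
# GH-LM, instances: the coefficients of the `x_l`
-/

open PowerSeries

noncomputable section

namespace GH.LM

open GH.TrJ GH.CombU

/-- The growth. -/
private def wX (p e k : ℕ) : ℕ := e * k - e * k / (p + 1)

/-- The coefficient of `X^k` is divisible by `p^(ek - ek/(p+1))`. -/
private def GdX (p e : ℕ) (P : Polynomial ℚ) : Prop :=
  ∀ k, ∃ r : ℤ, P.coeff k = (p : ℚ) ^ wX p e k * r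

private theorem wX_add (p e a b : ℕ) : wX p e (a + b) ≤ wX p e a + wX p e b := by
  unfold wX
  have h1 : e * a / (p + 1) + e * b / (p + 1) ≤ (e * a + e * b) / (p + 1) :=
    Nat.div_add_div_le_add_div
  have h2 := Nat.div_le_self (e * a) (p + 1)
  have h3 := Nat.div_le_self (e * b) (p + 1)
  rw [← mul_add] at h1
  have h4 : e * (a + b) = e * a + e * b := mul_add e a b
  omega

private theorem GdX.add {p e : ℕ} {P Q : Polynomial ℚ} (hP : GdX p e P) (hQ : GdX p e Q) :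
    GdX p e (P + Q) := by
  intro k
  obtain ⟨r, hr⟩ := hP k
  obtain ⟨s, hs⟩ := hQ k
  refine ⟨r + s, ?_⟩
  rw [Polynomial.coeff_add, hr, hs]
  push_cast
  ring

private theorem GdX.mul {p e : ℕ} {P Q : Polynomial ℚ} (hP : GdX p e P) (hQ : GdX p e Q) :
    GdX p e (P * Q) := by
  intro k
  choose r hr using hP
  choose s hs using hQ
  refine ⟨∑ x ∈ Finset.HasAntidiagonal.antidiagonal k,
    (p : ℤ) ^ (wX p e x.1 + wX p e x.2 - wX p e k) * (r x.1 * s x.2), ?_⟩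
  rw [Polynomial.coeff_mul]
  push_cast
  rw [Finset.mul_sum]
  refine Finset.sum_congr rfl fun x hx => ?_
  have h1 := Finset.HasAntidiagonal.mem_antidiagonal.1 hx
  have h2 := wX_add p e x.1 x.2
  rw [h1] at h2
  have h3 : (p : ℚ) ^ wX p e x.1 * (p : ℚ) ^ wX p e x.2 =
      (p : ℚ) ^ wX p e k * (p : ℚ) ^ (wX p e x.1 + wX p e x.2 - wX p e k) := by
    rw [← pow_add, ← pow_add]
    refine congrArg (fun n : ℕ => (p : ℚ) ^ n) ?_
    omega
  rw [hr, hs]
  linear_combination ((r x.1 : ℚ) * s x.2) * h3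

private theorem gdX_mono {p e : ℕ} (k : ℕ) (a : ℤ) (h : (p : ℤ) ^ wX p e k ∣ a) :
    GdX p e ((a : Polynomial ℚ) * Polynomial.X ^ k) := by
  intro j
  have h1 : (a : Polynomial ℚ) = Polynomial.C (a : ℚ) := by simp
  rw [h1, Polynomial.coeff_C_mul, Polynomial.coeff_X_pow]
  split_ifs with hj
  · obtain ⟨r, hr⟩ := h
    refine ⟨r, ?_⟩
    rw [hj, hr]
    push_cast
    ring
  · exact ⟨0, by simp⟩

private theorem gdX_one (p e : ℕ) : GdX p e 1 := by
  have h := gdX_mono (p := p) (e := e) 0 1 (by rw [wX]; simp)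
  simpa using h

private theorem GdX.pow {p e : ℕ} {P : Polynomial ℚ} (hP : GdX p e P) (n : ℕ) :
    GdX p e (P ^ n) := by
  induction n with
  | zero =>
    rw [pow_zero]
    exact gdX_one p e
  | succ n ih =>
    rw [pow_succ]
    exact ih.mul hP

private theorem gdX_PG32 : GdX 3 2 PG32 := by
  have h : PG32 = ((1 : ℤ) : Polynomial ℚ) * Polynomial.X ^ 0 +
      ((-27 : ℤ) : Polynomial ℚ) * Polynomial.X ^ 1 +
      ((270 : ℤ) : Polynomial ℚ) * Polynomial.X ^ 2 +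
      ((-972 : ℤ) : Polynomial ℚ) * Polynomial.X ^ 3 +
      ((729 : ℤ) : Polynomial ℚ) * Polynomial.X ^ 4 := by
    rw [PG32_eq]
    push_cast
    ring
  rw [h]
  exact ((((gdX_mono 0 _ (by rw [wX]; norm_num)).add
    (gdX_mono 1 _ (by rw [wX]; norm_num))).add
    (gdX_mono 2 _ (by rw [wX]; norm_num))).add
    (gdX_mono 3 _ (by rw [wX]; norm_num))).add
    (gdX_mono 4 _ (by rw [wX]; norm_num))

private theorem gdX_ps32 : GdX 3 2 ps32q := by
  have h : ps32q = ((1 : ℤ) : Polynomial ℚ) * Polynomial.X ^ 0 +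
      ((18 : ℤ) : Polynomial ℚ) * Polynomial.X ^ 1 +
      ((-27 : ℤ) : Polynomial ℚ) * Polynomial.X ^ 2 := by
    unfold ps32q
    push_cast
    ring
  rw [h]
  exact ((gdX_mono 0 _ (by rw [wX]; norm_num)).add
    (gdX_mono 1 _ (by rw [wX]; norm_num))).add
    (gdX_mono 2 _ (by rw [wX]; norm_num))

private theorem gdX_PG34 : GdX 3 1 PG34 := by
  have h : PG34 = ((1 : ℤ) : Polynomial ℚ) * Polynomial.X ^ 0 +
      ((-9 : ℤ) : Polynomial ℚ) * Polynomial.X ^ 1 +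
      ((18 : ℤ) : Polynomial ℚ) * Polynomial.X ^ 2 +
      ((-27 : ℤ) : Polynomial ℚ) * Polynomial.X ^ 4 := by
    rw [PG34_eq]
    push_cast
    ring
  rw [h]
  exact (((gdX_mono 0 _ (by rw [wX]; norm_num)).add
    (gdX_mono 1 _ (by rw [wX]; norm_num))).add
    (gdX_mono 2 _ (by rw [wX]; norm_num))).add
    (gdX_mono 4 _ (by rw [wX]; norm_num))

private theorem gdX_PG52 : GdX 5 1 PG52 := by
  have h : PG52 = ((1 : ℤ) : Polynomial ℚ) * Polynomial.X ^ 0 +
      ((-25 : ℤ) : Polynomial ℚ) * Polynomial.X ^ 1 +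
      ((275 : ℤ) : Polynomial ℚ) * Polynomial.X ^ 2 +
      ((-1500 : ℤ) : Polynomial ℚ) * Polynomial.X ^ 3 +
      ((4375 : ℤ) : Polynomial ℚ) * Polynomial.X ^ 4 +
      ((-6250 : ℤ) : Polynomial ℚ) * Polynomial.X ^ 5 +
      ((3125 : ℤ) : Polynomial ℚ) * Polynomial.X ^ 6 := by
    rw [PG52_eq]
    push_cast
    ring
  rw [h]
  exact ((((((gdX_mono 0 _ (by rw [wX]; norm_num)).add
    (gdX_mono 1 _ (by rw [wX]; norm_num))).add
    (gdX_mono 2 _ (by rw [wX]; norm_num))).add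
    (gdX_mono 3 _ (by rw [wX]; norm_num))).add
    (gdX_mono 4 _ (by rw [wX]; norm_num))).add
    (gdX_mono 5 _ (by rw [wX]; norm_num))).add
    (gdX_mono 6 _ (by rw [wX]; norm_num))

private theorem gdX_ps52 : GdX 5 1 ps52q := by
  have h : ps52q = ((1 : ℤ) : Polynomial ℚ) * Polynomial.X ^ 0 +
      ((20 : ℤ) : Polynomial ℚ) * Polynomial.X ^ 1 +
      ((-25 : ℤ) : Polynomial ℚ) * Polynomial.X ^ 2 := by
    unfold ps52q
    push_cast
    ring
  rw [h]
  exact ((gdX_mono 0 _ (by rw [wX]; norm_num)).add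
    (gdX_mono 1 _ (by rw [wX]; norm_num))).add
    (gdX_mono 2 _ (by rw [wX]; norm_num))

/-- The coefficients of `x_l` from those of `ψ` and `PG`. -/
private theorem xlX (p e : ℕ) (D : TrJ.Data) (h1 : GdX p e D.ψ) (h2 : GdX p e D.PG)
    (z l i : ℕ) : ∃ r : ℤ, (D.xl z l).coeff i =
      (p : ℚ) ^ (e * (i - l) - e * (i - l) / (p + 1)) * r := by
  have h3 : D.xl z l = D.ψ * D.PG ^ (z - l) * Polynomial.X ^ l := rfl
  have h4 : GdX p e (D.ψ * D.PG ^ (z - l)) := h1.mul (h2.pow _)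
  rw [h3, Polynomial.coeff_mul_X_pow']
  split_ifs with h
  · exact h4 (i - l)
  · exact ⟨0, by simp⟩

theorem xl32 (h : In32) : (par32 h).Xl := by
  intro m l i
  have h0 : (par32 h).dat m = if m % 2 = 0 then dat32e h else dat32o h := rfl
  rw [h0]
  split_ifs with hm
  · exact xlX 3 2 (dat32e h) (gdX_one 3 2) gdX_PG32 _ l i
  · exact xlX 3 2 (dat32o h) gdX_ps32 gdX_PG32 _ l i

theorem xl34 (h : In34) : (par34 h).Xl := fun _ l i =>
  xlX 3 1 (dat34 h) (gdX_one 3 1) gdX_PG34 _ l i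

theorem xl52 (h : In52) (c : ℕ) (_hc : c ≤ 1) : (par52 h c).Xl := by
  intro m l i
  have h0 : (par52 h c).dat m = if c = 0 then dat52a h else dat52b h := rfl
  rw [h0]
  split_ifs with hm
  · exact xlX 5 1 (dat52a h) (gdX_one 5 1) gdX_PG52 _ l i
  · exact xlX 5 1 (dat52b h) gdX_ps52 gdX_PG52 _ l i

end GH.LM
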