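import Pool.Agent.GH.LM.Cent
import Pool.Agent.GH.LM.Full
import Pool.Agent.GH.LM.IComb
import Pool.Agent.GH.LM.INum
import Pool.Agent.GH.LM.IGr
import Pool.Agent.GH.LM.IOmg
import Pool.Agent.GH.LM.IHc
import Pool.Agent.GH.LM.IKap
import Pool.Agent.GH.LM.ISym
import Pool.Agent.GH.LM.IXl
import Pool.Agent.GH.LM.IBase
import Pool.Agent.GH.LM.IGhost
import Pool.Agent.GH.LM.IEval

/-!
# GH-LM: the central theorems from the values at the centres and the input at the root
-/

noncomputable section

namespace GH.LM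

open GH.CombU

theorem ifin_two {x : PadicComplex 3} (hx : ‖x‖ ≤ 1) : ‖2 * x‖ ≤ 1 := by
  have h1 : ‖(2 : PadicComplex 3)‖ ≤ 1 := by
    have h2 : (2 : PadicComplex 3) = Par.iota 3 2 := (map_ofNat (Par.iota 3) 2).symm
    rw [h2, cent_norm_iota]
    exact PadicInt.norm_le_one _
  rw [norm_mul]
  exact mul_le_one₀ h1 (norm_nonneg _) hx

/-- The theorem on the central disc for `(3,2)`. -/
theorem central32_of (h : In32) (hv : (par32 h).Val) (hrn : (par32 h).RootN)
    (hrp : (par32 h).RootP) : D32.CentralTheorem32 := by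
  intro x hx
  have hg := gr32 h
  have hL := cent_lead (par32 h) (num32 h) hg hv (kapProd32 h) (sym32 h) (base32 h)
  have hNP := central_of (par32 h) (num32 h) hg (omg32 h) hv (xl32 h) (hc32 h hg) (kap32 h)
    (kapProd32 h) (sym32 h) (base32 h) (comb32 h) hrn hrp
  have h1 := central_ghost (par32 h) hNP hL (ghost32 h) (2 * x) (ifin_two hx)
  have h2 : fred ((par32 h).MatE (2 * x)) = fred (D32.Mat32 x) :=
    cent_fred fun i j => eval32 h hg x i j
  have h3 : (2 : PadicComplex 3) * (2 * x) = 4 * x := by ring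
  rw [h2] at h1
  simp only [h3] at h1
  exact h1

/-- The theorem on the central disc for `(3,4)`. -/
theorem central34_of (h : In34) (hv : (par34 h).Val) (hrn : (par34 h).RootN)
    (hrp : (par34 h).RootP) : D34.CentralTheorem34 := by
  intro x hx
  have hg := gr34 h
  have hb := base34 h (spFull (par34 h) (num34 h) hv (kapProd34 h)) hv
  have hL := cent_lead (par34 h) (num34 h) hg hv (kapProd34 h) (sym34 h) hb
  have hNP := central_of (par34 h) (num34 h) hg (omg34 h) hv (xl34 h) (hc34 h hg) (kap34 h)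
    (kapProd34 h) (sym34 h) hb (comb34 h) hrn hrp
  have h1 := central_ghost (par34 h) hNP hL (ghost34 h) x hx
  have h2 : fred ((par34 h).MatE x) = fred (D34.Mat34 x) :=
    cent_fred fun i j => eval34 h hg x i j
  rw [h2] at h1
  exact h1

/-- The theorem on the central disc for `(5,2)`. -/
theorem central52_of (h : In52) (hv : ∀ c ≤ 1, (par52 h c).Val)
    (hrn : ∀ c ≤ 1, (par52 h c).RootN) (hrp : ∀ c ≤ 1, (par52 h c).RootP) :
    D52.CentralTheorem52 := by
  intro c hc x hx
  have hg := gr52 h c hc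
  have hb := base52 h c hc (spFull (par52 h c) (num52 h c hc) (hv c hc) (kapProd52 h c hc))
    (hv c hc)
  have hL := cent_lead (par52 h c) (num52 h c hc) hg (hv c hc) (kapProd52 h c hc)
    (sym52 h c hc) hb
  have hNP := central_of (par52 h c) (num52 h c hc) hg (omg52 h c hc) (hv c hc) (xl52 h c hc)
    (hc52 h c hc hg) (kap52 h c hc) (kapProd52 h c hc) (sym52 h c hc) hb (comb52 h c hc)
    (hrn c hc) (hrp c hc)
  have h1 := central_ghost (par52 h c) hNP hL (ghost52 h c hc) x hx
  have h2 : fred ((par52 h c).MatE x) = fred (D52.Mat52 c x) :=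
    cent_fred fun i j => eval52 h c hc hg x i j
  rw [h2] at h1
  exact h1

end GH.LM
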