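import Pool.Agent.GH.LM.Dat32
import Pool.Agent.GH.LM.IEval
import Pool.Agent.GH.LM.IGr
import Pool.Agent.GH.LN.SerN

/-!
# GH-LM, instances: the values of `PM` at the centres, `(3,2)`
-/

open PowerSeries

noncomputable section

namespace GH.LM

open GH.TrJ GH.CombU

/-! ### General facts -/

private theorem jv_mul {R : Type*} [CommRing R] {F : PowerSeries R}
    (h : constantCoeff F = 1) : F * invOfUnit F 1 = 1 :=
  mul_invOfUnit _ _ (by rw [h, Units.val_one])

private theorem jv_map {R S : Type*} [CommRing R] [CommRing S] (f : R →+* S)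
    {F : PowerSeries R} (h : constantCoeff F = 1) :
    PowerSeries.map f (invOfUnit F 1) = invOfUnit (PowerSeries.map f F) 1 := by
  have h0 : constantCoeff (PowerSeries.map f F) = 1 := by
    rw [← coeff_zero_eq_constantCoeff_apply, coeff_map, coeff_zero_eq_constantCoeff_apply, h,
      map_one]
  have h1 : PowerSeries.map f (invOfUnit F 1) * PowerSeries.map f F = 1 := by
    rw [← map_mul, mul_comm, jv_mul h, map_one]
  calc PowerSeries.map f (invOfUnit F 1)
      = PowerSeries.map f (invOfUnit F 1) *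
          (PowerSeries.map f F * invOfUnit (PowerSeries.map f F) 1) := by
        rw [jv_mul h0, mul_one]
    _ = invOfUnit (PowerSeries.map f F) 1 := by rw [← mul_assoc, h1, one_mul]

private theorem jv_inv {F : PowerSeries ℚ} (h : constantCoeff F = 1) :
    F⁻¹ = invOfUnit F 1 := by
  have hc : constantCoeff F ≠ 0 := by rw [h]; exact one_ne_zero
  calc F⁻¹ = F⁻¹ * (F * invOfUnit F 1) := by rw [jv_mul h, mul_one]
    _ = invOfUnit F 1 := by rw [← mul_assoc, PowerSeries.inv_mul_cancel _ hc, one_mul]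

private theorem jv_gr {p : ℕ} [Fact p.Prime] {d : ℕ} (S : PowerSeries ℤ_[p])
    (Sz : PowerSeries ℤ) (h : PowerSeries.map (Int.castRingHom ℤ_[p]) Sz = S)
    (hg : ∀ n, (p : ℤ) ^ MatU.phD d n ∣ coeff n Sz) : MatU.GrD d S := by
  intro n
  rw [← h, coeff_map]
  obtain ⟨r, hr⟩ := hg n
  refine ⟨(r : ℤ_[p]), ?_⟩
  rw [hr]
  simp

/-- The entry `[h^(pi-j)] S^i S^(-k) G`. -/
private def jvE {R : Type*} [CommRing R] (p : ℕ) (S G : PowerSeries R) (k i j : ℕ) : R :=
  if j ≤ p * i then coeff (p * i - j) (S ^ i * invOfUnit S 1 ^ k * G) else 0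

private theorem jvE_map {R S : Type*} [CommRing R] [CommRing S] (f : R →+* S) (p : ℕ)
    {A G : PowerSeries R} (hA : constantCoeff A = 1) {A' G' : PowerSeries S}
    (h1 : PowerSeries.map f A = A') (h2 : PowerSeries.map f G = G') (k i j : ℕ) :
    f (jvE p A G k i j) = jvE p A' G' k i j := by
  unfold jvE
  split_ifs with h
  · rw [← PowerSeries.coeff_map, RingHom.map_mul, RingHom.map_mul, RingHom.map_pow,
      RingHom.map_pow, jv_map f hA, h1, h2]
  · exact map_zero f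

private theorem jvE_cast {p : ℕ} [Fact p.Prime] {A G : PowerSeries ℤ_[p]}
    {A' G' : PowerSeries ℚ_[p]} {A'' G'' : PowerSeries ℚ} (hA : constantCoeff A = 1)
    (hA'' : constantCoeff A'' = 1)
    (h1 : PowerSeries.map PadicInt.Coe.ringHom A = A')
    (h2 : PowerSeries.map PadicInt.Coe.ringHom G = G')
    (h3 : PowerSeries.map (Rat.castHom ℚ_[p]) A'' = A')
    (h4 : PowerSeries.map (Rat.castHom ℚ_[p]) G'' = G') (k i j : ℕ) :
    ((jvE p A G k i j : ℤ_[p]) : ℚ_[p]) = ((jvE p A'' G'' k i j : ℚ) : ℚ_[p]) := by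
  have e1 := jvE_map (PadicInt.Coe.ringHom (p := p)) p hA h1 h2 k i j
  have e2 := jvE_map (Rat.castHom ℚ_[p]) p hA'' h3 h4 k i j
  rw [Rat.coe_castHom] at e2
  rw [e2, ← e1]
  rfl

/-! ### `(3,2)` -/

private theorem jv_S {R S : Type*} [CommRing R] [CommRing S] (f : R →+* S) :
    PowerSeries.map f (D32.S32 R) = D32.S32 S := LN.map_SN 3 2 D32.three_ne R f

private theorem jv_cg (R : Type) [CommRing R] : constantCoeff (D32.gs32 R) = 0 := by
  rw [D32.gs32, map_mul, map_pow, constantCoeff_X]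
  ring

private theorem jv_gmap (h : In32) {R S : Type} [CommRing R] [CommRing S] (f : R →+* S) :
    PowerSeries.map f (D32.gs32 R) = D32.gs32 S := by
  unfold D32.gs32
  rw [map_mul, map_pow, PowerSeries.map_X, jv_map f (h.S0 R), jv_S]

/-- The two frames. -/
private def jvG (e : ℕ) (R : Type*) [CommRing R] : PowerSeries R :=
  if e = 0 then D32.ns32 (X : PowerSeries R) * invOfUnit (D32.ps32 (D32.gs32 R)) 1
  else (1 - X) ^ 2 * invOfUnit ((1 - 9 * D32.gs32 R) ^ 2) 1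

private theorem jv_cp0 (R : Type) [CommRing R] :
    constantCoeff (D32.ps32 (D32.gs32 R)) = 1 := by
  unfold D32.ps32
  simp [jv_cg]

private theorem jv_cp1 (R : Type) [CommRing R] :
    constantCoeff ((1 - 9 * D32.gs32 R) ^ 2) = 1 := by
  simp [jv_cg]

private theorem jv_cp2 (R : Type) [CommRing R] :
    constantCoeff (1 + 18 * D32.gs32 R - 27 * D32.gs32 R ^ 2) = 1 := by
  simp [jv_cg]

private theorem jvG_map (h : In32) (e : ℕ) {R S : Type} [CommRing R] [CommRing S]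
    (f : R →+* S) : PowerSeries.map f (jvG e R) = jvG e S := by
  unfold jvG
  have hg := jv_gmap h f
  split_ifs with he
  · have hn : PowerSeries.map f (D32.ns32 (X : PowerSeries R)) =
        D32.ns32 (X : PowerSeries S) := by
      unfold D32.ns32
      simp only [map_mul, map_pow, map_sub, PowerSeries.map_X, map_one, map_ofNat]
    have hp : PowerSeries.map f (D32.ps32 (D32.gs32 R)) = D32.ps32 (D32.gs32 S) := by
      unfold D32.ps32
      simp only [map_mul, map_pow, map_sub, map_add, hg, map_one, map_ofNat]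
    rw [map_mul, jv_map f (jv_cp0 R), hn, hp]
  · have hn : PowerSeries.map f ((1 - X : PowerSeries R) ^ 2) = (1 - X) ^ 2 := by
      simp only [map_pow, map_sub, PowerSeries.map_X, map_one]
    have hp : PowerSeries.map f ((1 - 9 * D32.gs32 R) ^ 2) = (1 - 9 * D32.gs32 S) ^ 2 := by
      simp only [map_mul, map_pow, map_sub, hg, map_one, map_ofNat]
    rw [map_mul, jv_map f (jv_cp1 R), hn, hp]

/-- The product of the series. -/
private theorem jv_prod (h : In32) (z e i : ℕ) (he : e ≤ 1) (R : Type) [CommRing R] :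
    Tv32 R ^ (2 * z + e) * F32 R * D32.S32 R ^ i =
      D32.S32 R ^ i * invOfUnit (D32.S32 R) 1 ^ (z + 1) * jvG e R := by
  have hT2 : Tv32 R * Tv32 R = invOfUnit (D32.S32 R) 1 := by
    have h1 := iev_T2 h R
    have h2 := jv_mul (h.S0 R)
    calc Tv32 R * Tv32 R = (D32.S32 R * invOfUnit (D32.S32 R) 1) * (Tv32 R * Tv32 R) := by
          rw [h2, one_mul]
      _ = (D32.S32 R * (Tv32 R * Tv32 R)) * invOfUnit (D32.S32 R) 1 := by ring
      _ = invOfUnit (D32.S32 R) 1 := by rw [h1, one_mul]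
  have hz : Tv32 R ^ (2 * z) = invOfUnit (D32.S32 R) 1 ^ z := by
    rw [pow_mul, pow_two, hT2]
  rcases (by omega : e = 0 ∨ e = 1) with rfl | rfl
  · rw [add_zero, hz]
    unfold jvG F32
    rw [if_pos rfl]
    ring
  · rw [pow_add, hz, pow_one]
    unfold jvG F32 Tv32
    rw [if_neg one_ne_zero]
    have e1 := jv_mul (jv_cp0 R)
    have e2 := jv_mul (jv_cp1 R)
    have e3 : (1 - 6 * X - 3 * X ^ 2 : PowerSeries R) *
        invOfUnit (1 - 6 * X - 3 * X ^ 2) 1 = 1 := jv_mul (by simp)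
    obtain ⟨A, hA⟩ : ∃ A, A = invOfUnit (D32.ps32 (D32.gs32 R)) 1 := ⟨_, rfl⟩
    obtain ⟨B, hB⟩ : ∃ B, B = invOfUnit ((1 - 9 * D32.gs32 R) ^ 2) 1 := ⟨_, rfl⟩
    obtain ⟨D, hD⟩ : ∃ D, D = invOfUnit (1 - 6 * X - 3 * X ^ 2 : PowerSeries R) 1 := ⟨_, rfl⟩
    rw [← hA] at e1
    rw [← hB] at e2
    rw [← hD] at e3
    rw [← hA, ← hB, ← hD]
    have e4 : (1 + 18 * D32.gs32 R - 27 * D32.gs32 R ^ 2) * A = B := by
      unfold D32.ps32 at e1
      linear_combination B * e1 - (1 + 18 * D32.gs32 R - 27 * D32.gs32 R ^ 2) * A * e2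
    rw [← e4]
    unfold D32.ns32
    linear_combination (invOfUnit (D32.S32 R) 1 ^ (z + 1) * D32.S32 R ^ i * (1 - X) ^ 2 *
      (1 + 18 * D32.gs32 R - 27 * D32.gs32 R ^ 2) * A) * e3

private theorem jv_PM (h : In32) (hg : (par32 h).Gr) (z e i j : ℕ) (he : e ≤ 1) :
    ((par32 h).PM i j).eval ((2 * z + e : ℕ) : ℤ_[3]) =
      jvE 3 (D32.S32 ℤ_[3]) (jvG e ℤ_[3]) (z + 1) (i + 1) (j + 1) := by
  show (MatU.MQ 3 (Tv32 ℤ_[3]) (D32.S32 ℤ_[3]) (F32 ℤ_[3]) (i + 1) (j + 1)).eval _ = _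
  rw [MatU.MQ_eval (d := 2) (by norm_num) (iev_T0 ℤ_[3]) hg.Tv, MatU.ent, jvE,
    jv_prod h z e (i + 1) he]

private theorem jv_M0 (h : In32) (z i j : ℕ) :
    (dat32e h).M z i j = jvE 3 (D32.S32 ℚ) (jvG 0 ℚ) (z + 1) i j := by
  have h2 : (((1 - Polynomial.X) ^ 2 * ns32q : Polynomial ℚ) : PowerSeries ℚ) =
      D32.ns32 (X : PowerSeries ℚ) := by
    rw [← Polynomial.coeToPowerSeries.ringHom_apply]
    unfold ns32q D32.ns32
    simp only [map_mul, map_pow, map_sub, map_one, map_ofNat,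
      Polynomial.coeToPowerSeries.ringHom_apply, Polynomial.coe_X]
  have h3 : TrJ.ev (D32.gs32 ℚ) ((1 - 9 * Polynomial.X) ^ 2 * ps32q) =
      D32.ps32 (D32.gs32 ℚ) := by
    unfold ps32q D32.ps32 TrJ.ev
    simp only [map_mul, map_pow, map_sub, map_add, map_one, Polynomial.aeval_X, map_ofNat]
  have k1 : (dat32e h).p = 3 := by unfold dat32e; rfl
  have k2 : (dat32e h).Q = D32.S32 ℚ := by unfold dat32e; rfl
  have k3 : (dat32e h).Qi = invOfUnit (D32.S32 ℚ) 1 := by unfold dat32e; rfl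
  have k4 : (dat32e h).ns = (1 - Polynomial.X) ^ 2 * ns32q := by unfold dat32e; rfl
  have k5 : (dat32e h).ψs = (1 - 9 * Polynomial.X) ^ 2 * ps32q := by unfold dat32e; rfl
  have k6 : (dat32e h).g = D32.gs32 ℚ := by
    unfold TrJ.Data.g D32.gs32
    rw [k1, k3]
  unfold TrJ.Data.M jvE
  rw [k1, k2, k3, k4, k5, k6, h2, h3, jv_inv (jv_cp0 ℚ), mul_assoc (D32.S32 ℚ ^ i * _)]
  unfold jvG
  rw [if_pos rfl]

private theorem jv_M1 (h : In32) (z i j : ℕ) :
    (dat32o h).M z i j = jvE 3 (D32.S32 ℚ) (jvG 1 ℚ) (z + 1) i j := by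
  have h2 : (((1 - Polynomial.X) ^ 2 : Polynomial ℚ) : PowerSeries ℚ) =
      (1 - X : PowerSeries ℚ) ^ 2 := by
    rw [← Polynomial.coeToPowerSeries.ringHom_apply]
    simp only [map_pow, map_sub, map_one,
      Polynomial.coeToPowerSeries.ringHom_apply, Polynomial.coe_X]
  have h3 : TrJ.ev (D32.gs32 ℚ) ((1 - 9 * Polynomial.X) ^ 2) =
      (1 - 9 * D32.gs32 ℚ) ^ 2 := by
    unfold TrJ.ev
    simp only [map_mul, map_pow, map_sub, map_one, Polynomial.aeval_X, map_ofNat]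
  have k1 : (dat32o h).p = 3 := by unfold dat32o; rfl
  have k2 : (dat32o h).Q = D32.S32 ℚ := by unfold dat32o; rfl
  have k3 : (dat32o h).Qi = invOfUnit (D32.S32 ℚ) 1 := by unfold dat32o; rfl
  have k4 : (dat32o h).ns = (1 - Polynomial.X) ^ 2 := by unfold dat32o; rfl
  have k5 : (dat32o h).ψs = (1 - 9 * Polynomial.X) ^ 2 := by unfold dat32o; rfl
  have k6 : (dat32o h).g = D32.gs32 ℚ := by
    unfold TrJ.Data.g D32.gs32
    rw [k1, k3]
  unfold TrJ.Data.M jvE
  rw [k1, k2, k3, k4, k5, k6, h2, h3, jv_inv (jv_cp1 ℚ), mul_assoc (D32.S32 ℚ ^ i * _)]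
  unfold jvG
  rw [if_neg one_ne_zero]

theorem val32_of (h : In32) (hg : (par32 h).Gr) : (par32 h).Val := by
  intro m i j
  obtain ⟨z, e, he, rfl⟩ : ∃ z e : ℕ, e ≤ 1 ∧ m = 2 * z + e :=
    ⟨m / 2, m % 2, by omega, by omega⟩
  have e2 : (par32 h).t (2 * z + e) = z := by
    show tLN 0 (2 * z + e) = z
    unfold tLN
    rw [if_pos rfl]
    omega
  have e3 : ((par32 h).dat (2 * z + e)).M ((par32 h).t (2 * z + e)) (i + 1) (j + 1) =
      jvE 3 (D32.S32 ℚ) (jvG e ℚ) (z + 1) (i + 1) (j + 1) := by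
    rw [e2]
    have k : (par32 h).dat (2 * z + e) =
        if (2 * z + e) % 2 = 0 then dat32e h else dat32o h := rfl
    rcases (by omega : e = 0 ∨ e = 1) with rfl | rfl
    · rw [k, if_pos (by omega)]
      exact jv_M0 h z (i + 1) (j + 1)
    · rw [k, if_neg (by omega)]
      exact jv_M1 h z (i + 1) (j + 1)
  rw [jv_PM h hg z e i j he, e3]
  exact jvE_cast (h.S0 _) (h.S0 _) (jv_S _) (jvG_map h e _) (jv_S _) (jvG_map h e _) _ _ _

theorem val32 (h : In32) : (par32 h).Val := val32_of h (gr32 h)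

end GH.LM
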