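import Pool.Agent.GH.LM.IFinal0
import Pool.Agent.GH.LM.IVal32
import Pool.Agent.GH.Trop.MainN

/-!
# GH-LM: the central theorem for `(3,2)`
-/

noncomputable section

namespace GH.LM

/-- **The theorem on the central disc** for `(3,2)`. -/
theorem central32 (h : In32) : D32.CentralTheorem32 :=
  central32_of h (val32 h) (Trop.root32 h).1 (Trop.root32 h).2

end GH.LM
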