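import Pool.Agent.GH.Defs
import Pool.Agent.GH.MatU.FreeQ
import Pool.Agent.GH.MatU.TrJ
import Pool.Agent.GH.Pot.GDefs
import Pool.Agent.GH.Trop.Stm

/-!
# GH-LM: the matrix of `U_p`, generic layer for the pairs `(3,2)`, `(3,4)`, `(5,2)`

Head: helper47. Paper: notes 5287, 5338 and the row texts. `P : Par p` collects the data of a pair
`(p, N)` and a component; `m` is the weight variable (`k = 2m` for `p = 3`, `k = 4m + 2c` for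
`(5,2)`), `y` the variable of the polynomial ring. Matrices are indexed from `0`; in the comments
`i' = i + 1`, `j' = j + 1`. The matrix is
`PM_ij = [h^(p i' - j')] Tv^y F S^i'`, `g = h^p/S`. For every class `a mod p` there is the
factorisation `PM = W_a N_a`, `W_a` unipotent Toeplitz, `N_a` over `ℤ_p[p(y - a)]`.
-/

open PowerSeries

noncomputable section

namespace GH.LM

/-- The ring of coefficients `ℤ_p[y]`. -/
abbrev Zy (p : ℕ) [Fact p.Prime] : Type := Polynomial ℤ_[p]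

/-- The data of a pair `(p, N)` and a component. -/
structure Par (p : ℕ) [Fact p.Prime] where
  /-- growth: `v(S_n) ≥ ⌈n/d⌉` -/
  d : ℕ
  /-- the Fricke constant is `p^e`; the slope of the scaling is `e/2` -/
  e : ℕ
  /-- growth of `F`: `v(F_n) ≥ ⌈(n-D)/d⌉` -/
  D : ℕ
  /-- `dim M_k(Γ_0(Np)) - 1` -/
  cen : ℕ → ℕ
  /-- the rank -/
  t : ℕ → ℕ
  /-- `k/2 - 1` -/
  s : ℕ → ℕ
  S : PowerSeries ℤ_[p]
  Tv : PowerSeries ℤ_[p]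
  F : PowerSeries ℤ_[p]
  /-- the trace structure in weight `m` -/
  dat : ℕ → TrJ.Data

namespace Par

variable {p : ℕ} [Fact p.Prime] (P : Par p)

/-! ### Numbers -/

/-- The multiplicity of `m` as a zero of the `n`-th leading minor. -/
def T (n m : ℕ) : ℕ := min (n - P.t m) (P.cen m - 1 - P.t m - n)

/-- A bound for the zeros. -/
def Z (_P : Par p) (n : ℕ) : ℕ := 2 * n + 2

/-- The number of zeros. -/
def B (n : ℕ) : ℕ := ∑ m ∈ Finset.range (P.Z n), P.T n m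

/-- The integral scaling `⌊(e i' + ε)/2⌋`. -/
def gm (ε i : ℕ) : ℕ := (P.e * (i + 1) + ε) / 2

/-- The growth of the coefficients of `x_l`. -/
def ww (k : ℕ) : ℕ := P.e * k - P.e * k / (p + 1)

/-- `B_n + ∑ T_m(n) v_p(m0 - m)`. -/
def FF (n : ℕ) (m0 : ℤ) : ℕ :=
  P.B n + ∑ m ∈ Finset.range (P.Z n), P.T n m * padicValInt p (m0 - m)

/-- `n` is a vertex of the hull at the root. -/
def Rt (n : ℕ) : Prop := n = 0 ∨ 2 * P.B n < P.B (n - 1) + P.B (n + 1)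

/-- The antidiagonal entry of the column `j'` at the centre `m`, `i' + j' = cen m`. -/
def kap (m j : ℕ) : ℚ :=
  ((P.dat m).σ * (P.dat m).c ^ ((P.t m : ℤ) - (P.cen m - (j + 1) : ℕ)))⁻¹

/-! ### Matrices -/

/-- The matrix `[h^(p i' - j')] Tv^y F S^i'`. -/
def PM (i j : ℕ) : Zy p := MatU.MQ p P.Tv P.S P.F (i + 1) (j + 1)

/-- `y ↦ y - a`. -/
def shf (a : ℕ) (Q : Zy p) : Zy p := Q.comp (Polynomial.X - Polynomial.C (a : ℤ_[p]))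

/-- The coefficients of `W_a`. -/
def WA (a l : ℕ) : Zy p := shf a (coeff l (MatU.WQ p P.Tv P.S l))

/-- The coefficients of `V_a = W_a⁻¹`. -/
def VA (a l : ℕ) : Zy p :=
  shf a (coeff l (MatU.CF p (MatU.Apow p P.Tv)
    (PowerSeries.map Polynomial.C (invOfUnit P.S 1)) l))

/-- The matrix `N_a`. -/
def NA (a i j : ℕ) : Zy p :=
  shf a (MatU.NQ p P.Tv P.S (P.F * P.Tv ^ a) (i + 1) (i + 1) (j + 1))

open Classical in
/-- The scaled matrix `p^(γ_j' - γ_i') N_a`. -/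
def NS (ε a i j : ℕ) : Zy p :=
  if h : ∃ Q : Zy p, Polynomial.C ((p : ℤ_[p]) ^ P.gm ε i) * Q =
      Polynomial.C ((p : ℤ_[p]) ^ P.gm ε j) * P.NA a i j then h.choose else 0

/-- The value of `PM` at `m`, scaled, in `ℚ_p`. -/
def PSq (ε m i j : ℕ) : ℚ_[p] :=
  (p : ℚ_[p]) ^ ((P.gm ε j : ℤ) - P.gm ε i) * (((P.PM i j).eval (m : ℤ_[p]) : ℤ_[p]) : ℚ_[p])

/-! ### Input, to be proved for every type -/

/-- I1: numbers and constant terms. -/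
structure Num : Prop where
  d0 : 0 < P.d
  e0 : 1 ≤ P.e
  e2 : P.e ≤ 2
  p2 : 2 < p
  dp : ∀ m, (P.dat m).p = p
  dc : ∀ m, |(P.dat m).c| = (p : ℚ) ^ P.e
  dm : ∀ m, (P.dat m).m (P.t m) = P.cen m
  S0 : constantCoeff P.S = 1
  Tv0 : constantCoeff P.Tv = 1
  tm : ∀ n m, 2 * n + 2 ≤ m → n < P.t m

/-- I2: growth. -/
structure Gr : Prop where
  S : MatU.GrD P.d P.S
  Tv : MatU.GrD P.d P.Tv
  F : MatU.GrS P.d P.D P.F

/-- I3: the numerical properties of the growth. -/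
structure Omg : Prop where
  /-- `W` at the nodes of depth one -/
  pt : ∀ l j, 1 ≤ l → 1 ≤ j → (P.e * l + 1) / 2 + 1 + padicValNat p j.factorial ≤
    max j (MatU.phD P.d (p * l)) + (j + p - 1) / p

/-- I4: the values of `PM` at the natural numbers. -/
def Val : Prop := ∀ m i j : ℕ,
  (((P.PM i j).eval (m : ℤ_[p]) : ℤ_[p]) : ℚ_[p]) =
    (((P.dat m).M (P.t m) (i + 1) (j + 1) : ℚ) : ℚ_[p])

/-- I5: the coefficients of the `x_l`. -/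
def Xl : Prop := ∀ m l i : ℕ, ∃ r : ℤ,
  ((P.dat m).xl (P.t m) l).coeff i = (p : ℚ) ^ P.ww (i - l) * r

/-- I6: the entries in the columns `j' ≥ cen`. -/
def Hc : Prop := ∀ ε ≤ 1, ∀ m i j : ℕ, P.cen m ≤ j + 1 →
  (p : ℤ_[p]) ^ (P.s m + P.gm ε i) ∣ (p : ℤ_[p]) ^ P.gm ε j * (P.PM i j).eval (m : ℤ_[p])

/-- I7: the scaled antidiagonal entries have the valuation `s`. -/
def Kap : Prop := ∀ ε ≤ 1, ∀ m i j : ℕ, i + j + 2 = P.cen m →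
  ‖((P.kap m j : ℚ) : ℚ_[p])‖ * (p : ℝ) ^ (P.gm ε i : ℤ) =
    (p : ℝ) ^ ((P.gm ε j : ℤ) - P.s m)

/-- I8: the product of the antidiagonal entries over a symmetric interval. -/
def KapProd : Prop := ∀ m n n' : ℕ, n' ≤ n → n + n' + 1 = P.cen m →
  ‖∏ j ∈ Finset.Ico n' n, ((P.kap m j : ℚ) : ℚ_[p])‖ =
    (p : ℝ) ^ (-(((n - n') * P.s m : ℕ) : ℤ))

/-- I9: the symmetry of the ghost numbers. -/
def Sym : Prop := ∀ m n n' : ℕ, n' ≤ n → n + n' + 1 = P.cen m →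
  P.t m ≤ n' → P.FF n m = (n - n') * P.s m + P.FF n' m

/-- I10: the leading minors which are not covered by the symmetry. -/
def Base : Prop := ∀ n, 1 ≤ n →
  (∃ m n', n' < n ∧ n + n' + 1 = P.cen m ∧ P.t m ≤ n') ∨
  ∃ m0 : ℤ, (∀ m : ℕ, m0 = m → P.T n m = 0) ∧
    ‖(Pot.lead P.PM n).eval (m0 : ℤ_[p])‖ = (p : ℝ) ^ (-((P.FF n m0 : ℕ) : ℤ))

/-- I11: the combinatorial input. -/
def Comb : Prop := ∃ h : ℕ → ℕ → ℕ → ℤ, Pot.CombG p P.B P.Z P.T P.s P.t h ∧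
  ∀ n, Pot.Vtx (fun k ↦ h k 0 0) n ↔ P.Rt n

/-- The growth of the rows of `N` at the root. -/
def GrN (N : ℕ → ℕ → Zy p) : Prop := ∀ i j k : ℕ,
  (∀ m < k, P.d * Trop.Lam p m + P.D < p * (i + 1) - (j + 1)) →
    Polynomial.C ((p : ℤ_[p]) ^ k) ∣ N i j

/-- The leading minors have the valuation `B` at the root. -/
def LdN (N : ℕ → ℕ → Zy p) : Prop := ∀ n,
  Polynomial.C ((p : ℤ_[p]) ^ P.B n) ∣ Pot.lead N n ∧
    ¬ Polynomial.C ((p : ℤ_[p]) ^ (P.B n + 1)) ∣ Pot.lead N n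

/-- I12: all minors of `N` at the root, both scalings; principal minors at the vertices. -/
def RootN : Prop := ∀ N : ℕ → ℕ → Zy p, P.GrN N → P.LdN N →
  (∀ ε ≤ 1, ∀ (n : ℕ) (a b : Fin n → ℕ),
    Polynomial.C ((p : ℤ_[p]) ^ (P.B n + ∑ i, P.gm ε (a i))) ∣
      Polynomial.C ((p : ℤ_[p]) ^ ∑ i, P.gm ε (b i)) * Pot.minor N a b) ∧
  ∀ (n : ℕ) (a : Fin n → ℕ), P.Rt n → Function.Injective a → (∃ i, n ≤ a i) →
    Polynomial.C ((p : ℤ_[p]) ^ (P.B n + 1)) ∣ Pot.minor N a a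

/-- The growth of the coefficients of `W` at the root. -/
def GrW (W : ℕ → Zy p) : Prop := ∀ l k : ℕ, 1 ≤ l →
  (∀ j, 1 ≤ j → k + padicValNat p j.factorial ≤ max j (MatU.phD P.d (p * l))) →
    Polynomial.C ((p : ℤ_[p]) ^ k) ∣ W l

/-- I13: the principal minors of `W N` at the root. -/
def RootP : Prop := ∀ (N : ℕ → ℕ → Zy p) (W : ℕ → Zy p), P.GrN N → P.LdN N → W 0 = 1 →
  P.GrW W →
  ∀ (n : ℕ) (a : Fin n → ℕ), Function.Injective a →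
    Polynomial.C ((p : ℤ_[p]) ^ P.B n) ∣
      Pot.minor (fun i j ↦ ∑ l ∈ Finset.range (i + 1), W (i - l) * N l j) a a ∧
    (P.Rt n → (∃ i, n ≤ a i) → Polynomial.C ((p : ℤ_[p]) ^ (P.B n + 1)) ∣
      Pot.minor (fun i j ↦ ∑ l ∈ Finset.range (i + 1), W (i - l) * N l j) a a)

/-! ### Rows -/

/-- R1: the factorisations `PM = W_a N_a`, `N_a = V_a PM`. -/
def SpWN : Prop := ∀ a : ℕ, P.WA a 0 = 1 ∧ P.VA a 0 = 1 ∧
  (∀ i j, P.PM i j = ∑ l ∈ Finset.range (i + 1), P.WA a (i - l) * P.NA a l j) ∧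
  ∀ i j, P.NA a i j = ∑ l ∈ Finset.range (i + 1), P.VA a (i - l) * P.PM l j

/-- R2: `W_a`, `V_a` at the nodes of depth `≥ 1` over `a`. -/
def SpPt : Prop := ∀ a c ν l : ℕ, c ≡ a [MOD p] → 1 ≤ ν → 1 ≤ l →
  Polynomial.C ((p : ℤ_[p]) ^ ((P.e * l + 1) / 2 + 1)) ∣ Pot.sh p c ν (P.WA a l) ∧
  Polynomial.C ((p : ℤ_[p]) ^ ((P.e * l + 1) / 2 + 1)) ∣ Pot.sh p c ν (P.VA a l)

/-- R3: `W_0` at the root. -/
def SpRt : Prop := P.GrW (P.WA 0)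

/-- R4: `N_a` at the root; `N_0` is over `ℤ_p[py]`. -/
def SpNA : Prop := (∀ a, P.GrN (P.NA a)) ∧
  (∀ a i j : ℕ, p * (i + 1) < j + 1 → P.NA a i j = 0) ∧
  ∀ i j : ℕ, P.NA 0 i j ∈ (MatU.iot p).range

/-- R5: the leading minors of `N_a` are those of `PM`. -/
def SpLdA : Prop := ∀ a n : ℕ, Pot.lead (P.NA a) n = Pot.lead P.PM n

/-- R6: the scaled matrices. -/
def SpNS : Prop := ∀ ε ≤ 1, ∀ a i j : ℕ,
  Polynomial.C ((p : ℤ_[p]) ^ P.gm ε i) * P.NS ε a i j =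
    Polynomial.C ((p : ℤ_[p]) ^ P.gm ε j) * P.NA a i j

/-- R7: the minors of the scaled matrices. -/
def SpScale : Prop := ∀ ε ≤ 1, ∀ (a n : ℕ) (b b' : Fin n → ℕ),
  Polynomial.C ((p : ℤ_[p]) ^ ∑ i, P.gm ε (b i)) * Pot.minor (P.NS ε a) b b' =
    Polynomial.C ((p : ℤ_[p]) ^ ∑ i, P.gm ε (b' i)) * Pot.minor (P.NA a) b b'

/-- R8: the decomposition at the centre. -/
def SpJ : Prop := ∀ m : ℕ, ∃ y : ℕ → ℕ → ℚ_[p], ∀ i j : ℕ, j + 1 < P.cen m →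
  (((P.PM i j).eval (m : ℤ_[p]) : ℤ_[p]) : ℚ_[p]) =
    ∑ l ∈ Finset.Icc 1 (P.t m), ((((P.dat m).xl (P.t m) l).coeff (i + 1) : ℚ) : ℚ_[p]) * y l j -
      if i + j + 2 = P.cen m then ((P.kap m j : ℚ) : ℚ_[p]) else 0

/-- R9: the scaled matrix `PM(m)` up to `p^s`, as a sum of `t` products. -/
def SpCorP : Prop := ∀ ε ≤ 1, ∀ m : ℕ,
  ∃ (x : ℕ → Fin (P.t m) → ℚ_[p]) (y : Fin (P.t m) → ℕ → ℚ_[p]),
    ∀ i j, ∃ z : ℤ_[p], P.PSq ε m i j = ∑ l, x i l * y l j + (p : ℚ_[p]) ^ P.s m * z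

/-- R10: the flat rows of `PM(m)`, `n = t m`. -/
def SpFlatP : Prop := ∀ m n : ℕ, 1 ≤ n → n = P.t m → ∀ i, n ≤ i → ∃ x : ℕ → ℤ_[p],
  ∀ j, ∃ z : ℤ_[p], P.PSq (n % 2) m i j =
    ∑ l ∈ Finset.range n, (p : ℚ_[p]) * x l * P.PSq (n % 2) m l j + (p : ℚ_[p]) ^ P.s m * z

/-- R11: corank of the scaled `N_a`. -/
def SpCor : Prop := ∀ ε ≤ 1, ∀ a m : ℕ, m ≡ a [MOD p] →
  ∃ (x : ℕ → Fin (P.t m) → ℚ_[p]) (y : Fin (P.t m) → ℕ → ℚ_[p]),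
    ∀ i j, ∃ z : ℤ_[p], (((P.NS ε a i j).eval (m : ℤ_[p]) : ℤ_[p]) : ℚ_[p]) =
      ∑ l, x i l * y l j + (p : ℚ_[p]) ^ P.s m * z

/-- R12: flat rows of the scaled `N_a`. -/
def SpFlat : Prop := ∀ a m n : ℕ, m ≡ a [MOD p] → 1 ≤ n → n = P.t m →
  Pot.FlatRow p (P.NS (n % 2) a) n m (P.s m)

/-- R13: `D_n ∈ ℤ_p[py]`. -/
def SpInt : Prop := ∀ n, Pot.lead P.PM n ∈ (MatU.iot p).range

/-- R14: the zeros. -/
def SpVan : Prop := ∀ n m : ℕ,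
  (Polynomial.X - Polynomial.C ((m : ℕ) : ℚ_[p])) ^ P.T n m ∣
    (Pot.lead P.PM n).map PadicInt.Coe.ringHom

/-- R15: the leading minors. -/
def SpLead : Prop := ∀ n : ℕ, ∃ (u : Zy p) (z : (ℤ_[p])ˣ),
  Polynomial.C ((p : ℕ) : ℤ_[p]) ∣ u - Polynomial.C (z : ℤ_[p]) ∧
    Pot.lead P.PM n = Polynomial.C (((p : ℕ) : ℤ_[p]) ^ P.B n) * u *
      ∏ m ∈ Finset.range (P.Z n), (Polynomial.X - Polynomial.C (m : ℤ_[p])) ^ P.T n m

/-- R16: the input of GH-POT on the branch of `a`. -/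
def SpMatA : Prop := ∀ ε ≤ 1, ∀ a : ℕ,
  (∀ n, ∃ (u : Zy p) (z : (ℤ_[p])ˣ), Polynomial.C (p : ℤ_[p]) ∣ u - Polynomial.C (z : ℤ_[p]) ∧
    Pot.lead (P.NS ε a) n = Polynomial.C ((p : ℤ_[p]) ^ P.B n) * u *
      ∏ m ∈ Finset.range (P.Z n), (Polynomial.X - Polynomial.C (m : ℤ_[p])) ^ P.T n m) ∧
  (∀ n (b b' : Fin n → ℕ), (P.B n : ℕ∞) ≤ Pot.gv p 0 0 (Pot.minor (P.NS ε a) b b')) ∧
  ∀ m, m ≡ a [MOD p] → (∃ n, P.T n m ≠ 0) →
    ∃ (x : ℕ → Fin (P.t m) → ℚ_[p]) (y : Fin (P.t m) → ℕ → ℚ_[p]),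
      ∀ i j, ∃ z : ℤ_[p], (((P.NS ε a i j).eval (m : ℤ_[p]) : ℤ_[p]) : ℚ_[p]) =
        ∑ l, x i l * y l j + (p : ℚ_[p]) ^ P.s m * z

/-- R17: the node bounds of the principal minors of `PM`. -/
def SpNode : Prop := ∀ h : ℕ → ℕ → ℕ → ℤ, Pot.CombG p P.B P.Z P.T P.s P.t h →
  (∀ n, Pot.Vtx (fun k ↦ h k 0 0) n ↔ P.Rt n) →
  ∀ (n : ℕ) (b : Fin n → ℕ), Function.Injective b →
    (∀ c ν, ((h n c ν).toNat : ℕ∞) ≤ Pot.gv p c ν (Pot.minor P.PM b b)) ∧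
    ((∃ i, n ≤ b i) → ∀ c ν, Pot.Vtx (fun k ↦ h k c ν) n →
      ((Pot.fv p P.B P.Z P.T n c ν + 1 : ℕ) : ℕ∞) ≤ Pot.gv p c ν (Pot.minor P.PM b b))

/-- `ℤ_p → ℂ_p`. -/
def iota (p : ℕ) [Fact p.Prime] : ℤ_[p] →+* PadicComplex p :=
  (algebraMap ℚ_[p] (PadicComplex p)).comp PadicInt.Coe.ringHom

/-- The matrix of `U_p` at `y`, indices from `1`. -/
def MatE (y : PadicComplex p) (i j : ℕ) : PadicComplex p :=
  (P.PM (i - 1) (j - 1)).eval₂ (iota p) y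

/-- R18: the columns of the matrix `p^(⌊j/d⌋ - ⌊i/d⌋) PM_ij` tend to zero. -/
def SpCol : Prop := ∃ K : ℕ, ∀ i j : ℕ,
  Polynomial.C ((p : ℤ_[p]) ^ (i / P.d + j / (2 * P.d))) ∣
    Polynomial.C ((p : ℤ_[p]) ^ (K + j / P.d)) * P.PM i j

/-- R20: the full determinant at a centre. -/
def SpFull : Prop := ∀ m n : ℕ, n + 1 = P.cen m →
  ‖(Pot.lead P.PM n).eval (m : ℤ_[p])‖ = (p : ℝ) ^ (-((n * P.s m + P.t m : ℕ) : ℤ))

/-- R19: the Newton polygon. -/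
def SpNP : Prop := ∀ y : PadicComplex p, ‖y‖ ≤ 1 →
  newtonPolygon p (fred (P.MatE y)) =
    newtonPolygon p fun n ↦ (Pot.lead P.PM n).eval₂ (iota p) y

/-- I14: the norms of the ghost coefficients `g`. -/
def Ghost (g : PadicComplex p → ℕ → PadicComplex p) : Prop :=
  ∀ (n : ℕ) (y : PadicComplex p), ‖y‖ ≤ 1 →
    ‖g y n‖ = (p : ℝ) ^ (-(P.B n : ℤ)) * ∏ m ∈ Finset.range (P.Z n), ‖y - (m : PadicComplex p)‖ ^
      P.T n m

end Par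

end GH.LM
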