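import Pool.Agent.GH.LM.Stm

/-!
# GH-LM-1: the factorisations `PM = W_a N_a`, `N_a = V_a PM`
-/

open PowerSeries

noncomputable section

namespace GH.LM

namespace WNx

/-! ### Stability in `L` -/

section

variable {R : Type*} [CommRing R] {p : ℕ}

theorem CF_succ (A q : PowerSeries R) (L : ℕ) : MatU.CF p A q (L + 1) =
    MatU.CF p A q L * (1 - C (MatU.bF p A q L) * X ^ (L + 1)) := by
  rw [MatU.CF, Finset.prod_range_succ]
  rfl

theorem CF_dvd (A q : PowerSeries R) {l L : ℕ} (h : l ≤ L) :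
    X ^ (l + 1) ∣ MatU.CF p A q L - MatU.CF p A q l := by
  induction L with
  | zero =>
    obtain rfl : l = 0 := by omega
    rw [sub_self]
    exact dvd_zero _
  | succ L ih =>
    rcases Nat.lt_or_ge L l with h1 | h1
    · obtain rfl : l = L + 1 := by omega
      rw [sub_self]
      exact dvd_zero _
    · have h2 : MatU.CF p A q (L + 1) - MatU.CF p A q l =
          (MatU.CF p A q L - MatU.CF p A q l) -
            X ^ (L + 1) * (MatU.CF p A q L * C (MatU.bF p A q L)) := by
        rw [CF_succ]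
        ring
      rw [h2]
      exact dvd_sub (ih h1) ((pow_dvd_pow X (by omega)).trans (dvd_mul_right _ _))

theorem coeff_CF (A q : PowerSeries R) {l L : ℕ} (h : l ≤ L) :
    coeff l (MatU.CF p A q L) = coeff l (MatU.CF p A q l) := by
  have h1 := X_pow_dvd_iff.1 (CF_dvd (p := p) A q h) l (Nat.lt_succ_self l)
  rwa [map_sub, sub_eq_zero] at h1

theorem CF_WF (A q : PowerSeries R) (L : ℕ) : MatU.CF p A q L * MatU.WF p A q L = 1 :=
  mul_invOfUnit _ 1 (by rw [MatU.constantCoeff_CF, Units.val_one])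

theorem coeff_WF (A q : PowerSeries R) {l L : ℕ} (h : l ≤ L) :
    coeff l (MatU.WF p A q L) = coeff l (MatU.WF p A q l) := by
  have h2 : MatU.WF p A q L - MatU.WF p A q l =
      -((MatU.CF p A q L - MatU.CF p A q l) * (MatU.WF p A q L * MatU.WF p A q l)) := by
    have e1 := CF_WF (p := p) A q L
    have e2 := CF_WF (p := p) A q l
    calc MatU.WF p A q L - MatU.WF p A q l
        = MatU.WF p A q L * (MatU.CF p A q l * MatU.WF p A q l) -
          MatU.WF p A q l * (MatU.CF p A q L * MatU.WF p A q L) := by rw [e1, e2, mul_one, mul_one]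
      _ = _ := by ring
  have h3 : X ^ (l + 1) ∣ MatU.WF p A q L - MatU.WF p A q l := by
    rw [h2, dvd_neg]
    exact (CF_dvd A q h).mul_right _
  have h1 := X_pow_dvd_iff.1 h3 l (Nat.lt_succ_self l)
  rwa [map_sub, sub_eq_zero] at h1

theorem SF_dvd (A q : PowerSeries R) {i L : ℕ} (h : i ≤ L) :
    X ^ (p * (i + 1)) ∣ MatU.SF p A q L - MatU.SF p A q i := by
  rw [X_pow_dvd_iff]
  intro m hm
  rw [map_sub, sub_eq_zero]
  induction L with
  | zero =>
    obtain rfl : i = 0 := by omega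
    rfl
  | succ L ih =>
    rcases Nat.lt_or_ge L i with h1 | h1
    · obtain rfl : i = L + 1 := by omega
      rfl
    · rw [MatU.coeff_SF_succ A q (lt_of_lt_of_le hm (Nat.mul_le_mul_left p (by omega))), ih h1]

theorem ent_SF (hp : 0 < p) (A q F Q : PowerSeries R) {i L : ℕ} (h : i ≤ L) (j : ℕ) :
    MatU.ent p (MatU.SF p A q L * F) Q i j = MatU.ent p (MatU.SF p A q i * F) Q i j := by
  rw [MatU.ent, MatU.ent]
  split_ifs with hj
  · rw [← sub_eq_zero, ← map_sub]
    have h1 : MatU.SF p A q L * F * Q ^ i - MatU.SF p A q i * F * Q ^ i =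
        (MatU.SF p A q L - MatU.SF p A q i) * (F * Q ^ i) := by ring
    rw [h1]
    refine X_pow_dvd_iff.1 ((SF_dvd A q h).mul_right _) _ ?_
    rw [mul_add]
    omega
  · rfl

end

variable {p : ℕ} [Fact p.Prime]

/-- The shift as a ring homomorphism. -/
def shR (a : ℕ) : Zy p →+* Zy p :=
  Polynomial.compRingHom (Polynomial.X - Polynomial.C (a : ℤ_[p]))

theorem shf_eq (a : ℕ) (Q : Zy p) : Par.shf a Q = shR a Q := rfl

theorem ext_poly {F G : Zy p} (h : ∀ m : ℕ, F.eval (m : ℤ_[p]) = G.eval (m : ℤ_[p])) :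
    F = G := by
  apply Polynomial.eq_of_infinite_eval_eq
  refine Set.Infinite.mono (s := Set.range fun n : ℕ ↦ (n : ℤ_[p])) ?_ ?_
  · rintro _ ⟨n, rfl⟩
    exact h n
  · exact Set.infinite_range_of_injective Nat.cast_injective

theorem MQ_shift {d : ℕ} (hd : 0 < d) {A : PowerSeries ℤ_[p]} (hA0 : constantCoeff A = 1)
    (hA : MatU.GrD d A) (Q F : PowerSeries ℤ_[p]) (a i j : ℕ) :
    MatU.MQ p A Q F i j = Par.shf a (MatU.MQ p A Q (F * A ^ a) i j) := by
  have h1 : (MatU.MQ p A Q F i j).comp (Polynomial.X + Polynomial.C (a : ℤ_[p])) =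
      MatU.MQ p A Q (F * A ^ a) i j := by
    apply ext_poly
    intro m
    rw [Polynomial.eval_comp, Polynomial.eval_add, Polynomial.eval_X, Polynomial.eval_C,
      ← Nat.cast_add, MatU.MQ_eval hd hA0 hA, MatU.MQ_eval hd hA0 hA, pow_add]
    have h2 : A ^ m * A ^ a * F = A ^ m * (F * A ^ a) := by ring
    rw [h2]
  rw [← h1, Par.shf, Polynomial.comp_assoc, Polynomial.add_comp, Polynomial.X_comp,
    Polynomial.C_comp, sub_add_cancel, Polynomial.comp_X]

end WNx

open WNx

variable {p : ℕ} [Fact p.Prime] (P : Par p)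

theorem spWN (hn : P.Num) (hg : P.Gr) : P.SpWN := by
  intro a
  have hp : 0 < p := (Fact.out : p.Prime).pos
  have hS := hn.S0
  have hV : ∀ l, P.VA a l = shR a (coeff l (MatU.CF p (MatU.Apow p P.Tv)
    (PowerSeries.map Polynomial.C (invOfUnit P.S 1)) l)) := fun l => rfl
  have hW : ∀ l, P.WA a l = shR a (coeff l (MatU.WF p (MatU.Apow p P.Tv)
    (PowerSeries.map Polynomial.C (invOfUnit P.S 1)) l)) := fun l => rfl
  have h3 : ∀ i j, P.PM i j =
      ∑ l ∈ Finset.range (i + 1), P.WA a (i - l) * P.NA a l j := by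
    intro i j
    rw [Par.PM, MQ_shift hn.d0 hn.Tv0 hg.Tv P.S P.F a (i + 1) (j + 1),
      MatU.MQ_row P.Tv hS (P.F * P.Tv ^ a) (i + 1) (i + 1) (j + 1), Finset.sum_range_succ,
      MatU.NQ_of_lt (i := i + 1 - (i + 1)) (by rw [Nat.sub_self, mul_zero]; omega), mul_zero,
      add_zero,
      ← Finset.sum_range_reflect, shf_eq, map_sum]
    refine Finset.sum_congr rfl fun l hl => ?_
    have hl1 := Finset.mem_range.1 hl
    rw [map_mul, show i + 1 - 1 - l = i - l by omega, show i + 1 - (i - l) = l + 1 by omega, hW,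
      MatU.WQ, coeff_WF _ _ (show i - l ≤ i + 1 by omega), Par.NA, shf_eq, MatU.NQ, MatU.NQ,
      MatU.SQ, MatU.SQ, ent_SF hp _ _ _ _ (show l + 1 ≤ i + 1 by omega)]
  have hVW : PowerSeries.mk (P.VA a) * PowerSeries.mk (P.WA a) = 1 := by
    ext1 n
    rw [coeff_mul]
    have h4 : ∀ x ∈ Finset.HasAntidiagonal.antidiagonal n, coeff x.1 (PowerSeries.mk (P.VA a)) *
        coeff x.2 (PowerSeries.mk (P.WA a)) =
        shR a (coeff x.1 (MatU.CF p (MatU.Apow p P.Tv)
          (PowerSeries.map Polynomial.C (invOfUnit P.S 1)) n) *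
          coeff x.2 (MatU.WF p (MatU.Apow p P.Tv)
            (PowerSeries.map Polynomial.C (invOfUnit P.S 1)) n)) := by
      intro x hx
      have hx1 := Finset.HasAntidiagonal.mem_antidiagonal.1 hx
      rw [coeff_mk, coeff_mk, hV, hW, map_mul, coeff_CF _ _ (show x.1 ≤ n by omega),
        coeff_WF _ _ (show x.2 ≤ n by omega)]
    rw [Finset.sum_congr rfl h4, ← map_sum, ← coeff_mul, CF_WF, coeff_one]
    split_ifs
    · exact map_one _
    · exact map_zero _
  refine ⟨?_, ?_, h3, ?_⟩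
  · rw [hW, coeff_zero_eq_constantCoeff_apply, MatU.constantCoeff_WF, map_one]
  · rw [hV, coeff_zero_eq_constantCoeff_apply, MatU.constantCoeff_CF, map_one]
  · intro i j
    have h5 : PowerSeries.mk (fun i => P.PM i j) =
        PowerSeries.mk (fun l => P.NA a l j) * PowerSeries.mk (P.WA a) := by
      ext1 n
      rw [coeff_mul, coeff_mk, h3, Finset.Nat.sum_antidiagonal_eq_sum_range_succ_mk]
      refine Finset.sum_congr rfl fun l _ => ?_
      rw [coeff_mk, coeff_mk, mul_comm]
    have h6 : PowerSeries.mk (fun l => P.NA a l j) =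
        PowerSeries.mk (fun i => P.PM i j) * PowerSeries.mk (P.VA a) := by
      rw [h5, mul_assoc, mul_comm (PowerSeries.mk (P.WA a)), hVW, mul_one]
    have h7 := congrArg (coeff i) h6
    rw [coeff_mk, coeff_mul, Finset.Nat.sum_antidiagonal_eq_sum_range_succ_mk] at h7
    rw [h7]
    refine Finset.sum_congr rfl fun l _ => ?_
    rw [coeff_mk, coeff_mk, mul_comm]

end GH.LM
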